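import Pool.Agent.Work.MP_1233f5_ag.X.Basic
import Pool.Agent.Work.MP_1233f5_ag.Bd.B02

/-! MP_1233f5_ag, block TL (captain helper37): the tail theorem, in the whole range of Q1.
Paper proof: note 4625.

Variables `x_a`, `a : Fin n`, and letters `y_i`, `i : Fin k`, each of degree at most one.  A label
is a monomial of degree `d`; chains are alternating functions on tuples of labels (as in block V,
`V.rCh`, `V.dd`, `V.rVan`). -/

set_option autoImplicit false

namespace Pool.Agent.Work.MP_1233f5_ag.TL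

open Finset
open Pool.Agent.Work.MP_1233f5_ag.V (Alt dd wdg Pred rCh rcyc rVan Mo vw)

/-! ### labels -/

/-- labels: the set of the letters `y` and the exponent in the variables `x`. -/
abbrev Lb (k n : ℕ) := Finset (Fin k) × (Fin n → ℕ)

/-- the labels of degree `d`. -/
def La (k n d : ℕ) : Finset (Lb k n) :=
  ((univ : Finset (Finset (Fin k))) ×ˢ Fintype.piFinset (fun _ : Fin n => range (d + 1))).filter
    (fun e => e.1.card + ∑ a, e.2 a = d)

theorem mem_La {k n d : ℕ} {e : Lb k n} : e ∈ La k n d ↔ e.1.card + ∑ a, e.2 a = d := by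
  unfold La
  rw [Finset.mem_filter, Finset.mem_product, Fintype.mem_piFinset]
  constructor
  · intro h
    exact h.2
  · intro h
    refine ⟨⟨mem_univ _, fun a => ?_⟩, h⟩
    rw [Finset.mem_range]
    have := Finset.single_le_sum (f := e.2) (fun i _ => Nat.zero_le _) (mem_univ a)
    omega

/-- the labels with at most one letter. -/
def LL (k n d : ℕ) : Finset (Lb k n) := (La k n d).filter (fun e => e.1.card ≤ 1)

/-- the labels with exactly one letter. -/
def L1 (k n d : ℕ) : Finset (Lb k n) := (La k n d).filter (fun e => e.1.card = 1)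

/-- the label of the power `x_i ^ d`. -/
def xi (k : ℕ) {n : ℕ} (d : ℕ) (i : Fin n) : Lb k n := (∅, Pi.single i d)

/-- the exponent of the coefficient of a tuple of labels in the strand of weight `w`. -/
def rem {k n p : ℕ} (w : Fin n → ℤ) (t : Fin p → Lb k n) (a : Fin n) : ℤ :=
  w a - ∑ i, ((t i).2 a : ℤ)

/-- the tuples with labels in `M`, letters in `Y` (each used at most once), such that the exponent
of the coefficient is negative at the variables of `J` and nonnegative at the other ones. -/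
def vZ {k n : ℕ} (M : Finset (Lb k n)) (Y : Finset (Fin k)) (w : Fin n → ℤ)
    (J : Finset (Fin n)) : Pred (Lb k n) := fun _ t =>
  (∀ i, t i ∈ M ∧ (t i).1 ⊆ Y) ∧ (∀ i j, i ≠ j → Disjoint (t i).1 (t j).1) ∧
    (∀ a ∈ J, rem w t a < 0) ∧ ∀ a, a ∉ J → 0 ≤ rem w t a

/-- every letter of `Y` is covered. -/
def Tp {k n p : ℕ} (Y : Finset (Fin k)) (t : Fin p → Lb k n) : Prop := ∀ y ∈ Y, ∃ i, y ∈ (t i).1

/-- subtraction of an exponent from a weight. -/
def sw {n : ℕ} (w : Fin n → ℤ) (v : Fin n → ℕ) : Fin n → ℤ := fun a => w a - v a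

section general
variable {K : Type} [Field K] {B : Type}

/-- `c` is a boundary. -/
def Bdy (M : Finset B) (G : Pred B) (p : ℕ) (c : (Fin p → B) → K) : Prop :=
  ∃ g : (Fin (p + 1) → B) → K, rCh G (p + 1) g ∧ ∀ t, G p t → dd M g t = c t

end general

section tr
variable {K : Type} [Field K] {k n : ℕ}

/-- the differential of `c` lives on tuples covering all letters of `Y`. -/
def cycT (M : Finset (Lb k n)) (Y : Finset (Fin k)) (w : Fin n → ℤ) :
    (p : ℕ) → ((Fin p → Lb k n) → K) → Prop
  | 0, _ => True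
  | p + 1, c => ∀ t : Fin p → Lb k n, vZ M Y w ∅ p t → ¬ Tp Y t → dd M c t = 0

/-- every chain whose differential lives on the tuples covering all letters of `Y` is, modulo a
boundary, supported on tuples covering all letters of `Y`. -/
def TR (K : Type) [Field K] {k n : ℕ} (M : Finset (Lb k n)) (Y : Finset (Fin k))
    (w : Fin n → ℤ) (p : ℕ) : Prop :=
  ∀ c : (Fin p → Lb k n) → K, rCh (vZ M Y w ∅) p c → cycT M Y w p c →
    ∃ g : (Fin (p + 1) → Lb k n) → K, rCh (vZ M Y w ∅) (p + 1) g ∧
      ∀ t, vZ M Y w ∅ p t → ¬ Tp Y t → dd M g t = c t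

end tr

/-! ### top cycles -/

/-- functions of `j` monomials of degree `r` whose product divides `x ^ w`, with zero sum over
each of the monomials. -/
def ZC {K : Type} [Field K] {n : ℕ} (r j : ℕ) (w : Fin n → ℤ) (u : (Fin j → (Fin n → ℕ)) → K) :
    Prop :=
  (∀ b, u b ≠ 0 → (∀ s, b s ∈ Mo n r) ∧ ∀ a, ∑ s, (b s a : ℤ) ≤ w a) ∧
    ∀ b s, ∑ v ∈ Mo n r, u (Function.update b s v) = 0

/-- the multilinear version: functions of `j` disjoint `r`-subsets of `P`. -/
def ZM {K : Type} [Field K] {α : Type} [Fintype α] [DecidableEq α] (r j : ℕ) (P : Finset α)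
    (u : (Fin j → Finset α) → K) : Prop :=
  (∀ b, u b ≠ 0 → (∀ s, (b s).card = r ∧ b s ⊆ P) ∧ ∀ s s', s ≠ s' → Disjoint (b s) (b s')) ∧
    ∀ b s, ∑ v ∈ (univ : Finset α).powersetCard r, u (Function.update b s v) = 0

end Pool.Agent.Work.MP_1233f5_ag.TL
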