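import Pool.Agent.Work.MP_1233f5_ag.TL.Stmts

/-! MP_1233f5_ag, block TL, item AddT: adding a label without letters, relative version. -/

set_option autoImplicit false

namespace Pool.Agent.Work.MP_1233f5_ag.TL

open Finset
open Pool.Agent.Work.MP_1233f5_ag.V (Alt dd wdg Pred rCh rcyc rVan Mo vw)

namespace IAddT

variable {K : Type} [Field K] {k n : ℕ}

theorem rem_cons {q : ℕ} (w : Fin n → ℤ) (b : Lb k n) (t : Fin q → Lb k n) (a : Fin n) :
    rem w (Fin.cons b t : Fin (q + 1) → Lb k n) a = rem w t a - (b.2 a : ℤ) := by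
  unfold rem
  rw [Fin.sum_univ_succ]
  simp only [Fin.cons_zero, Fin.cons_succ]
  ring

theorem rem_sw {q : ℕ} (w : Fin n → ℤ) (v : Fin n → ℕ) (t : Fin q → Lb k n) (a : Fin n) :
    rem (sw w v) t a = rem w t a - (v a : ℤ) := by
  unfold rem sw
  ring

theorem vZ_tail {q : ℕ} {M : Finset (Lb k n)} {Y : Finset (Fin k)} {w : Fin n → ℤ} {b : Lb k n}
    {t : Fin q → Lb k n} (h : vZ M Y w ∅ (q + 1) (Fin.cons b t : Fin (q + 1) → Lb k n)) :
    vZ M Y w ∅ q t := by
  obtain ⟨h1, h2, -, h4⟩ := h
  refine ⟨fun i => ?_, fun i j hij => ?_, by simp, fun a ha => ?_⟩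
  · have := h1 i.succ
    rwa [Fin.cons_succ] at this
  · have := h2 i.succ j.succ (fun h => hij (Fin.succ_injective _ h))
    rwa [Fin.cons_succ, Fin.cons_succ] at this
  · have := h4 a ha
    rw [rem_cons] at this
    have h5 : (0 : ℤ) ≤ b.2 a := Int.natCast_nonneg _
    linarith

theorem vZ_mono {q : ℕ} {M : Finset (Lb k n)} {Y : Finset (Fin k)} {w : Fin n → ℤ} {e : Lb k n}
    {t : Fin q → Lb k n} (h : vZ M Y w ∅ q t) : vZ (insert e M) Y w ∅ q t :=
  ⟨fun i => ⟨Finset.mem_insert_of_mem (h.1 i).1, (h.1 i).2⟩, h.2.1, h.2.2⟩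

theorem vZ_cons {q : ℕ} {M : Finset (Lb k n)} {Y : Finset (Fin k)} {w : Fin n → ℤ} {e : Lb k n}
    (he : e.1 = ∅) {t : Fin q → Lb k n} (h : vZ M Y (sw w e.2) ∅ q t) :
    vZ (insert e M) Y w ∅ (q + 1) (Fin.cons e t : Fin (q + 1) → Lb k n) := by
  obtain ⟨h1, h2, -, h4⟩ := h
  refine ⟨fun i => ?_, fun i j hij => ?_, by simp, fun a ha => ?_⟩
  · refine Fin.cases ?_ (fun i => ?_) i
    · rw [Fin.cons_zero, he]
      exact ⟨Finset.mem_insert_self _ _, Finset.empty_subset _⟩
    · rw [Fin.cons_succ]
      exact ⟨Finset.mem_insert_of_mem (h1 i).1, (h1 i).2⟩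
  · revert hij
    refine Fin.cases ?_ (fun i => ?_) i
    · intro _
      rw [Fin.cons_zero, he]
      exact Finset.disjoint_empty_left _
    · refine Fin.cases ?_ (fun j => ?_) j
      · intro _
        rw [Fin.cons_zero, he]
        exact Finset.disjoint_empty_right _
      · intro hij
        rw [Fin.cons_succ, Fin.cons_succ]
        exact h2 i j (fun h => hij (by rw [h]))
  · have := h4 a ha
    rw [rem_sw] at this
    rw [rem_cons]
    exact this

theorem vZ_of_cons {q : ℕ} {M : Finset (Lb k n)} {Y : Finset (Fin k)} {w : Fin n → ℤ}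
    {e : Lb k n} {t : Fin q → Lb k n}
    (h : vZ (insert e M) Y w ∅ (q + 1) (Fin.cons e t : Fin (q + 1) → Lb k n))
    (hne : ∀ i, t i ≠ e) : vZ M Y (sw w e.2) ∅ q t := by
  obtain ⟨h1, h2, -, h4⟩ := h
  refine ⟨fun i => ?_, fun i j hij => ?_, by simp, fun a ha => ?_⟩
  · have := h1 i.succ
    rw [Fin.cons_succ] at this
    exact ⟨Finset.mem_of_mem_insert_of_ne this.1 (hne i), this.2⟩
  · have := h2 i.succ j.succ (fun h => hij (Fin.succ_injective _ h))
    rwa [Fin.cons_succ, Fin.cons_succ] at this
  · have := h4 a ha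
    rw [rem_cons] at this
    rw [rem_sw]
    exact this

theorem vZ_weak {q : ℕ} {M : Finset (Lb k n)} {Y : Finset (Fin k)} {w : Fin n → ℤ}
    {v : Fin n → ℕ} {t : Fin q → Lb k n} (h : vZ M Y (sw w v) ∅ q t) : vZ M Y w ∅ q t := by
  obtain ⟨h1, h2, -, h4⟩ := h
  refine ⟨h1, h2, by simp, fun a ha => ?_⟩
  have := h4 a ha
  rw [rem_sw] at this
  have h5 : (0 : ℤ) ≤ v a := Int.natCast_nonneg _
  linarith

theorem vZ_perm {q : ℕ} {M : Finset (Lb k n)} {Y : Finset (Fin k)} {w : Fin n → ℤ}
    {t : Fin q → Lb k n} (σ : Equiv.Perm (Fin q)) (h : vZ M Y w ∅ q (t ∘ σ)) :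
    vZ M Y w ∅ q t := by
  obtain ⟨h1, h2, -, h4⟩ := h
  refine ⟨fun i => ?_, fun i j hij => ?_, by simp, fun a ha => ?_⟩
  · have := h1 (σ.symm i)
    simpa using this
  · have := h2 (σ.symm i) (σ.symm j) (fun h => hij (σ.symm.injective h))
    simpa using this
  · have h5 := h4 a ha
    unfold rem at h5 ⊢
    have h6 : ∑ i, (((t ∘ σ) i).2 a : ℤ) = ∑ i, ((t i).2 a : ℤ) :=
      Equiv.sum_comp σ (fun i => ((t i).2 a : ℤ))
    rwa [h6] at h5

theorem cyc_eq {B : Type} {q : ℕ} (t : Fin (q + 1) → B) (i : Fin (q + 1)) :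
    t ∘ (i.cycleRange.symm) = Fin.cons (t i) (i.removeNth t) := by
  funext j
  refine Fin.cases ?_ (fun j => ?_) j
  · simp [Fin.cycleRange_symm_zero]
  · simp [Fin.cycleRange_symm_succ, Fin.removeNth]

theorem vZ_ins {q : ℕ} {M : Finset (Lb k n)} {Y : Finset (Fin k)} {w : Fin n → ℤ}
    {e : Lb k n} (he : e.1 = ∅) {t : Fin (q + 1) → Lb k n} {i : Fin (q + 1)} (hi : t i = e)
    (h : vZ M Y (sw w e.2) ∅ q (i.removeNth t)) : vZ (insert e M) Y w ∅ (q + 1) t := by
  refine vZ_perm (i.cycleRange.symm) ?_
  rw [cyc_eq, hi]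
  exact vZ_cons he h

/-- a chain on tuples over `M` vanishes on tuples containing `e`. -/
theorem supp_ne {q : ℕ} {M : Finset (Lb k n)} {Y : Finset (Fin k)} {w : Fin n → ℤ}
    {e : Lb k n} (he : e ∉ M) {g : (Fin q → Lb k n) → K} (hg : rCh (vZ M Y w ∅) q g)
    {t : Fin q → Lb k n} {i : Fin q} (hi : t i = e) : g t = 0 := by
  by_contra h
  have := ((hg.2 t h).1 i).1
  rw [hi] at this
  exact he this

/-- the differential of such a chain does as well. -/
theorem dd_supp {q : ℕ} {M N : Finset (Lb k n)} {Y : Finset (Fin k)} {w : Fin n → ℤ}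
    {e : Lb k n} (he : e ∉ M) {g : (Fin (q + 1) → Lb k n) → K}
    (hg : rCh (vZ M Y w ∅) (q + 1) g) {t : Fin q → Lb k n} {i : Fin q} (hi : t i = e) :
    dd N g t = 0 := by
  unfold dd
  refine Finset.sum_eq_zero fun b _ => ?_
  exact supp_ne he hg (i := i.succ) (by rw [Fin.cons_succ, hi])

theorem dd_ins {q : ℕ} {M : Finset (Lb k n)} {Y : Finset (Fin k)} {w : Fin n → ℤ}
    {e : Lb k n} (he : e ∉ M) {g : (Fin (q + 1) → Lb k n) → K}
    (hg : rCh (vZ M Y w ∅) (q + 1) g) (t : Fin q → Lb k n) :
    dd (insert e M) g t = dd M g t := by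
  unfold dd
  rw [Finset.sum_insert he, supp_ne he hg (i := 0) (by rw [Fin.cons_zero]), zero_add]

theorem not_Tp_cons {q : ℕ} {Y : Finset (Fin k)} {e : Lb k n} (he : e.1 = ∅)
    {t : Fin q → Lb k n} (h : ¬ Tp Y t) : ¬ Tp Y (Fin.cons e t : Fin (q + 1) → Lb k n) := by
  intro h1
  apply h
  intro y hy
  obtain ⟨i, hi⟩ := h1 y hy
  revert hi
  refine Fin.cases ?_ (fun i => ?_) i
  · intro hi
    rw [Fin.cons_zero, he] at hi
    exact absurd hi (Finset.notMem_empty _)
  · intro hi
    rw [Fin.cons_succ] at hi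
    exact ⟨i, hi⟩

theorem not_Tp_remove {q : ℕ} {Y : Finset (Fin k)} {t : Fin (q + 1) → Lb k n}
    (i : Fin (q + 1)) (h : ¬ Tp Y t) : ¬ Tp Y (i.removeNth t) := by
  intro h1
  apply h
  intro y hy
  obtain ⟨j, hj⟩ := h1 y hy
  exact ⟨i.succAbove j, hj⟩

end IAddT

open IAddT in
theorem pr_AddT : S_AddT := by
  intro K _ _ k n p M e Y w he he1 hTR hTR'
  intro c hc hcyc
  obtain _ | p := p
  · -- no new tuples
    have hc0 : rCh (vZ M Y w ∅) 0 c := by
      refine ⟨hc.1, fun t ht => ?_⟩
      have h1 := hc.2 t ht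
      exact ⟨fun i => i.elim0, fun i => i.elim0, h1.2.2⟩
    obtain ⟨g, hg, hgt⟩ := hTR c hc0 trivial
    refine ⟨g, ⟨hg.1, fun t ht => vZ_mono (hg.2 t ht)⟩, fun t ht hT => ?_⟩
    rw [dd_ins he hg]
    exact hgt t ⟨fun i => i.elim0, fun i => i.elim0, ht.2.2⟩ hT
  · -- the part which contains `e`
    set c1 : (Fin p → Lb k n) → K := fun t => c (Fin.cons e t) with hc1
    have hc1A : Alt p c1 := by
      have h1 := Alt.dd {e} hc.1
      have h2 : dd {e} c = c1 := by
        funext t
        simp [dd, hc1]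
      rwa [h2] at h1
    have hc1z : ∀ t : Fin p → Lb k n, ∀ i, t i = e → c1 t = 0 := by
      intro t i hi
      refine hc.1.eq_zero (i := 0) (j := i.succ) (Fin.succ_ne_zero i).symm ?_
      rw [Fin.cons_zero, Fin.cons_succ, hi]
    have hc1c : rCh (vZ M Y (sw w e.2) ∅) p c1 := by
      refine ⟨hc1A, fun t ht => ?_⟩
      exact vZ_of_cons (hc.2 _ ht) (fun i hi => ht (hc1z t i hi))
    have hc1y : cycT M Y (sw w e.2) p c1 := by
      obtain _ | q := p
      · trivial
      · intro t ht hT
        have h1 := hcyc (Fin.cons e t) (vZ_cons he1 ht) (not_Tp_cons he1 hT)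
        have h2 : dd (insert e M) c (Fin.cons e t) = - dd M c1 t := by
          unfold dd
          rw [Finset.sum_insert he, ← Finset.sum_neg_distrib]
          have h3 : c (Fin.cons e (Fin.cons e t)) = 0 :=
            hc1z (Fin.cons e t) 0 (by rw [Fin.cons_zero])
          rw [h3, zero_add]
          refine Finset.sum_congr rfl fun b _ => ?_
          have h4 := hc.1.cons_removeNth (Fin.cons b (Fin.cons e t)) 1
          have h5 : (1 : Fin (q + 2)).removeNth (Fin.cons b (Fin.cons e t) : Fin (q + 2) → Lb k n) =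
              Fin.cons b t := by
            have := V.cons_removeNth_succ b (Fin.cons e t : Fin (q + 1) → Lb k n) 0
            rw [V.cons_removeNth_zero] at this
            exact this
          have h6 : (Fin.cons b (Fin.cons e t) : Fin (q + 2) → Lb k n) 1 = e := by
            show (Fin.cons b (Fin.cons e t) : Fin (q + 2) → Lb k n) (Fin.succ 0) = e
            rw [Fin.cons_succ, Fin.cons_zero]
          rw [h5, h6] at h4
          simp only [hc1]
          rw [h4]
          simp
        rw [h2, neg_eq_zero] at h1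
        exact h1
    obtain ⟨g1, hg1, hg1t⟩ := hTR' p rfl c1 hc1c hc1y
    have hg1w : rCh (vZ M Y w ∅) (p + 1) g1 := ⟨hg1.1, fun t ht => vZ_weak (hg1.2 t ht)⟩
    -- `dd g1 = c1` on tuples over `M` which do not cover `Y`
    have hL1 : ∀ t : Fin p → Lb k n, (∀ i, t i ≠ e) → ¬ Tp Y t → dd M g1 t = c1 t := by
      intro t hte hT
      by_cases hv : vZ M Y (sw w e.2) ∅ p t
      · exact hg1t t hv hT
      · have h1 : c1 t = 0 := by
          by_contra h
          exact hv (vZ_of_cons (hc.2 _ h) hte)
        have h2 : dd M g1 t = 0 := by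
          unfold dd
          refine Finset.sum_eq_zero fun b _ => ?_
          by_contra h
          exact hv (vZ_tail (hg1.2 _ h))
        rw [h1, h2]
    have hwch : rCh (vZ (insert e M) Y w ∅) (p + 2) (wdg e g1) := by
      refine ⟨hg1.1.wdg e, fun t ht => ?_⟩
      unfold wdg at ht
      obtain ⟨i, -, hi⟩ := Finset.exists_ne_zero_of_sum_ne_zero ht
      by_cases hie : t i = e
      · rw [if_pos hie] at hi
        exact vZ_ins he1 hie (hg1.2 _ (right_ne_zero_of_mul hi))
      · rw [if_neg hie] at hi
        exact absurd rfl hi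
    set c2 : (Fin (p + 1) → Lb k n) → K := fun t => (if ∃ i, t i = e then 0 else c t) + g1 t
      with hc2
    -- the main identity
    have hI : ∀ t : Fin (p + 1) → Lb k n, (¬ Tp Y t ∨ ∀ i, t i ≠ e) →
        c t + dd (insert e M) (wdg e g1) t = c2 t := by
      intro t ht
      have h1 := V.dd_wdg (insert e M) (Finset.mem_insert_self e M) g1 t
      have h2 : dd (insert e M) g1 = dd M g1 := funext fun s => dd_ins he hg1 s
      rw [h2] at h1
      have h3 : wdg e (dd M g1) t = if ∃ i, t i = e then c t else 0 := by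
        by_cases hex : ∃ i, t i = e
        · rw [if_pos hex]
          obtain ⟨i, hi⟩ := hex
          have hT : ¬ Tp Y t := by
            rcases ht with h | h
            · exact h
            · exact absurd hi (h i)
          by_cases hun : ∃ j, j ≠ i ∧ t j = e
          · obtain ⟨j, hji, hj⟩ := hun
            rw [hc.1.eq_zero hji (by rw [hj, hi])]
            unfold wdg
            refine Finset.sum_eq_zero fun l _ => ?_
            split_ifs with hl
            · by_cases hli : l = i
              · subst hli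
                obtain ⟨m, hm⟩ := Fin.exists_succAbove_eq hji
                rw [dd_supp he hg1 (i := m) (by rw [Fin.removeNth_apply, hm, hj]), mul_zero]
              · obtain ⟨m, hm⟩ := Fin.exists_succAbove_eq (Ne.symm hli)
                rw [dd_supp he hg1 (i := m) (by rw [Fin.removeNth_apply, hm, hi]), mul_zero]
            · rfl
          · push Not at hun
            unfold wdg
            rw [Finset.sum_eq_single i]
            · have hL := hL1 (i.removeNth t) (fun m hm => hun _ (Fin.succAbove_ne i m) hm)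
                (not_Tp_remove i hT)
              rw [if_pos hi, hL]
              have h4 := hc.1.cons_removeNth t i
              rw [hi] at h4
              simp only [hc1]
              rw [h4, ← mul_assoc, ← pow_add, ← two_mul, pow_mul]
              simp
            · intro j _ hji
              rw [if_neg (hun j hji)]
            · intro h
              exact absurd (Finset.mem_univ i) h
        · rw [if_neg hex]
          push Not at hex
          unfold wdg
          refine Finset.sum_eq_zero fun l _ => ?_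
          rw [if_neg (hex l)]
      rw [h3] at h1
      simp only [hc2]
      split_ifs at h1 ⊢
      · rw [zero_add, ← h1]
        ring
      · rw [← h1]
        ring
    have hc2c : rCh (vZ M Y w ∅) (p + 1) c2 := by
      constructor
      · refine V.Alt.add ?_ hg1.1
        intro σ t
        have h1 : (∃ i, (t ∘ σ) i = e) ↔ ∃ i, t i = e := by
          constructor
          · rintro ⟨i, hi⟩
            exact ⟨σ i, hi⟩
          · rintro ⟨i, hi⟩
            exact ⟨σ.symm i, by simpa using hi⟩
        show (if ∃ i, (t ∘ σ) i = e then (0 : K) else c (t ∘ σ)) =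
          ((Equiv.Perm.sign σ : ℤ) : K) * (if ∃ i, t i = e then 0 else c t)
        by_cases hex : ∃ i, t i = e
        · rw [if_pos hex, if_pos (h1.mpr hex), mul_zero]
        · rw [if_neg hex, if_neg (fun h => hex (h1.mp h))]
          exact hc.1 σ t
      · intro t ht
        simp only [hc2] at ht
        by_cases hg : g1 t = 0
        · rw [hg, add_zero] at ht
          by_cases hex : ∃ i, t i = e
          · rw [if_pos hex] at ht
            exact absurd rfl ht
          · rw [if_neg hex] at ht
            push Not at hex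
            have h1 := hc.2 t ht
            exact ⟨fun i => ⟨Finset.mem_of_mem_insert_of_ne (h1.1 i).1 (hex i), (h1.1 i).2⟩,
              h1.2.1, h1.2.2⟩
        · exact hg1w.2 t hg
    have hc2y : cycT M Y w (p + 1) c2 := by
      intro t ht hT
      have hte : ∀ i, t i ≠ e := fun i hi => he (hi ▸ (ht.1 i).1)
      have h1 : dd (insert e M) c t = 0 := hcyc t (vZ_mono ht) hT
      have h2 : dd (insert e M) (dd (insert e M) (wdg e g1)) t = 0 :=
        V.dd_dd _ (hg1.1.wdg e) t
      have h3 : dd (insert e M) c2 t = dd (insert e M) c t +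
          dd (insert e M) (dd (insert e M) (wdg e g1)) t := by
        unfold dd
        rw [← Finset.sum_add_distrib]
        refine Finset.sum_congr rfl fun b hb => ?_
        have h4 := hI (Fin.cons b t) (by
          rcases Finset.mem_insert.mp hb with rfl | hb
          · exact Or.inl (not_Tp_cons he1 hT)
          · right
            intro i
            refine Fin.cases ?_ (fun i => ?_) i
            · rw [Fin.cons_zero]
              exact fun h => he (h ▸ hb)
            · rw [Fin.cons_succ]
              exact hte i)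
        exact h4.symm
      rw [h1, h2, add_zero, dd_ins he hc2c] at h3
      exact h3
    obtain ⟨g2, hg2, hg2t⟩ := hTR c2 hc2c hc2y
    refine ⟨fun t => g2 t - wdg e g1 t, ⟨V.Alt.sub hg2.1 hwch.1, fun t ht => ?_⟩,
      fun t ht hT => ?_⟩
    · by_cases h1 : g2 t = 0
      · refine hwch.2 t fun h2 => ht ?_
        show g2 t - wdg e g1 t = 0
        rw [h1, h2, sub_zero]
      · exact vZ_mono (hg2.2 t h1)
    · have h1 : dd (insert e M) (fun t => g2 t - wdg e g1 t) t =
          dd (insert e M) g2 t - dd (insert e M) (wdg e g1) t := by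
        unfold dd
        rw [← Finset.sum_sub_distrib]
      have h2 := hI t (Or.inl hT)
      have h3 : dd (insert e M) g2 t = c2 t := by
        by_cases hex : ∃ i, t i = e
        · obtain ⟨i, hi⟩ := hex
          rw [dd_supp he hg2 hi]
          simp only [hc2]
          rw [if_pos ⟨i, hi⟩, supp_ne he hg1 hi, add_zero]
        · push Not at hex
          rw [dd_ins he hg2]
          exact hg2t t ⟨fun i => ⟨Finset.mem_of_mem_insert_of_ne (ht.1 i).1 (hex i),
            (ht.1 i).2⟩, ht.2.1, ht.2.2⟩ hT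
      rw [h1, h3, ← h2]
      ring

end Pool.Agent.Work.MP_1233f5_ag.TL
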