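import Pool.Agent.Work.MP_1233f5_ag.TL.Stmts

/-! MP_1233f5_ag, block TL, item BrT: the bridge for the restricted pieces. -/

set_option autoImplicit false
open scoped TensorProduct

namespace Pool.Agent.Work.MP_1233f5_ag.TL

open Finset
open Pool.Agent.Work.MP_1233f5_ag.V

namespace IBrT

theorem core {n d p T : ℕ} {x : LS n d} (hx : x ∈ piece n d p T)
    (hg : ∀ w : Fin n → ℕ, ∃ g : (Fin (p + 1) → (Fin n → ℕ)) → ℂ, ∑ a, w a = p * d + T →
      rCh (vw d w) (p + 1) g ∧
        ∀ t, vw d w p t → dd (Mo n d) g t = Bridge_c n d p x w t) :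
    x ∈ LinearMap.range (DK n d) := by
  have hBrD : S_BrD := h_BrD
  have hBrRep : S_BrRep := h_BrRep
  have hBrVal : S_BrVal := pr_BrVal
  have hBrDeg : S_BrDeg := h_BrDeg
  choose g hg using hg
  -- the coefficients of `x`
  have hco : ∀ t : Fin p → (Fin n → ℕ), (∀ i, t i ∈ Mo n d) → ∀ a ∈ Mo n T,
      Co n d p t a x = ∑ v ∈ Mo n d, g (a + ∑ i, t i) (Fin.cons v t) := by
    intro t ht a ha
    have hw : ∑ j, (a + ∑ i, t i) j = p * d + T := by
      simp only [Pi.add_apply]
      rw [Finset.sum_add_distrib, Bridge_total t ht, Bridge_mem.1 ha, add_comm]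
    have hvw : vw d (a + ∑ i, t i) p t := ⟨ht, by
      intro j; simp only [Pi.add_apply]; omega⟩
    have h1 := (hg _ hw).2 t hvw
    unfold dd at h1
    rw [h1]
    unfold Bridge_c
    rw [if_pos hvw, add_tsub_cancel_right]
  rcases lt_or_ge T d with hTd | hTd
  · -- small degree: `x = 0`
    refine ⟨0, ?_⟩
    rw [map_zero]
    refine Bridge_eq hBrRep (Submodule.zero_mem _) hx ?_
    intro t ht a ha
    rw [hco t ht a ha, map_zero]
    symm
    refine Finset.sum_eq_zero (fun v hv => ?_)
    have hw : ∑ j, (a + ∑ i, t i) j = p * d + T := by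
      simp only [Pi.add_apply]
      rw [Finset.sum_add_distrib, Bridge_total t ht, Bridge_mem.1 ha, add_comm]
    by_contra hne
    have h1 := (hg _ hw).1.2 _ hne
    rw [Bridge_vw_cons _ v t hv ht] at h1
    have h2 : ∀ j ∈ (univ : Finset (Fin n)), v j ≤ a j := by
      intro j _
      have h3 := h1 j
      simp only [Pi.add_apply] at h3
      omega
    have h3 := Finset.sum_le_sum h2
    rw [Bridge_mem.1 hv, Bridge_mem.1 ha] at h3
    omega
  · obtain ⟨T0, rfl⟩ : ∃ T0, T = T0 + d := ⟨T - d, by omega⟩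
    set y : LS n d := (((p + 1).factorial : ℂ)⁻¹) •
      ∑ s ∈ Fintype.piFinset (fun _ : Fin (p + 1) => Mo n d),
        ∑ a ∈ Mo n T0, g (a + ∑ i, s i) s • bas n d (p + 1) s a with hy
    have hypiece : y ∈ piece n d (p + 1) T0 := by
      rw [hy]
      refine Submodule.smul_mem _ _ (Submodule.sum_mem _ (fun s _ => Submodule.sum_mem _
        (fun a ha => Submodule.smul_mem _ _ ((hBrDeg n d (p + 1) T0).1 s a ha))))
    have hDy : DK n d y ∈ piece n d p (T0 + d) := (hBrDeg n d p T0).2 y hypiece
    -- coefficients of `y`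
    have hyc : ∀ s : Fin (p + 1) → (Fin n → ℕ), (∀ i, s i ∈ Mo n d) → ∀ a ∈ Mo n T0,
        Co n d (p + 1) s a y = g (a + ∑ i, s i) s := by
      intro s hs a ha
      have hw : ∑ j, (a + ∑ i, s i) j = p * d + (T0 + d) := by
        simp only [Pi.add_apply]
        rw [Finset.sum_add_distrib, Bridge_total s hs, Bridge_mem.1 ha]
        ring
      have hAlt := (hg _ hw).1.1
      rw [hy, map_smul, map_sum]
      have h1 : ∀ s' ∈ Fintype.piFinset (fun _ : Fin (p + 1) => Mo n d),
          Co n d (p + 1) s a (∑ a' ∈ Mo n T0, g (a' + ∑ i, s' i) s' • bas n d (p + 1) s' a') =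
          ∑ σ : Equiv.Perm (Fin (p + 1)), if s' = s ∘ σ then
            ((Equiv.Perm.sign σ : ℤ) : ℂ) * g (a + ∑ i, s' i) s' else 0 := by
        intro s' hs'
        rw [map_sum]
        have h2 : ∀ a' ∈ Mo n T0, Co n d (p + 1) s a (g (a' + ∑ i, s' i) s' •
            bas n d (p + 1) s' a') = if a = a' then (∑ σ : Equiv.Perm (Fin (p + 1)),
              if s' = s ∘ σ then ((Equiv.Perm.sign σ : ℤ) : ℂ) * g (a + ∑ i, s' i) s' else 0)
              else 0 := by
          intro a' _
          rw [map_smul, hBrVal n d (p + 1) s s' a a' hs (fun i => Fintype.mem_piFinset.1 hs' i)]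
          by_cases haa : a = a'
          · subst haa
            rw [if_pos rfl, if_pos rfl, smul_eq_mul, Finset.mul_sum]
            refine Finset.sum_congr rfl (fun σ _ => ?_)
            split_ifs
            · ring
            · ring
          · rw [if_neg haa, if_neg haa, smul_zero]
        rw [Finset.sum_congr rfl h2, Finset.sum_ite_eq, if_pos ha]
      rw [Finset.sum_congr rfl h1, Finset.sum_comm]
      have h3 : ∀ σ ∈ (univ : Finset (Equiv.Perm (Fin (p + 1)))),
          (∑ s' ∈ Fintype.piFinset (fun _ : Fin (p + 1) => Mo n d), if s' = s ∘ σ then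
            ((Equiv.Perm.sign σ : ℤ) : ℂ) * g (a + ∑ i, s' i) s' else 0) =
          g (a + ∑ i, s i) s := by
        intro σ _
        rw [Finset.sum_ite_eq' (Fintype.piFinset (fun _ : Fin (p + 1) => Mo n d)) (s ∘ σ)
          (fun s' => ((Equiv.Perm.sign σ : ℤ) : ℂ) * g (a + ∑ i, s' i) s')]
        have h5 : s ∘ σ ∈ Fintype.piFinset (fun _ : Fin (p + 1) => Mo n d) :=
          Fintype.mem_piFinset.2 (fun i => hs (σ i))
        rw [if_pos h5]
        have h4 : ∑ i, (s ∘ σ) i = ∑ i, s i := Equiv.sum_comp σ s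
        rw [h4, hAlt σ s, ← mul_assoc, ← Int.cast_mul, ← Units.val_mul, Int.units_mul_self]
        simp
      rw [Finset.sum_congr rfl h3]
      rw [Finset.sum_const, Finset.card_univ, Fintype.card_perm, Fintype.card_fin, smul_eq_mul,
        nsmul_eq_mul, ← mul_assoc, inv_mul_cancel₀, one_mul]
      exact_mod_cast (p + 1).factorial_ne_zero
    refine ⟨y, ?_⟩
    refine Bridge_eq hBrRep hDy hx ?_
    intro t ht a ha
    rw [hBrD n d p t a y, hco t ht a ha]
    refine Finset.sum_congr rfl (fun v hv => ?_)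
    have hw : ∑ j, (a + ∑ i, t i) j = p * d + (T0 + d) := by
      simp only [Pi.add_apply]
      rw [Finset.sum_add_distrib, Bridge_total t ht, Bridge_mem.1 ha, add_comm]
    by_cases hva : ∀ j, v j ≤ a j
    · rw [if_pos hva]
      have hav : a - v ∈ Mo n T0 := by
        rw [Bridge_mem]
        have h1 : ∑ j, (a - v) j + ∑ j, v j = ∑ j, a j := by
          rw [← Finset.sum_add_distrib]
          refine Finset.sum_congr rfl (fun j _ => ?_)
          have := hva j
          simp only [Pi.sub_apply]
          omega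
        rw [Bridge_mem.1 hv, Bridge_mem.1 ha] at h1
        omega
      have hs : ∀ i, (Fin.cons v t : Fin (p + 1) → (Fin n → ℕ)) i ∈ Mo n d := by
        intro i
        refine Fin.cases ?_ (fun i => ?_) i
        · simpa using hv
        · simpa using ht i
      rw [hyc _ hs _ hav, Bridge_sum_cons]
      congr 1
      funext j
      have := hva j
      simp only [Pi.add_apply, Pi.sub_apply]
      omega
    · rw [if_neg hva]
      symm
      by_contra hne
      have h1 := (hg _ hw).1.2 _ hne
      rw [Bridge_vw_cons _ v t hv ht] at h1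
      apply hva
      intro j
      have h3 := h1 j
      simp only [Pi.add_apply] at h3
      omega

theorem co_zero (n d p T s k : ℕ) (x : LS n d) (hx : x ∈ tailPiece n d p T s k)
    (t : Fin p → (Fin n → ℕ)) (ht : ∀ i, t i ∈ Mo n d) (a : Fin n → ℕ)
    (h : k < ∑ j ∈ univ.filter (fun j : Fin n => s ≤ (j : ℕ)), (a j + ∑ i, t i j)) :
    Co n d p t a x = 0 := by
  unfold tailPiece at hx
  induction hx using Submodule.span_induction with
  | mem z hz =>
    obtain ⟨t', a', ht', -, hk, rfl⟩ := hz
    rw [pr_BrVal n d p t t' a a' ht ht']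
    by_cases haa : a = a'
    · subst haa
      rw [if_pos rfl]
      refine Finset.sum_eq_zero (fun σ _ => ?_)
      rw [if_neg]
      rintro rfl
      have h2 : ∀ j, ∑ i, (t ∘ σ) i j = ∑ i, t i j := fun j =>
        Equiv.sum_comp σ (fun i => t i j)
      simp only [h2] at hk
      omega
    · rw [if_neg haa]
  | zero => rw [map_zero]
  | add y z _ _ hy hz => rw [map_add, hy, hz, add_zero]
  | smul c y _ hy => rw [map_smul, hy, smul_zero]

theorem mem_piece (n d p T s k : ℕ) (x : LS n d) (hx : x ∈ tailPiece n d p T s k) :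
    x ∈ piece n d p T := by
  have hle : tailPiece n d p T s k ≤ piece n d p T := by
    refine Submodule.span_le.2 ?_
    rintro z ⟨t, a, ht, ha, -, rfl⟩
    exact (h_BrDeg n d p T).1 t a ha
  exact hle hx

end IBrT

theorem pr_BrT : S_BrT := by
  intro n d p T s k hvan x hx hDx
  refine IBrT.core (IBrT.mem_piece n d p T s k x hx) ?_
  intro w
  by_cases hw : ∑ a, w a = p * d + T
  · by_cases hk : ∑ j ∈ univ.filter (fun j : Fin n => s ≤ (j : ℕ)), w j ≤ k
    · obtain ⟨g, hg1, hg2⟩ := hvan w hw hk (Bridge_c n d p x w) (Bridge_ch pr_BrAlt n d p x w)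
        (Bridge_cyc h_BrD n d p x hDx w)
      exact ⟨g, fun _ => ⟨hg1, hg2⟩⟩
    · refine ⟨fun _ => 0, fun _ => ⟨⟨?_, ?_⟩, ?_⟩⟩
      · intro σ t
        simp
      · intro t ht
        exact absurd rfl ht
      · intro t ht
        have h1 : dd (Mo n d) (fun _ : Fin (p + 1) → (Fin n → ℕ) => (0 : ℂ)) t = 0 := by
          unfold dd
          simp
        rw [h1]
        unfold Bridge_c
        rw [if_pos ht]
        symm
        refine IBrT.co_zero n d p T s k x hx t ht.1 _ ?_
        have h2 : ∀ j, (w - ∑ i, t i) j + ∑ i, t i j = w j := by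
          intro j
          have h3 := ht.2 j
          simp only [Pi.sub_apply, Finset.sum_apply] at h3 ⊢
          omega
        simp only [h2]
        omega
  · exact ⟨fun _ => 0, fun h => absurd h hw⟩

end Pool.Agent.Work.MP_1233f5_ag.TL
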