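import Pool.Agent.Work.MP_1233f5_ag.TL.Stmts

/-! MP_1233f5_ag, block TL, item Det: generic determinants. -/

set_option autoImplicit false

namespace Pool.Agent.Work.MP_1233f5_ag.TL

open Finset

namespace IDet

variable {K : Type} [Field K] {n : ℕ} {L A : Type} [Fintype A]

/-- the exponent of the term of the permutation `σ`. -/
noncomputable def ex (e : A → L) (f : A → (Fin n → ℕ)) (σ : Equiv.Perm A) : L × Fin n →₀ ℕ :=
  ∑ a, ∑ i, Finsupp.single (e (σ a), i) (f a i)

theorem term (e : A → L) (f : A → (Fin n → ℕ)) (σ : Equiv.Perm A) :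
    ∏ a, ∏ i, (MvPolynomial.X (e (σ a), i) : MvPolynomial (L × Fin n) K) ^ (f a i) =
      MvPolynomial.monomial (ex e f σ) 1 := by
  unfold ex
  rw [MvPolynomial.monomial_sum_one]
  refine Finset.prod_congr rfl fun a _ => ?_
  rw [MvPolynomial.monomial_sum_one]
  refine Finset.prod_congr rfl fun i _ => ?_
  rw [MvPolynomial.X_pow_eq_monomial]

theorem ex_apply {e : A → L} (he : Function.Injective e) (f : A → (Fin n → ℕ))
    (σ : Equiv.Perm A) (b : A) (i : Fin n) : ex e f σ (e b, i) = f (σ⁻¹ b) i := by
  classical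
  unfold ex
  rw [Finsupp.finsetSum_apply, Finset.sum_eq_single (σ⁻¹ b)]
  · rw [Finsupp.finsetSum_apply, Finset.sum_eq_single i]
    · have h : σ (σ⁻¹ b) = b := by simp
      rw [h, Finsupp.single_eq_same]
    · intro j _ hj
      rw [Finsupp.single_apply, if_neg]
      intro h
      exact hj (congrArg Prod.snd h)
    · intro h
      exact absurd (mem_univ _) h
  · intro a _ ha
    rw [Finsupp.finsetSum_apply]
    refine Finset.sum_eq_zero fun j _ => ?_
    rw [Finsupp.single_apply, if_neg]
    intro h
    have h1 : e (σ a) = e b := congrArg Prod.fst h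
    apply ha
    rw [← he h1]
    simp
  · intro h
    exact absurd (mem_univ _) h

theorem ex_inj {e : A → L} (he : Function.Injective e) {f : A → (Fin n → ℕ)}
    (hf : Function.Injective f) {σ : Equiv.Perm A} (h : ex e f σ = ex e f 1) : σ = 1 := by
  have h1 : ∀ b, σ⁻¹ b = b := by
    intro b
    apply hf
    funext i
    have h2 := DFunLike.congr_fun h (e b, i)
    rw [ex_apply he, ex_apply he] at h2
    simpa using h2
  have h3 : σ⁻¹ = 1 := Equiv.ext h1
  rwa [inv_eq_one] at h3

end IDet

theorem pr_Det : S_Det := by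
  intro K _ n L A _ _ _ _ e f he hf h
  have h1 := congrArg (MvPolynomial.coeff (IDet.ex e f 1)) h
  rw [Matrix.det_apply', MvPolynomial.coeff_sum, MvPolynomial.coeff_zero,
    Finset.sum_eq_single 1] at h1
  · simp only [Matrix.of_apply] at h1
    rw [IDet.term] at h1
    simp at h1
  · intro σ _ hσ
    simp only [Matrix.of_apply]
    rw [IDet.term]
    have h2 : ∀ z : ℤ, MvPolynomial.coeff (IDet.ex e f 1)
        ((z : MvPolynomial (L × Fin n) K) * MvPolynomial.monomial (IDet.ex e f σ) 1) = 0 := by
      intro z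
      have h3 : (z : MvPolynomial (L × Fin n) K) = MvPolynomial.C (z : K) := by simp
      rw [h3, MvPolynomial.coeff_C_mul, MvPolynomial.coeff_monomial, if_neg, mul_zero]
      intro h4
      exact hσ (IDet.ex_inj he hf h4)
    exact h2 _
  · intro h3
    exact absurd (mem_univ _) h3

end Pool.Agent.Work.MP_1233f5_ag.TL
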