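import Pool.Agent.Work.MP_1233f5_ag.TL.Stmts

/-! MP_1233f5_ag, block TL, item Ex: exactness for the labels with one letter. -/

set_option autoImplicit false

namespace Pool.Agent.Work.MP_1233f5_ag.TL

open Finset
open Pool.Agent.Work.MP_1233f5_ag.V (Alt dd wdg Pred rCh rcyc rVan Mo vw)

namespace IEx

variable {K : Type} [Field K] {k n d : ℕ}

/-- the label `({y}, v)` -/
def ev (y : Fin k) (v : Fin n → ℕ) : Lb k n := ({y}, v)

theorem ev_mem (hd : 1 ≤ d) (y : Fin k) {v : Fin n → ℕ} (hv : v ∈ Mo n (d - 1)) :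
    ev y v ∈ L1 k n d := by
  unfold L1
  rw [mem_filter, mem_La]
  unfold Mo at hv
  rw [mem_piAntidiag] at hv
  have h1 := hv.1
  refine ⟨?_, card_singleton y⟩
  show ({y} : Finset (Fin k)).card + ∑ a, v a = d
  rw [card_singleton, h1]
  omega

theorem mem_Mo_of_mem {e : Lb k n} (he : e ∈ L1 k n d) : e.2 ∈ Mo n (d - 1) := by
  unfold L1 at he
  rw [mem_filter, mem_La] at he
  unfold Mo
  rw [mem_piAntidiag]
  have h1 := he.1
  have h2 := he.2
  refine ⟨?_, fun i _ => mem_univ i⟩
  show ∑ a, e.2 a = d - 1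
  omega

theorem vZ_removeNth {M : Finset (Lb k n)} {Y : Finset (Fin k)} {w : Fin n → ℤ} {p : ℕ}
    (i : Fin (p + 1)) (t : Fin (p + 1) → Lb k n) :
    vZ M Y w ∅ (p + 1) t ↔ t i ∈ M ∧ (t i).1 ⊆ Y ∧
      vZ M (Y \ (t i).1) (sw w (t i).2) ∅ p (i.removeNth t) := by
  have hrem : ∀ a, rem (sw w (t i).2) (i.removeNth t) a = rem w t a := by
    intro a
    unfold rem sw Fin.removeNth
    rw [Fin.sum_univ_succAbove _ i]
    ring
  constructor
  · rintro ⟨h1, h2, -, h4⟩
    refine ⟨(h1 i).1, (h1 i).2, fun j => ⟨(h1 _).1, ?_⟩, fun j j' hj => ?_, fun a ha => ?_,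
      fun a ha => ?_⟩
    · refine subset_sdiff.2 ⟨(h1 _).2, h2 _ _ (Fin.succAbove_ne i j)⟩
    · exact h2 _ _ fun h => hj (Fin.succAbove_right_injective h)
    · exact absurd ha (notMem_empty a)
    · rw [hrem]
      exact h4 a ha
  · rintro ⟨h1, h2, h3, h4, -, h6⟩
    refine ⟨fun j => ?_, fun j j' hj => ?_, fun a ha => absurd ha (notMem_empty a),
      fun a ha => ?_⟩
    · rcases Fin.eq_self_or_eq_succAbove i j with rfl | ⟨j', rfl⟩
      · exact ⟨h1, h2⟩
      · exact ⟨(h3 j').1, (h3 j').2.trans sdiff_subset⟩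
    · rcases Fin.eq_self_or_eq_succAbove i j with rfl | ⟨l, rfl⟩
      · rcases Fin.eq_self_or_eq_succAbove j j' with rfl | ⟨l', rfl⟩
        · exact absurd rfl hj
        · exact (disjoint_of_subset_left (h3 l').2 sdiff_disjoint).symm
      · rcases Fin.eq_self_or_eq_succAbove i j' with rfl | ⟨l', rfl⟩
        · exact disjoint_of_subset_left (h3 l).2 sdiff_disjoint
        · exact h4 l l' fun h => hj (by rw [h])
    · rw [← hrem]
      exact h6 a ha

theorem vZ_cons {M : Finset (Lb k n)} {Y : Finset (Fin k)} {w : Fin n → ℤ} {p : ℕ}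
    (e : Lb k n) (t : Fin p → Lb k n) :
    vZ M Y w ∅ (p + 1) (Fin.cons e t : Fin (p + 1) → Lb k n) ↔ e ∈ M ∧ e.1 ⊆ Y ∧
      vZ M (Y \ e.1) (sw w e.2) ∅ p t := by
  rw [vZ_removeNth 0, V.cons_removeNth_zero]
  rfl

/-- monotonicity -/
theorem vZ_mono {M : Finset (Lb k n)} {Y Y' : Finset (Fin k)} {w w' : Fin n → ℤ} {p : ℕ}
    (hY : Y ⊆ Y') (hw : ∀ a, w a ≤ w' a) {t : Fin p → Lb k n} (h : vZ M Y w ∅ p t) :
    vZ M Y' w' ∅ p t := by
  refine ⟨fun i => ⟨(h.1 i).1, (h.1 i).2.trans hY⟩, h.2.1, fun a ha => absurd ha (notMem_empty a),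
    fun a ha => ?_⟩
  have h1 := h.2.2.2 a ha
  have h2 := hw a
  unfold rem at h1 ⊢
  linarith

theorem sw_le (w : Fin n → ℤ) (v : Fin n → ℕ) (a : Fin n) : sw w v a ≤ w a := by
  unfold sw
  have : (0 : ℤ) ≤ v a := Int.natCast_nonneg _
  linarith

/-- the differential of a chain is supported on the predicate -/
theorem dd_supp {M M' : Finset (Lb k n)} {Y : Finset (Fin k)} {w : Fin n → ℤ} {p : ℕ}
    {g : (Fin (p + 1) → Lb k n) → K} (hg : rCh (vZ M Y w ∅) (p + 1) g) {t : Fin p → Lb k n}
    (h : dd M' g t ≠ 0) : vZ M Y w ∅ p t := by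
  unfold dd at h
  obtain ⟨b, -, hb⟩ := exists_ne_zero_of_sum_ne_zero h
  have h1 := (vZ_cons b t).1 (hg.2 _ hb)
  exact vZ_mono sdiff_subset (sw_le w b.2) h1.2.2

/-- multiplication by `({y}, v)` -/
theorem wdg_chain (hd : 1 ≤ d) {Y : Finset (Fin k)} {w : Fin n → ℤ} {p : ℕ} {y : Fin k}
    (hy : y ∈ Y) {v : Fin n → ℕ} (hv : v ∈ Mo n (d - 1)) {g : (Fin p → Lb k n) → K}
    (hg : rCh (vZ (L1 k n d) (Y \ {y}) (sw w v) ∅) p g) :
    rCh (vZ (L1 k n d) Y w ∅) (p + 1) (wdg (ev y v) g) := by
  refine ⟨hg.1.wdg _, fun t ht => ?_⟩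
  unfold wdg at ht
  obtain ⟨i, -, hi⟩ := exists_ne_zero_of_sum_ne_zero ht
  by_cases hti : t i = ev y v
  · rw [if_pos hti] at hi
    have h1 := hg.2 _ (right_ne_zero_of_mul hi)
    rw [vZ_removeNth i, hti]
    exact ⟨ev_mem hd y hv, singleton_subset_iff.2 hy, h1⟩
  · rw [if_neg hti] at hi
    exact absurd rfl hi

theorem sum_chain {ι : Type} (G : Pred (Lb k n)) {p : ℕ} (s : Finset ι)
    (c : ι → (Fin p → Lb k n) → K) (h : ∀ i ∈ s, rCh G p (c i)) :
    rCh G p (fun t => ∑ i ∈ s, c i t) := by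
  refine ⟨Alt.sum s c fun i hi => (h i hi).1, fun t ht => ?_⟩
  obtain ⟨i, hi, hne⟩ := exists_ne_zero_of_sum_ne_zero ht
  exact (h i hi).2 t hne

/-- restriction of an alternating function -/
theorem alt_cons {p : ℕ} {c : (Fin (p + 1) → Lb k n) → K} (h : Alt (p + 1) c) (b : Lb k n) :
    Alt p (fun t => c (Fin.cons b t : Fin (p + 1) → Lb k n)) := by
  intro σ t
  have h1 := h (Equiv.Perm.decomposeFin.symm (0, σ)) (Fin.cons b t)
  have h2 : (Fin.cons b t : Fin (p + 1) → Lb k n) ∘ (Equiv.Perm.decomposeFin.symm (0, σ)) =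
      Fin.cons b (t ∘ σ) := by
    funext k
    refine Fin.cases ?_ (fun k => ?_) k
    · simp
    · simp
  rw [h2] at h1
  simp only
  rw [h1]
  simp

theorem cons_swap {p : ℕ} {c : (Fin (p + 2) → Lb k n) → K} (h : Alt (p + 2) c) (b e : Lb k n)
    (t : Fin p → Lb k n) :
    c (Fin.cons e (Fin.cons b t : Fin (p + 1) → Lb k n) : Fin (p + 2) → Lb k n) =
      - c (Fin.cons b (Fin.cons e t : Fin (p + 1) → Lb k n) : Fin (p + 2) → Lb k n) := by
  have h1 := h.cons_removeNth (Fin.cons b (Fin.cons e t : Fin (p + 1) → Lb k n)) (Fin.succ 0)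
  rw [Fin.cons_succ, Fin.cons_zero, V.cons_removeNth_succ, V.cons_removeNth_zero] at h1
  rw [h1]
  simp

theorem exists_le (w : Fin n → ℕ) : ∀ r : ℕ, r ≤ ∑ a, w a → ∃ v : Fin n → ℕ,
    (∀ a, v a ≤ w a) ∧ ∑ a, v a = r
  | 0, _ => ⟨fun _ => 0, fun _ => Nat.zero_le _, by simp⟩
  | r + 1, h => by
    obtain ⟨v, hv, hs⟩ := exists_le w r (by omega)
    obtain ⟨a, -, ha⟩ := exists_lt_of_sum_lt (s := univ) (f := v) (g := w) (by omega)
    refine ⟨fun b => v b + if b = a then 1 else 0, fun b => ?_, ?_⟩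
    · simp only
      split_ifs with hb
      · rw [hb]
        exact ha
      · have := hv b
        omega
    · rw [sum_add_distrib, hs, sum_ite_eq' univ a, if_pos (mem_univ a)]

/-- counting the label with the letter `y` -/
theorem sum_wdg {Y : Finset (Fin k)} {w : Fin n → ℤ} {m : ℕ} {y : Fin k}
    {c : (Fin (m + 1) → Lb k n) → K} (hc : Alt (m + 1) c)
    {g : (Fin n → ℕ) → ((Fin (m + 1) → Lb k n) → K)}
    (hg : ∀ v ∈ Mo n (d - 1), ∀ t, vZ (L1 k n d) (Y \ {y}) (sw w v) ∅ m t →
      dd (L1 k n d) (g v) t = c (Fin.cons (ev y v) t : Fin (m + 1) → Lb k n))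
    {t : Fin (m + 1) → Lb k n} (ht : vZ (L1 k n d) Y w ∅ (m + 1) t) :
    ∑ v ∈ Mo n (d - 1), wdg (ev y v) (dd (L1 k n d) (g v)) t =
      if ∃ i, y ∈ (t i).1 then c t else 0 := by
  have h1 : ∀ v ∈ Mo n (d - 1), wdg (ev y v) (dd (L1 k n d) (g v)) t =
      ∑ i : Fin (m + 1), if t i = ev y v then c t else 0 := by
    intro v hv
    unfold wdg
    refine sum_congr rfl fun i _ => ?_
    by_cases hti : t i = ev y v
    · rw [if_pos hti, if_pos hti]
      have h2 := (vZ_removeNth i t).1 ht
      rw [hti] at h2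
      rw [hg v hv _ h2.2.2, ← hti, hc.cons_removeNth t i, ← mul_assoc, ← pow_add, ← two_mul,
        pow_mul]
      norm_num
    · rw [if_neg hti, if_neg hti]
  rw [sum_congr rfl h1, sum_comm]
  have h2 : ∀ i : Fin (m + 1), (∑ v ∈ Mo n (d - 1), if t i = ev y v then c t else 0) =
      if y ∈ (t i).1 then c t else 0 := by
    intro i
    have hi := (ht.1 i).1
    have hcard : (t i).1.card = 1 := by
      unfold L1 at hi
      exact (mem_filter.1 hi).2
    by_cases hyi : y ∈ (t i).1
    · rw [if_pos hyi, sum_eq_single (t i).2]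
      · have h3 : (t i).1 = {y} := by
          obtain ⟨x, hx⟩ := card_eq_one.1 hcard
          rw [hx] at hyi ⊢
          rw [mem_singleton.1 hyi]
        have h4 : t i = ev y (t i).2 := Prod.ext h3 rfl
        rw [if_pos h4]
      · intro v _ hv
        refine if_neg fun h => hv ?_
        rw [h]
        rfl
      · intro h
        exact absurd (mem_Mo_of_mem hi) h
    · rw [if_neg hyi]
      refine sum_eq_zero fun v _ => if_neg fun h => hyi ?_
      rw [h]
      exact mem_singleton_self y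
  rw [sum_congr rfl fun i _ => h2 i]
  by_cases hex : ∃ i, y ∈ (t i).1
  · obtain ⟨i, hi⟩ := hex
    rw [if_pos ⟨i, hi⟩, sum_eq_single i]
    · rw [if_pos hi]
    · intro j _ hj
      refine if_neg fun h => ?_
      exact (disjoint_left.1 (ht.2.1 j i hj)) h hi
    · intro h
      exact absurd (mem_univ i) h
  · rw [if_neg hex]
    refine sum_eq_zero fun i _ => if_neg fun h => hex ⟨i, h⟩

theorem main (hG : S_GenU) (K : Type) [Field K] [CharZero K] (k n d : ℕ) (hd : 1 ≤ d) :
    ∀ (N m : ℕ) (Y : Finset (Fin k)) (w : Fin n → ℤ), Y.card = N → m < N →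
      ((m : ℤ) + 1) * d ≤ ∑ a, w a + 1 → rVan K (L1 k n d) (vZ (L1 k n d) Y w ∅) m := by
  intro N
  induction N with
  | zero =>
    intro m Y w _ hm
    exact absurd hm (Nat.not_lt_zero m)
  | succ N ih =>
    intro m Y w hY hm hw c hc hcyc
    obtain ⟨y, hy⟩ : Y.Nonempty := card_pos.1 (by omega)
    have hcard : (Y \ {y}).card = N := by
      rw [sdiff_singleton_eq_erase, card_erase_of_mem hy]
      omega
    have hsum : ∀ v ∈ Mo n (d - 1), ∑ a, sw w v a = ∑ a, w a - (d - 1) := by
      intro v hv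
      unfold Mo at hv
      rw [mem_piAntidiag] at hv
      have h1 : ∑ a, v a = d - 1 := hv.1
      unfold sw
      rw [sum_sub_distrib, ← Nat.cast_sum, h1]
      push_cast [Nat.cast_sub hd]
      ring
    cases m with
    | zero =>
      by_cases hpos : ∀ a, 0 ≤ w a
      · -- a monomial
        obtain ⟨v, hv, hvs⟩ := exists_le (fun a => (w a).toNat) (d - 1) (by
          have h1 : (((∑ a, (w a).toNat : ℕ)) : ℤ) = ∑ a, w a := by
            push_cast
            exact sum_congr rfl fun a _ => Int.toNat_of_nonneg (hpos a)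
          simp only [Nat.cast_zero, zero_add, one_mul] at hw
          omega)
        have hvM : v ∈ Mo n (d - 1) := by
          unfold Mo
          rw [mem_piAntidiag]
          exact ⟨hvs, fun i _ => mem_univ i⟩
        have hgc : rCh (vZ (L1 k n d) (Y \ {y}) (sw w v) ∅) 0 c := by
          refine ⟨hc.1, fun t _ => ⟨fun i => i.elim0, fun i => i.elim0,
            fun a ha => absurd ha (notMem_empty a), fun a _ => ?_⟩⟩
          unfold rem sw
          rw [Fin.sum_univ_zero]
          have h1 := hv a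
          have h2 := Int.toNat_of_nonneg (hpos a)
          omega
        exact ⟨wdg (ev y v) c, wdg_chain hd hy hvM hgc, fun t _ =>
          V.dd_wdg_zero _ (ev_mem hd y hvM) c t⟩
      · refine ⟨fun _ => 0, ⟨Alt.zero, fun t ht => absurd rfl ht⟩, fun t ht => ?_⟩
        exfalso
        apply hpos
        intro a
        have h1 := ht.2.2.2 a (notMem_empty a)
        unfold rem at h1
        rw [Fin.sum_univ_zero] at h1
        linarith
    | succ m =>
      -- the parts of `c` with the letter `y`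
      have hex : ∀ v ∈ Mo n (d - 1), ∃ g : (Fin (m + 1) → Lb k n) → K,
          rCh (vZ (L1 k n d) (Y \ {y}) (sw w v) ∅) (m + 1) g ∧
          ∀ t, vZ (L1 k n d) (Y \ {y}) (sw w v) ∅ m t →
            dd (L1 k n d) g t = c (Fin.cons (ev y v) t : Fin (m + 1) → Lb k n) := by
        intro v hv
        refine ih m (Y \ {y}) (sw w v) hcard (by omega) ?_
          (fun t => c (Fin.cons (ev y v) t : Fin (m + 1) → Lb k n)) ?_ ?_
        · rw [hsum v hv]
          push_cast at hw
          nlinarith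
        · refine ⟨alt_cons hc.1 _, fun t ht => ?_⟩
          exact ((vZ_cons (ev y v) t).1 (hc.2 _ ht)).2.2
        · cases m with
          | zero => exact trivial
          | succ m =>
            intro t ht
            have h1 : vZ (L1 k n d) Y w ∅ (m + 1) (Fin.cons (ev y v) t : Fin (m + 1) → Lb k n) :=
              (vZ_cons (ev y v) t).2 ⟨ev_mem hd y hv, singleton_subset_iff.2 hy, ht⟩
            have h2 := hcyc _ h1
            unfold dd at h2 ⊢
            rw [← neg_eq_zero, ← sum_neg_distrib]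
            rw [← h2]
            refine sum_congr rfl fun b _ => ?_
            rw [cons_swap hc.1]
      choose! g hg1 hg2 using hex
      set h : (Fin (m + 2) → Lb k n) → K := fun t =>
        ∑ v ∈ Mo n (d - 1), wdg (ev y v) (g v) t with hh
      have hhc : rCh (vZ (L1 k n d) Y w ∅) (m + 2) h :=
        sum_chain _ _ _ fun v hv => wdg_chain hd hy hv (hg1 v hv)
      set c2 : (Fin (m + 1) → Lb k n) → K := fun t => c t + dd (L1 k n d) h t with hc2
      have hdh : Alt (m + 1) (dd (L1 k n d) h) := hhc.1.dd _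
      have hsupp : ∀ t, c2 t ≠ 0 → vZ (L1 k n d) (Y \ {y}) w ∅ (m + 1) t := by
        intro t ht
        have hG1 : vZ (L1 k n d) Y w ∅ (m + 1) t := by
          by_contra hcon
          apply ht
          have a1 : c t = 0 := by
            by_contra hne
            exact hcon (hc.2 t hne)
          have a2 : dd (L1 k n d) h t = 0 := by
            by_contra hne
            exact hcon (dd_supp hhc hne)
          rw [hc2]
          simp only
          rw [a1, a2, add_zero]
        have e1 : dd (L1 k n d) h t = ∑ v ∈ Mo n (d - 1), g v t -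
            ∑ v ∈ Mo n (d - 1), wdg (ev y v) (dd (L1 k n d) (g v)) t := by
          rw [hh, V.dd_sum, ← sum_sub_distrib]
          refine sum_congr rfl fun v hv => ?_
          have := V.dd_wdg (L1 k n d) (ev_mem hd y hv) (g v) t
          rw [← this]
          ring
        rw [sum_wdg hc.1 hg2 hG1] at e1
        have ht' : c t + dd (L1 k n d) h t ≠ 0 := ht
        rw [e1] at ht'
        by_cases hex : ∃ i, y ∈ (t i).1
        · exfalso
          rw [if_pos hex] at ht'
          apply ht'
          have a1 : ∑ v ∈ Mo n (d - 1), g v t = 0 := by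
            refine sum_eq_zero fun v hv => ?_
            by_contra hne
            obtain ⟨i, hi⟩ := hex
            have a2 := (((hg1 v hv).2 t hne).1 i).2 hi
            exact (mem_sdiff.1 a2).2 (mem_singleton_self y)
          rw [a1]
          ring
        · refine ⟨fun i => ⟨(hG1.1 i).1, fun x hx => mem_sdiff.2 ⟨(hG1.1 i).2 hx, fun hxy => ?_⟩⟩,
            hG1.2⟩
          rw [mem_singleton] at hxy
          exact hex ⟨i, hxy ▸ hx⟩
      have hc2c : rCh (vZ (L1 k n d) (Y \ {y}) w ∅) (m + 1) c2 := ⟨hc.1.add hdh, hsupp⟩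
      have hsub : ∀ {p : ℕ} {t : Fin p → Lb k n}, vZ (L1 k n d) (Y \ {y}) w ∅ p t →
          vZ (L1 k n d) Y w ∅ p t := fun h' => vZ_mono sdiff_subset (fun _ => le_rfl) h'
      have hc2z : rcyc (L1 k n d) (vZ (L1 k n d) (Y \ {y}) w ∅) (m + 1) c2 := by
        intro t ht
        have a1 := hcyc t (hsub ht)
        have a2 := V.dd_dd (L1 k n d) hhc.1 t
        have a3 : dd (L1 k n d) c2 t = dd (L1 k n d) c t + dd (L1 k n d) (dd (L1 k n d) h) t := by
          rw [hc2]
          unfold dd
          rw [← sum_add_distrib]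
        rw [a3, a1, a2, add_zero]
      have hfin : ∃ g' : (Fin (m + 2) → Lb k n) → K, rCh (vZ (L1 k n d) Y w ∅) (m + 2) g' ∧
          ∀ t, dd (L1 k n d) g' t = c2 t := by
        by_cases hmN : m + 1 < N
        · obtain ⟨g', hg', hg''⟩ := ih (m + 1) (Y \ {y}) w hcard hmN hw c2 hc2c hc2z
          refine ⟨g', ⟨hg'.1, fun t ht => hsub (hg'.2 t ht)⟩, fun t => ?_⟩
          by_cases ht : vZ (L1 k n d) (Y \ {y}) w ∅ (m + 1) t
          · exact hg'' t ht
          · have a1 : c2 t = 0 := by
              by_contra hne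
              exact ht (hsupp t hne)
            have a2 : dd (L1 k n d) g' t = 0 := by
              by_contra hne
              exact ht (dd_supp hg' hne)
            rw [a1, a2]
        · have hmN' : N = m + 1 := by omega
          obtain ⟨z, hz1, hz2⟩ := hG K k n d (m + 1) (Y \ {y}) w c2 hd (by rw [hcard, hmN'])
            (by exact_mod_cast hw) hc2c hc2z
          refine ⟨fun t => ∑ v ∈ Mo n (d - 1), wdg (ev y v) (z v) t,
            sum_chain _ _ _ fun v hv => wdg_chain hd hy hv (hz1 v hv).1, fun t => ?_⟩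
          rw [V.dd_sum, hz2]
          refine sum_congr rfl fun v hv => ?_
          have a1 := V.dd_wdg (L1 k n d) (ev_mem hd y hv) (z v) t
          have a2 : dd (L1 k n d) (z v) = fun _ => 0 := by
            funext s
            by_cases hs : vZ (L1 k n d) (Y \ {y}) (sw w v) ∅ m s
            · exact (hz1 v hv).2 s hs
            · by_contra hne
              exact hs (dd_supp (hz1 v hv).1 hne)
          rw [a2, V.wdg_zero, add_zero] at a1
          exact a1
      obtain ⟨g', hg', hg''⟩ := hfin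
      refine ⟨fun t => g' t - h t, ⟨hg'.1.sub hhc.1, fun t ht => ?_⟩, fun t _ => ?_⟩
      · by_cases h1 : g' t = 0
        · refine hhc.2 t fun h2 => ht ?_
          simp only
          rw [h1, h2, sub_zero]
        · exact hg'.2 t h1
      · have a1 : dd (L1 k n d) (fun t => g' t - h t) t =
            dd (L1 k n d) g' t - dd (L1 k n d) h t := by
          unfold dd
          rw [← sum_sub_distrib]
        rw [a1, hg'', hc2]
        ring

end IEx

theorem pr_Ex (h1 : S_GenU) : S_Ex := by
  intro K _ _ k n d m Y w hd hm hw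
  exact IEx.main h1 K k n d hd Y.card m Y w rfl hm hw

end Pool.Agent.Work.MP_1233f5_ag.TL
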