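import Pool.Agent.Work.MP_1233f5_ag.TL.Stmts

/-! MP_1233f5_ag, block TL, item Fil. -/

set_option autoImplicit false

namespace Pool.Agent.Work.MP_1233f5_ag.TL

open Finset
open Pool.Agent.Work.MP_1233f5_ag.V (Alt dd wdg Pred rCh rcyc rVan Mo vw vm fib)

/-- adding all labels with at least two letters -/
theorem pr_Fil (h1 : S_AddL) : S_Fil := by
  intro K _ _ k n d P hstep hbase
  have key : ∀ A : Finset (Lb k n), A ⊆ (La k n d).filter (fun e => 2 ≤ e.1.card) →
      ∀ (p : ℕ) (Y : Finset (Fin k)) (w : Fin n → ℤ), P p Y w →
        rVan K (LL k n d ∪ A) (vZ (LL k n d ∪ A) Y w ∅) p := by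
    intro A
    induction A using Finset.induction_on with
    | empty =>
      intro _ p Y w hP
      rw [Finset.union_empty]
      exact hbase p Y w hP
    | insert e A heA ih =>
      intro hsub p Y w hP
      have he := Finset.mem_filter.1 (hsub (Finset.mem_insert_self e A))
      have hA : A ⊆ (La k n d).filter (fun e => 2 ≤ e.1.card) :=
        (Finset.subset_insert e A).trans hsub
      have hnot : e ∉ LL k n d ∪ A := by
        rw [Finset.mem_union]
        rintro (h | h)
        · have h2 := (Finset.mem_filter.1 h).2
          have h3 := he.2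
          omega
        · exact heA h
      rw [Finset.union_insert]
      refine h1 K k n p (LL k n d ∪ A) e Y w hnot (ih hA p Y w hP) fun hY p' hp' => ?_
      subst hp'
      exact ih hA p' (Y \ e.1) (sw w e.2) (hstep p' Y w e he.1 hP he.2 hY)
  intro p Y w hP
  have h2 : LL k n d ∪ (La k n d).filter (fun e => 2 ≤ e.1.card) = La k n d := by
    ext e
    rw [Finset.mem_union, LL, Finset.mem_filter, Finset.mem_filter]
    constructor
    · rintro (h | h)
      · exact h.1
      · exact h.1
    · intro h
      by_cases hc : e.1.card ≤ 1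
      · exact Or.inl ⟨h, hc⟩
      · exact Or.inr ⟨h, by omega⟩
  have h3 := key _ Finset.Subset.rfl p Y w hP
  rwa [h2] at h3

end Pool.Agent.Work.MP_1233f5_ag.TL
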