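import Pool.Agent.Work.MP_1233f5_ag.TL.Stmts

/-! MP_1233f5_ag, block TL, item Fun: linear duality. -/

set_option autoImplicit false

namespace Pool.Agent.Work.MP_1233f5_ag.TL

open Finset
open Pool.Agent.Work.MP_1233f5_ag.V (Alt dd wdg Pred rCh rcyc rVan Mo vw)

namespace IFun

variable {K : Type} [Field K] {B : Type} [DecidableEq B]

/-- the alternating function attached to a tuple. -/
def del (K : Type) [Field K] {p : ℕ} (t s : Fin p → B) : K :=
  Matrix.det (Matrix.of fun i j : Fin p => if s i = t j then (1 : K) else 0)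

lemma del_alt {p : ℕ} (t : Fin p → B) : Alt p (del K t) := by
  intro σ s
  have h := Matrix.det_permute σ (Matrix.of fun i j : Fin p => if s i = t j then (1 : K) else 0)
  unfold del
  rw [← h]
  rfl

lemma del_alt' {p : ℕ} (t s : Fin p → B) (σ : Equiv.Perm (Fin p)) :
    del K (t ∘ σ) s = ((Equiv.Perm.sign σ : ℤ) : K) * del K t s := by
  have h := Matrix.det_permute' σ (Matrix.of fun i j : Fin p => if s i = t j then (1 : K) else 0)
  unfold del
  rw [← h]
  rfl

lemma del_eq {p : ℕ} (t s : Fin p → B) :
    del K t s = ∑ σ : Equiv.Perm (Fin p), ((Equiv.Perm.sign σ : ℤ) : K) *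
      (if s ∘ σ = t then 1 else 0) := by
  unfold del
  rw [Matrix.det_apply']
  refine Finset.sum_congr rfl fun σ _ => ?_
  congr 1
  simp only [Matrix.of_apply]
  by_cases h : s ∘ σ = t
  · rw [if_pos h]
    refine Finset.prod_eq_one fun i _ => ?_
    rw [if_pos]
    exact congrFun h i
  · rw [if_neg h]
    have : ∃ i, ¬ s (σ i) = t i := by
      by_contra hc
      push Not at hc
      exact h (funext hc)
    obtain ⟨i, hi⟩ := this
    exact Finset.prod_eq_zero (Finset.mem_univ i) (if_neg hi)

lemma del_ne {p : ℕ} {t s : Fin p → B} (h : del K t s ≠ 0) :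
    ∃ σ : Equiv.Perm (Fin p), s ∘ σ = t := by
  by_contra hc
  push Not at hc
  apply h
  rw [del_eq]
  refine Finset.sum_eq_zero fun σ _ => ?_
  rw [if_neg (hc σ), mul_zero]

lemma dd_del {p : ℕ} (M : Finset B) (T : Fin (p + 1) → B) (hT : ∀ i, T i ∈ M) (s : Fin p → B) :
    dd M (del K T) s = ∑ i : Fin (p + 1), (-1 : K) ^ (i : ℕ) * del K (i.removeNth T) s := by
  unfold dd
  have h1 : ∀ b ∈ M, del K T (Fin.cons b s : Fin (p + 1) → B) =
      ∑ i : Fin (p + 1), (-1 : K) ^ (i : ℕ) * (if b = T i then 1 else 0) *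
        del K (i.removeNth T) s := by
    intro b _
    unfold del
    rw [Matrix.det_succ_row_zero]
    refine Finset.sum_congr rfl fun i _ => ?_
    congr 2
  rw [Finset.sum_congr rfl h1, Finset.sum_comm]
  refine Finset.sum_congr rfl fun i _ => ?_
  rw [← Finset.sum_mul, ← Finset.mul_sum, Finset.sum_ite_eq' M (T i) (fun _ => (1 : K)),
    if_pos (hT i), mul_one]

lemma sum_del {p : ℕ} (M : Finset B) (c : (Fin p → B) → K) (hc : Alt p c)
    (hM : ∀ t, c t ≠ 0 → ∀ i, t i ∈ M) (s : Fin p → B) :
    ∑ t ∈ Fintype.piFinset (fun _ : Fin p => M), c t * del K t s =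
      (Fintype.card (Equiv.Perm (Fin p)) : K) * c s := by
  have h1 : ∀ t ∈ Fintype.piFinset (fun _ : Fin p => M), c t * del K t s =
      ∑ σ : Equiv.Perm (Fin p), ((Equiv.Perm.sign σ : ℤ) : K) *
        (if s ∘ σ = t then c t else 0) := by
    intro t _
    rw [del_eq, Finset.mul_sum]
    refine Finset.sum_congr rfl fun σ _ => ?_
    by_cases h : s ∘ σ = t
    · rw [if_pos h, if_pos h]; ring
    · rw [if_neg h, if_neg h]; ring
  rw [Finset.sum_congr rfl h1, Finset.sum_comm]
  have h2 : ∀ σ : Equiv.Perm (Fin p), ∑ t ∈ Fintype.piFinset (fun _ : Fin p => M),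
      ((Equiv.Perm.sign σ : ℤ) : K) * (if s ∘ σ = t then c t else 0) = c s := by
    intro σ
    rw [← Finset.mul_sum, Finset.sum_ite_eq]
    have h3 : (if s ∘ σ ∈ Fintype.piFinset (fun _ : Fin p => M) then c (s ∘ σ) else 0) =
        c (s ∘ σ) := by
      by_cases h : s ∘ σ ∈ Fintype.piFinset (fun _ : Fin p => M)
      · rw [if_pos h]
      · rw [if_neg h]
        by_contra hne
        apply h
        rw [Fintype.mem_piFinset]
        exact hM _ (Ne.symm hne)
    rw [h3, hc σ s, ← mul_assoc]
    have h4 : ((Equiv.Perm.sign σ : ℤ) : K) * ((Equiv.Perm.sign σ : ℤ) : K) = 1 := by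
      rcases Int.units_eq_one_or (Equiv.Perm.sign σ) with h | h <;> simp [h]
    rw [h4, one_mul]
  rw [Finset.sum_congr rfl fun σ _ => h2 σ, Finset.sum_const, Finset.card_univ, nsmul_eq_mul]

end IFun

open IFun

theorem pr_Fun : S_Fun := by
  classical
  intro K _ _ B _ M G p c hGM hperm hc hnb
  have hiff : ∀ (q : ℕ) (σ : Equiv.Perm (Fin q)) (t : Fin q → B), G q (t ∘ σ) ↔ G q t := by
    intro q σ t
    refine ⟨fun h => ?_, hperm q σ t⟩
    have := hperm q σ⁻¹ _ h
    have e : (t ∘ σ) ∘ (σ⁻¹ : Equiv.Perm (Fin q)) = t := by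
      funext x; simp
    rwa [e] at this
  let S : Submodule K ((Fin p → B) → K) :=
    { carrier := {u | (∀ t, u t ≠ 0 → G p t) ∧ ∃ g : (Fin (p + 1) → B) → K,
        rCh G (p + 1) g ∧ ∀ t, G p t → dd M g t = u t}
      add_mem' := by
        rintro u u' ⟨a2, g, ⟨a3, a4⟩, a5⟩ ⟨b2, g', ⟨b3, b4⟩, b5⟩
        refine ⟨fun t ht => ?_, fun u => g u + g' u, ⟨a3.add b3, fun t ht => ?_⟩,
          fun t ht => ?_⟩
        · by_contra hc
          apply ht
          have e1 : u t = 0 := by by_contra h; exact hc (a2 t h)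
          have e2 : u' t = 0 := by by_contra h; exact hc (b2 t h)
          simp [e1, e2]
        · by_contra hc
          apply ht
          have e1 : g t = 0 := by by_contra h; exact hc (a4 t h)
          have e2 : g' t = 0 := by by_contra h; exact hc (b4 t h)
          simp [e1, e2]
        · have := a5 t ht
          have := b5 t ht
          simp only [dd, Finset.sum_add_distrib, Pi.add_apply] at *
          rw [a5 t ht, b5 t ht]
      zero_mem' := by
        refine ⟨fun t ht => absurd rfl ht, fun _ => 0,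
          ⟨V.Alt.zero, fun t ht => absurd rfl ht⟩, fun t _ => by simp [dd]⟩
      smul_mem' := by
        rintro a u ⟨a2, g, ⟨a3, a4⟩, a5⟩
        refine ⟨fun t ht => ?_, fun u => a * g u, ⟨a3.smul a, fun t ht => ?_⟩,
          fun t ht => ?_⟩
        · exact a2 t (right_ne_zero_of_mul ht)
        · exact a4 t (right_ne_zero_of_mul ht)
        · have := a5 t ht
          simp only [dd, ← Finset.mul_sum, Pi.smul_apply, smul_eq_mul] at *
          rw [this] }
  have hnot : c ∉ S := by
    rintro ⟨_, g, hg, hg2⟩
    exact hnb ⟨g, hg, hg2⟩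
  obtain ⟨f, hf0, hfS⟩ := Submodule.exists_le_ker_of_notMem hnot
  let φ : (Fin p → B) → K := fun t => if G p t then f (del K t) else 0
  refine ⟨φ, ⟨?_, ?_⟩, ?_, ?_⟩
  · intro σ t
    simp only [φ, hiff]
    split_ifs with h
    · have : del K (t ∘ σ) = ((Equiv.Perm.sign σ : ℤ) : K) • del K t := by
        funext s
        rw [Pi.smul_apply, smul_eq_mul]
        exact del_alt' t s σ
      rw [this, map_smul, smul_eq_mul]
    · rw [mul_zero]
  · intro t ht
    by_contra hcn
    exact ht (by simp [φ, hcn])
  · intro T hT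
    have hTM := hGM _ T hT
    have hmem : (fun s => if G p s then dd M (del K T) s else 0) ∈ S := by
      refine ⟨fun t ht => ?_, del K T, ⟨del_alt T, fun t ht => ?_⟩, fun t ht => ?_⟩
      · by_contra hcn
        exact ht (by simp [hcn])
      · obtain ⟨σ, hσ⟩ := del_ne ht
        rw [← hiff _ σ, hσ]
        exact hT
      · simp [ht]
    have h0 : f (fun s => if G p s then dd M (del K T) s else 0) = 0 := hfS hmem
    have h1 : (fun s => if G p s then dd M (del K T) s else 0) =
        ∑ i : Fin (p + 1), ((-1 : K) ^ (i : ℕ)) •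
          (if G p (i.removeNth T) then del K (i.removeNth T) else 0) := by
      funext s
      rw [Finset.sum_apply]
      by_cases hs : G p s
      · rw [if_pos hs, dd_del M T hTM]
        refine Finset.sum_congr rfl fun i _ => ?_
        rw [Pi.smul_apply, smul_eq_mul]
        congr 1
        by_cases hi : G p (i.removeNth T)
        · rw [if_pos hi]
        · rw [if_neg hi]
          by_contra hne
          obtain ⟨σ, hσ⟩ := del_ne hne
          apply hi
          rw [← hσ, hiff]
          exact hs
      · rw [if_neg hs]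
        symm
        refine Finset.sum_eq_zero fun i _ => ?_
        rw [Pi.smul_apply, smul_eq_mul]
        by_cases hi : G p (i.removeNth T)
        · rw [if_pos hi]
          have : del K (i.removeNth T) s = 0 := by
            by_contra hne
            obtain ⟨σ, hσ⟩ := del_ne hne
            apply hs
            rw [← hiff _ σ, hσ]
            exact hi
          rw [this, mul_zero]
        · rw [if_neg hi]
          simp
    rw [h1, map_sum] at h0
    rw [← h0]
    refine Finset.sum_congr rfl fun i _ => ?_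
    rw [map_smul, smul_eq_mul]
    congr 1
    simp only [φ]
    split_ifs with hi
    · rfl
    · rw [map_zero]
  · by_contra hcn
    push Not at hcn
    have hcM : ∀ t, c t ≠ 0 → ∀ i, t i ∈ M := fun t ht => hGM _ t (hc.2 t ht)
    have h1 : (Fintype.card (Equiv.Perm (Fin p)) : K) • c =
        ∑ t ∈ Fintype.piFinset (fun _ : Fin p => M), c t • del K t := by
      funext s
      rw [Finset.sum_apply, Pi.smul_apply, smul_eq_mul, ← sum_del M c hc.1 hcM s]
      rfl
    have h2 : f ((Fintype.card (Equiv.Perm (Fin p)) : K) • c) = 0 := by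
      rw [h1, map_sum]
      refine Finset.sum_eq_zero fun t _ => ?_
      rw [map_smul, smul_eq_mul]
      by_cases hct : c t = 0
      · rw [hct, zero_mul]
      · have h3 : φ t = 0 := by
          by_contra hne
          exact hct (hcn t hne)
        have h4 : φ t = f (del K t) := if_pos (hc.2 t hct)
        rw [← h4, h3, mul_zero]
    rw [map_smul, smul_eq_mul] at h2
    rcases mul_eq_zero.1 h2 with h | h
    · have : Fintype.card (Equiv.Perm (Fin p)) ≠ 0 := Fintype.card_ne_zero
      exact this (by exact_mod_cast h)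
    · exact hf0 h

end Pool.Agent.Work.MP_1233f5_ag.TL
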