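import Pool.Agent.Work.MP_1233f5_ag.TL.Stmts

/-! MP_1233f5_ag, block TL, item G1: vanishing for the labels with at most one letter. -/

set_option autoImplicit false

namespace Pool.Agent.Work.MP_1233f5_ag.TL

open Finset
open Pool.Agent.Work.MP_1233f5_ag.V (Alt dd wdg Pred rCh rcyc rVan Mo vw)

namespace IG1

/-- the condition with nonnegative exponents is inherited by subtuples. -/
theorem down {k n p : ℕ} {M : Finset (Lb k n)} {Y : Finset (Fin k)} {w : Fin n → ℤ}
    {b : Lb k n} {t : Fin p → Lb k n}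
    (h : vZ M Y w ∅ (p + 1) (Fin.cons b t : Fin (p + 1) → Lb k n)) : vZ M Y w ∅ p t := by
  obtain ⟨h1, h2, -, h4⟩ := h
  refine ⟨fun i => ?_, fun i j hij => ?_, fun a ha => absurd ha (Finset.notMem_empty a),
    fun a ha => ?_⟩
  · have := h1 i.succ
    rwa [Fin.cons_succ] at this
  · have := h2 i.succ j.succ (fun e => hij (Fin.succ_injective _ e))
    rwa [Fin.cons_succ, Fin.cons_succ] at this
  · have h5 := h4 a ha
    unfold rem at h5 ⊢
    rw [Fin.sum_univ_succ] at h5
    simp only [Fin.cons_zero, Fin.cons_succ] at h5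
    have h6 : (0 : ℤ) ≤ (b.2 a : ℤ) := Int.natCast_nonneg _
    linarith

/-- the differential of a chain is supported on the same tuples. -/
theorem dd_supp {K : Type} [Field K] {k n p : ℕ} {M : Finset (Lb k n)} {Y : Finset (Fin k)}
    {w : Fin n → ℤ} {g : (Fin (p + 1) → Lb k n) → K} (hg : rCh (vZ M Y w ∅) (p + 1) g)
    (t : Fin p → Lb k n) (ht : dd M g t ≠ 0) : vZ M Y w ∅ p t := by
  obtain ⟨b, _, hb⟩ := Finset.exists_ne_zero_of_sum_ne_zero ht
  exact down (hg.2 _ hb)

theorem dd_add {K : Type} [Field K] {B : Type} (M : Finset B) {p : ℕ}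
    (g h : (Fin (p + 1) → B) → K) (t : Fin p → B) :
    dd M (fun s => g s + h s) t = dd M g t + dd M h t := by
  simp only [dd, Finset.sum_add_distrib]

theorem dd_sub {K : Type} [Field K] {B : Type} (M : Finset B) {p : ℕ}
    (g h : (Fin (p + 1) → B) → K) (t : Fin p → B) :
    dd M (fun s => g s - h s) t = dd M g t - dd M h t := by
  simp only [dd, Finset.sum_sub_distrib]

theorem xi_mem {k n d : ℕ} (i : Fin n) : xi k d i ∈ LL k n d := by
  unfold LL xi
  rw [Finset.mem_filter, mem_La]
  refine ⟨?_, by simp⟩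
  simp [Finset.sum_pi_single']

end IG1

open IG1 in
/-- Item G1. -/
theorem pr_G1 (h1 : S_TopR) (h2 : S_ShI) (h3 : S_TopZ) : S_G1 := by
  intro K _ _ k n d T T' p Y w hn hd hTT hsum hY hp1 hp2 c hc hcyc
  have hTR : TR K (LL k n d) Y w p := by
    apply h1 K k n d p Y w hd
    have e1 : ((Y.card : ℤ) + d) ≤ T + 1 := by exact_mod_cast hY
    linarith
  have hT : cycT (LL k n d) Y w p c := by
    cases p with
    | zero => trivial
    | succ p => exact fun t ht _ => hcyc t ht
  obtain ⟨g, hg, hge⟩ := hTR c hc hT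
  set c1 : (Fin p → Lb k n) → K := fun t => c t - dd (LL k n d) g t with hc1
  have hc1r : rCh (vZ (LL k n d) Y w ∅) p c1 := by
    refine ⟨hc.1.sub (hg.1.dd _), fun t ht => ?_⟩
    by_contra hne
    apply ht
    have e1 : c t = 0 := by
      by_contra h
      exact hne (hc.2 t h)
    have e2 : dd (LL k n d) g t = 0 := by
      by_contra h
      exact hne (dd_supp hg t h)
    simp only [hc1]
    rw [e1, e2, sub_zero]
  have hc1c : rcyc (LL k n d) (vZ (LL k n d) Y w ∅) p c1 := by
    cases p with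
    | zero => trivial
    | succ p =>
      intro t ht
      have e1 : dd (LL k n d) c t = 0 := hcyc t ht
      have e2 : dd (LL k n d) (dd (LL k n d) g) t = 0 := V.dd_dd _ hg.1 t
      rw [hc1, dd_sub, e1, e2, sub_zero]
  have hc1t : ∀ t, c1 t ≠ 0 → Tp Y t := by
    intro t ht
    by_contra hne
    apply ht
    simp only [hc1]
    rw [hge t (hc1r.2 t ht) hne, sub_self]
  have hB : Bdy (LL k n d) (vZ (LL k n d) Y w ∅) p c1 := by
    refine h2 K k n d p (LL k n d) Y w c1 xi_mem hc1r hc1c hc1t fun c' g1 g2 => ?_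
    refine h3 K k n d T' (p + n) Y w c' hn hd ?_ hp1 hp2 g1 g2
    have e1 : (T : ℤ) + T' = n * ((d : ℤ) - 1) := by
      have := congrArg (fun x : ℕ => (x : ℤ)) hTT
      push_cast [Nat.cast_sub hd] at this
      exact this
    push_cast
    linarith
  obtain ⟨h, hh, hhe⟩ := hB
  refine ⟨fun t => g t + h t, ⟨hg.1.add hh.1, fun t ht => ?_⟩, fun t ht => ?_⟩
  · by_cases e : g t = 0
    · change g t + h t ≠ 0 at ht
      rw [e, zero_add] at ht
      exact hh.2 t ht
    · exact hg.2 t e
  · rw [dd_add, hhe t ht]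
    simp only [hc1]
    ring

end Pool.Agent.Work.MP_1233f5_ag.TL
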