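import Pool.Agent.Work.MP_1233f5_ag.TL.Stmts

/-! MP_1233f5_ag, block TL, item Gen: top cycles are generated (multigraded case). -/

set_option autoImplicit false

namespace Pool.Agent.Work.MP_1233f5_ag.TL

open Finset
open Pool.Agent.Work.MP_1233f5_ag.V (Alt dd wdg Pred rCh rcyc rVan Mo vw vm fib tyv mu pb S_Cnt
  S_TyW)

namespace IGen

/-! ### the space `ZC` -/

section zc
variable {K : Type} [Field K] {n r j : ℕ}

theorem zc_zero (w : Fin n → ℤ) : ZC r j w (0 : (Fin j → (Fin n → ℕ)) → K) :=
  ⟨fun _ hb => absurd rfl hb, fun _ _ => Finset.sum_eq_zero fun _ _ => rfl⟩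

theorem zc_smul (w : Fin n → ℤ) (a : K) {u : (Fin j → (Fin n → ℕ)) → K} (h : ZC r j w u) :
    ZC r j w (fun b => a * u b) := by
  refine ⟨fun b hb => h.1 b (right_ne_zero_of_mul hb), fun b s => ?_⟩
  rw [← Finset.mul_sum, h.2 b s, mul_zero]

theorem zc_sum (w : Fin n → ℤ) {ι : Type} (A : Finset ι) (u : ι → (Fin j → (Fin n → ℕ)) → K)
    (h : ∀ i ∈ A, ZC r j w (u i)) : ZC r j w (fun b => ∑ i ∈ A, u i b) := by
  refine ⟨fun b hb => ?_, fun b s => ?_⟩
  · obtain ⟨i, hi, hib⟩ := Finset.exists_ne_zero_of_sum_ne_zero hb
    exact (h i hi).1 b hib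
  · rw [Finset.sum_comm]
    exact Finset.sum_eq_zero fun i hi => (h i hi).2 b s

end zc

/-! ### matchings and permutations -/

section vmp
variable {α : Type} [DecidableEq α]

theorem vm_comp {r p : ℕ} {P : Finset α} (σ : Equiv.Perm (Fin p)) {t : Fin p → Finset α} :
    vm r P p (t ∘ σ) ↔ vm r P p t := by
  constructor
  · intro h
    have h2 := V.PbSurj.vm_perm σ⁻¹ h
    have h3 : (t ∘ σ) ∘ (σ⁻¹ : Equiv.Perm (Fin p)) = t := by
      funext i
      simp
    rwa [h3] at h2
  · exact V.PbSurj.vm_perm σ

omit [DecidableEq α] in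
theorem vm_tail {r p : ℕ} {P : Finset α} {e : Finset α} {t : Fin p → Finset α}
    (h : vm r P (p + 1) (Fin.cons e t : Fin (p + 1) → Finset α)) : vm r P p t := by
  refine ⟨fun i => ?_, fun i i' hii => ?_⟩
  · have := h.1 i.succ
    rwa [Fin.cons_succ] at this
  · have := h.2 i.succ i'.succ (fun h' => hii (Fin.succ_injective _ h'))
    rwa [Fin.cons_succ, Fin.cons_succ] at this

end vmp

section pbs
variable {K : Type} [Field K] {α : Type} [Fintype α] [DecidableEq α] {n : ℕ}

theorem pb_comp (r : ℕ) (π : α → Fin n) {p : ℕ} (u : (Fin p → (Fin n → ℕ)) → K)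
    (σ : Equiv.Perm (Fin p)) (t : Fin p → Finset α) :
    pb r π u (t ∘ σ) = pb r π (fun s => u (s ∘ σ)) t := by
  unfold pb
  have h1 : mu (fib π) (fun i => tyv π ((t ∘ σ) i)) = mu (fib π) (fun i => tyv π (t i)) :=
    V.PbSurj.mu_perm (fib π) (fun i => tyv π (t i)) σ
  by_cases h : vm r univ p t
  · rw [if_pos (vm_comp σ |>.2 h), if_pos h, h1]
    rfl
  · rw [if_neg (fun h' => h (vm_comp σ |>.1 h')), if_neg h]

open Classical in
/-- as `V.pr_PbD`, without alternation -/
theorem pb_dd [CharZero K] (d p : ℕ) (π : α → Fin n) (c : (Fin (p + 1) → (Fin n → ℕ)) → K)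
    (hc : ∀ s, c s ≠ 0 → ∀ a, ∑ i, s i a ≤ fib π a) (t : Fin p → Finset α)
    (ht : vm d univ p t) : dd univ (pb d π c) t =
      (mu (fib π) (fun i => tyv π (t i)) : K) * dd (Mo n d) c (fun i => tyv π (t i)) := by
  unfold dd
  have h1 : ∀ e : Finset α, pb d π c (Fin.cons e t : Fin (p + 1) → Finset α) =
      if vm d univ (p + 1) (Fin.cons e t : Fin (p + 1) → Finset α) then
        (mu (fib π) (Fin.cons (tyv π e) (fun i => tyv π (t i)) : Fin (p + 1) → (Fin n → ℕ)) : K) *
          c (Fin.cons (tyv π e) (fun i => tyv π (t i)) : Fin (p + 1) → (Fin n → ℕ)) else 0 := by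
    intro e
    unfold pb
    rw [V.PbD.ty_cons]
  rw [Finset.sum_congr rfl fun e _ => h1 e, ← Finset.sum_filter]
  have hmaps : ∀ e ∈ (univ : Finset (Finset α)).filter
      (fun e => vm d univ (p + 1) (Fin.cons e t : Fin (p + 1) → Finset α)), tyv π e ∈ Mo n d := by
    intro e he
    have h2 := (V.pr_TyW α n d (p + 1) π _ (Finset.mem_filter.mp he).2).1 0
    simpa using h2
  rw [← Finset.sum_fiberwise_of_maps_to hmaps, Finset.mul_sum]
  refine Finset.sum_congr rfl fun v hv => ?_
  rw [Finset.sum_congr rfl (g := fun _ =>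
    (mu (fib π) (Fin.cons v (fun i => tyv π (t i)) : Fin (p + 1) → (Fin n → ℕ)) : K) *
      c (Fin.cons v (fun i => tyv π (t i)) : Fin (p + 1) → (Fin n → ℕ)))
    (fun e he => by rw [(Finset.mem_filter.mp he).2])]
  rw [Finset.sum_const, nsmul_eq_mul]
  by_cases hz : c (Fin.cons v (fun i => tyv π (t i)) : Fin (p + 1) → (Fin n → ℕ)) = 0
  · rw [hz]; ring
  · have hw := hc _ hz
    have hw' : ∀ j, v j + ∑ i, tyv π (t i) j ≤ fib π j := by
      intro j
      have h3 := hw j
      rw [Fin.sum_univ_succ] at h3
      simpa using h3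
    rw [V.pr_Cnt α n d p π t v ht hv _ (fun e => by
      simp only [Finset.mem_filter, Finset.mem_univ, true_and])]
    have h4 := V.PbD.mu_cons (fib π) v (fun i => tyv π (t i)) hw'
    rw [← h4]
    push_cast
    ring

/-- the pull back of a top cycle -/
theorem pb_zm [CharZero K] (r : ℕ) (π : α → Fin n) {j : ℕ} (w : Fin n → ℤ)
    (hw : ∀ a, w a = fib π a) (u : (Fin j → (Fin n → ℕ)) → K) (hu : ZC r j w u) :
    ZM r j univ (pb r π u) := by
  classical
  refine ⟨fun b hb => ?_, fun b s => ?_⟩
  · unfold pb at hb
    by_contra h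
    refine hb (if_neg fun h' => h ?_)
    exact h'
  · obtain ⟨p, rfl⟩ : ∃ p, j = p + 1 := ⟨j - 1, by have := s.2; omega⟩
    have e1 : ∀ v : Finset α, Function.update b s v =
        (Fin.cons v (s.removeNth b) : Fin (p + 1) → Finset α) ∘ s.cycleRange := by
      intro v
      rw [Fin.cons_comp_cycleRange]
      exact (Fin.insertNth_removeNth s v b).symm
    have e2 : ∀ v : Finset α, pb r π u (Function.update b s v) =
        pb r π (fun t => u (t ∘ s.cycleRange))
          (Fin.cons v (s.removeNth b) : Fin (p + 1) → Finset α) := by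
      intro v
      rw [e1, pb_comp]
    rw [Finset.sum_congr rfl fun v _ => e2 v]
    by_cases ht : vm r univ p (s.removeNth b)
    · have h3 : ∑ v ∈ univ.powersetCard r, pb r π (fun t => u (t ∘ s.cycleRange))
          (Fin.cons v (s.removeNth b) : Fin (p + 1) → Finset α) =
          dd univ (pb r π (fun t => u (t ∘ s.cycleRange))) (s.removeNth b) := by
        unfold dd
        refine Finset.sum_subset (Finset.subset_univ _) fun v _ hv => ?_
        unfold pb
        refine if_neg fun h => hv ?_
        have h4 := (h.1 0).1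
        rw [Fin.cons_zero] at h4
        rw [Finset.mem_powersetCard]
        exact ⟨Finset.subset_univ _, h4⟩
      rw [h3, pb_dd r p π _ ?_ _ ht]
      · have h5 : dd (Mo n r) (fun t : Fin (p + 1) → (Fin n → ℕ) => u (t ∘ s.cycleRange))
            (fun i => tyv π (s.removeNth b i)) = 0 := by
          unfold dd
          have h6 := hu.2 (s.insertNth (0 : Fin n → ℕ) (fun i => tyv π (s.removeNth b i))) s
          rw [← h6]
          refine Finset.sum_congr rfl fun v _ => ?_
          show u ((Fin.cons v (fun i => tyv π (s.removeNth b i)) : Fin (p + 1) → (Fin n → ℕ)) ∘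
            s.cycleRange) = _
          rw [Fin.cons_comp_cycleRange, Fin.update_insertNth]
        rw [h5, mul_zero]
      · intro t ht0 a
        have h7 := (hu.1 _ ht0).2 a
        rw [hw] at h7
        have h8 : ∑ i, ((t ∘ s.cycleRange) i a : ℤ) = ∑ i, (t i a : ℤ) :=
          Equiv.sum_comp s.cycleRange (fun i => (t i a : ℤ))
        rw [h8] at h7
        exact_mod_cast h7
    · refine Finset.sum_eq_zero fun v _ => ?_
      unfold pb
      exact if_neg fun h => ht (vm_tail h)

end pbs

/-! ### the push forward -/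

section push
variable {K : Type} [Field K] {α : Type} [Fintype α] [DecidableEq α] {n : ℕ}

open Classical in
/-- the sum over the tuples of given type -/
noncomputable def kap (π : α → Fin n) {j : ℕ} (z : (Fin j → Finset α) → K) :
    (Fin j → (Fin n → ℕ)) → K := fun β =>
  ∑ b : Fin j → Finset α, if (fun i => tyv π (b i)) = β then z b else 0

theorem tyv_erase (π : α → Fin n) (y : α) {e : Finset α} (h : e ⊆ univ.erase y) (a : Fin n) :
    (tyv π e a : ℤ) ≤ (fib π a : ℤ) - (Pi.single (π y) 1 : Fin n → ℕ) a := by
  unfold fib tyv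
  by_cases ha : π y = a
  · subst ha
    rw [Pi.single_eq_same]
    have h1 : (e.filter fun x => π x = π y) ⊆ (univ.filter fun x => π x = π y).erase y := by
      intro x hx
      rw [Finset.mem_filter] at hx
      rw [Finset.mem_erase, Finset.mem_filter]
      exact ⟨(Finset.mem_erase.1 (h hx.1)).1, Finset.mem_univ _, hx.2⟩
    have h2 := Finset.card_le_card h1
    have h3 : y ∈ univ.filter fun x => π x = π y := by
      rw [Finset.mem_filter]
      exact ⟨Finset.mem_univ _, rfl⟩
    have h4 := Finset.card_erase_of_mem h3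
    have h5 := Finset.card_pos.2 ⟨y, h3⟩
    omega
  · rw [Pi.single_eq_of_ne (fun h' => ha h'.symm)]
    have h1 := Finset.card_le_card (Finset.filter_subset_filter (fun x => π x = a)
      (Finset.subset_univ e))
    push_cast
    omega

theorem kap_zc (r : ℕ) (π : α → Fin n) {j : ℕ} (y : α) (w : Fin n → ℤ)
    (hw : ∀ a, w a = fib π a) (z : (Fin j → Finset α) → K) (hz : ZM r j (univ.erase y) z) :
    ZC r j (sw w (Pi.single (π y) 1)) (kap π z) := by
  classical
  refine ⟨fun β hβ => ?_, fun β s => ?_⟩
  · obtain ⟨b, -, hb⟩ := Finset.exists_ne_zero_of_sum_ne_zero hβ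
    have hb1 : (fun i => tyv π (b i)) = β := by
      by_contra h
      exact hb (if_neg h)
    rw [if_pos hb1] at hb
    obtain ⟨h1, h2⟩ := hz.1 b hb
    subst hb1
    refine ⟨fun s => V.TyW_mem π _ (h1 s).1, fun a => ?_⟩
    have h3 := V.TyW_sum_tyv π b h2 a
    have h4 : ∑ s, (tyv π (b s) a : ℤ) = (tyv π (univ.biUnion b) a : ℤ) := by
      rw [← h3]
      push_cast
      rfl
    rw [h4]
    unfold sw
    rw [hw]
    refine tyv_erase π y ?_ a
    intro x hx
    obtain ⟨i, -, hi⟩ := Finset.mem_biUnion.1 hx
    exact (h1 i).2 hi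
  · obtain ⟨p, rfl⟩ : ∃ p, j = p + 1 := ⟨j - 1, by have := s.2; omega⟩
    unfold kap
    rw [Finset.sum_comm]
    have e1 : ∀ b : Fin (p + 1) → Finset α, ∑ τ ∈ Mo n r,
        (if (fun i => tyv π (b i)) = Function.update β s τ then z b else 0) =
        if (fun i => tyv π (s.removeNth b i)) = s.removeNth β then z b else 0 := by
      intro b
      by_cases hzb : z b = 0
      · rw [hzb]
        simp
      have h1 : tyv π (b s) ∈ Mo n r := V.TyW_mem π _ ((hz.1 b hzb).1 s).1
      by_cases h : (fun i => tyv π (s.removeNth b i)) = s.removeNth β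
      · rw [if_pos h, Finset.sum_eq_single (tyv π (b s))]
        · refine if_pos ?_
          funext i
          by_cases hi : i = s
          · subst hi
            rw [Function.update_self]
          · rw [Function.update_of_ne hi]
            obtain ⟨i', rfl⟩ := Fin.exists_succAbove_eq hi
            exact congrFun h i'
        · intro τ _ hτ
          refine if_neg fun h' => hτ ?_
          have := congrFun h' s
          rw [Function.update_self] at this
          exact this.symm
        · intro h'
          exact absurd h1 h'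
      · rw [if_neg h]
        refine Finset.sum_eq_zero fun τ _ => if_neg fun h' => h ?_
        funext i
        have := congrFun h' (s.succAbove i)
        rw [Function.update_of_ne (Fin.succAbove_ne s i)] at this
        exact this
    rw [Finset.sum_congr rfl fun b _ => e1 b]
    rw [← Equiv.sum_comp (Fin.insertNthEquiv (fun _ => Finset α) s), Fintype.sum_prod_type,
      Finset.sum_comm]
    refine Finset.sum_eq_zero fun t _ => ?_
    have e2 : ∀ e : Finset α, s.removeNth ((Fin.insertNthEquiv (fun _ => Finset α) s) (e, t)) =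
        t := by
      intro e
      exact Fin.removeNth_insertNth (α := fun _ => Finset α) s e t
    have e3 : ∀ e : Finset α, (if (fun i => tyv π (s.removeNth
        ((Fin.insertNthEquiv (fun _ => Finset α) s) (e, t)) i)) = s.removeNth β then
        z ((Fin.insertNthEquiv (fun _ => Finset α) s) (e, t)) else 0) =
        if (fun i => tyv π (t i)) = s.removeNth β then z (s.insertNth e t) else 0 := by
      intro e
      rw [e2]
      rfl
    rw [Finset.sum_congr rfl fun e _ => e3 e]
    by_cases h : (fun i => tyv π (t i)) = s.removeNth β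
    · simp only [if_pos h]
      have h5 := hz.2 (s.insertNth (∅ : Finset α) t) s
      have h6 : ∑ v ∈ univ.powersetCard r, z (Function.update
          (s.insertNth (∅ : Finset α) t : Fin (p + 1) → Finset α) s v) =
          ∑ v, z (s.insertNth v t) := by
        have h7 : ∀ v : Finset α, z (Function.update
            (s.insertNth (∅ : Finset α) t : Fin (p + 1) → Finset α) s v) =
            z (s.insertNth v t) := fun v => by rw [Fin.update_insertNth]
        rw [Finset.sum_congr rfl fun v _ => h7 v]
        refine Finset.sum_subset (Finset.subset_univ _) fun v _ hv => ?_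
        by_contra hne
        refine hv ?_
        have h8 := ((hz.1 _ hne).1 s).1
        rw [Fin.insertNth_apply_same] at h8
        rw [Finset.mem_powersetCard]
        exact ⟨Finset.subset_univ _, h8⟩
      rw [← h6]
      exact h5
    · simp only [if_neg h, Finset.sum_const_zero]

open Classical in
/-- the number of matchings of given types -/
theorem count (r : ℕ) (π : α → Fin n) : ∀ (p : ℕ) (S : Fin p → (Fin n → ℕ)),
    (∀ i, S i ∈ Mo n r) → (∀ a, ∑ i, S i a ≤ fib π a) →
    ((univ : Finset (Fin p → Finset α)).filter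
      (fun b => vm r univ p b ∧ (fun i => tyv π (b i)) = S)).card * mu (fib π) S =
      ∏ a, (fib π a).factorial
  | 0, S, _, _ => by
    have h1 : ((univ : Finset (Fin 0 → Finset α)).filter
        (fun b => vm r univ 0 b ∧ (fun i => tyv π (b i)) = S)) = univ := by
      refine Finset.filter_true_of_mem fun b _ => ⟨⟨fun i => i.elim0, fun i => i.elim0⟩, ?_⟩
      funext i
      exact i.elim0
    rw [h1]
    unfold mu
    simp
  | p + 1, S, hS, hle => by
    set v := S 0 with hv
    set S' := Fin.tail S with hS'
    have hcons : S = (Fin.cons v S' : Fin (p + 1) → (Fin n → ℕ)) := (Fin.cons_self_tail S).symm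
    have hle' : ∀ a, v a + ∑ i, S' i a ≤ fib π a := by
      intro a
      have := hle a
      rw [Fin.sum_univ_succ] at this
      exact this
    have ih := count r π p S' (fun i => hS i.succ) (fun a => by have := hle' a; omega)
    have hmu := V.PbD.mu_cons (fib π) v S' hle'
    have hcard : ((univ : Finset (Fin (p + 1) → Finset α)).filter
        (fun b => vm r univ (p + 1) b ∧ (fun i => tyv π (b i)) = S)).card =
        ((univ : Finset (Fin p → Finset α)).filter
        (fun b => vm r univ p b ∧ (fun i => tyv π (b i)) = S')).card *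
          ∏ a, (fib π a - ∑ i, S' i a).choose (v a) := by
      rw [Finset.card_eq_sum_card_fiberwise (f := Fin.tail)
        (t := (univ : Finset (Fin p → Finset α)).filter
        (fun b => vm r univ p b ∧ (fun i => tyv π (b i)) = S'))]
      · rw [Finset.sum_congr rfl (g := fun _ => ∏ a, (fib π a - ∑ i, S' i a).choose (v a)),
          Finset.sum_const, smul_eq_mul]
        intro t ht
        obtain ⟨-, ht1, ht2⟩ := Finset.mem_filter.1 ht
        have h5 := V.pr_Cnt α n r p π t v ht1 (hS 0)
          ((univ : Finset (Finset α)).filter fun e =>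
            vm r univ (p + 1) (Fin.cons e t : Fin (p + 1) → Finset α) ∧ tyv π e = v)
          (fun e => by simp only [Finset.mem_filter, Finset.mem_univ, true_and])
        have h6 : ∀ a, ∑ i, S' i a = ∑ i, tyv π (t i) a := fun a => by rw [← ht2]
        simp only [h6]
        rw [← h5]
        symm
        refine Finset.card_bij (fun e _ => (Fin.cons e t : Fin (p + 1) → Finset α)) ?_ ?_ ?_
        · intro e he
          obtain ⟨-, he1, he2⟩ := Finset.mem_filter.1 he
          rw [Finset.mem_filter, Finset.mem_filter]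
          refine ⟨⟨Finset.mem_univ _, he1, ?_⟩, Fin.tail_cons _ _⟩
          rw [V.PbD.ty_cons, he2, ht2, hcons]
        · intro e _ e' _ h
          have := congrFun h 0
          simpa using this
        · intro b hb
          rw [Finset.mem_filter, Finset.mem_filter] at hb
          obtain ⟨⟨-, hb1, hb2⟩, hb3⟩ := hb
          have hb4 : b = (Fin.cons (b 0) t : Fin (p + 1) → Finset α) := by
            rw [← hb3]
            exact (Fin.cons_self_tail b).symm
          refine ⟨b 0, ?_, hb4.symm⟩
          rw [Finset.mem_filter]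
          refine ⟨Finset.mem_univ _, by rw [← hb4]; exact hb1, ?_⟩
          exact congrFun hb2 0
      · intro b hb
        obtain ⟨-, hb1, hb2⟩ := Finset.mem_filter.1 hb
        have hb4 : b = (Fin.cons (b 0) (Fin.tail b) : Fin (p + 1) → Finset α) :=
          (Fin.cons_self_tail b).symm
        refine Finset.mem_coe.2 (Finset.mem_filter.2 ⟨Finset.mem_univ _, ?_, ?_⟩)
        · rw [hb4] at hb1
          exact vm_tail hb1
        · funext i
          exact congrFun hb2 i.succ
    rw [hcard, mul_assoc, hcons, hmu]
    exact ih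

theorem kap_pb (r : ℕ) (π : α → Fin n) {j : ℕ} (u : (Fin j → (Fin n → ℕ)) → K)
    (hu : ∀ β, u β ≠ 0 → (∀ i, β i ∈ Mo n r) ∧ ∀ a, ∑ i, β i a ≤ fib π a)
    (β : Fin j → (Fin n → ℕ)) :
    kap π (pb r π u) β = ((∏ a, (fib π a).factorial : ℕ) : K) * u β := by
  classical
  unfold kap
  have e1 : ∀ b : Fin j → Finset α, (if (fun i => tyv π (b i)) = β then pb r π u b else 0) =
      if vm r univ j b ∧ (fun i => tyv π (b i)) = β then (mu (fib π) β : K) * u β else 0 := by
    intro b
    by_cases h1 : (fun i => tyv π (b i)) = β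
    · rw [if_pos h1]
      unfold pb
      rw [h1]
      by_cases h2 : vm r univ j b
      · rw [if_pos h2, if_pos ⟨h2, rfl⟩]
      · rw [if_neg h2, if_neg (fun h => h2 h.1)]
    · rw [if_neg h1, if_neg (fun h => h1 h.2)]
  rw [Finset.sum_congr rfl fun b _ => e1 b, ← Finset.sum_filter, Finset.sum_const,
    nsmul_eq_mul]
  by_cases h0 : u β = 0
  · rw [h0]
    ring
  · obtain ⟨h1, h2⟩ := hu β h0
    have h3 := count r π j β h1 h2
    rw [← h3]
    push_cast
    rw [mul_assoc]

end push

end IGen

theorem pr_Gen (hM : S_GenM) : S_Gen := by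
  classical
  intro K _ _ n r j w u hu hsum
  -- some weight is negative
  by_cases hneg : ∃ a, w a < 0
  · obtain ⟨a, ha⟩ := hneg
    refine ⟨fun _ => 0, fun l => IGen.zc_zero _, fun b => ?_⟩
    show u b = ∑ _l : Fin n, (0 : K)
    rw [Finset.sum_const_zero]
    by_contra h
    have h1 := (hu.1 b h).2 a
    have h2 : (0 : ℤ) ≤ ∑ s, (b s a : ℤ) := Finset.sum_nonneg fun _ _ => by positivity
    omega
  push Not at hneg
  -- the case `r = 0`
  rcases Nat.eq_zero_or_pos r with hr | hr
  · subst hr
    rcases Nat.eq_zero_or_pos j with hj | hj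
    · subst hj
      obtain ⟨l, hl⟩ : ∃ l, 1 ≤ w l := by
        by_contra h
        push Not at h
        have h2 : ∑ a, w a ≤ 0 := Finset.sum_nonpos fun a _ => by have := h a; omega
        push_cast at hsum
        omega
      refine ⟨fun l' => if l' = l then u else 0, fun l' => ?_, fun b => ?_⟩
      · by_cases h : l' = l
        · subst h
          beta_reduce
          rw [if_pos rfl]
          refine ⟨fun b hb => ⟨fun s => s.elim0, fun a => ?_⟩, fun b s => s.elim0⟩
          rw [Finset.univ_eq_empty, Finset.sum_empty]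
          unfold sw
          by_cases ha : a = l'
          · subst ha
            rw [Pi.single_eq_same]
            push_cast
            omega
          · rw [Pi.single_eq_of_ne ha]
            have := hneg a
            push_cast
            omega
        · beta_reduce
          rw [if_neg h]
          exact IGen.zc_zero _
      · rw [Finset.sum_eq_single l]
        · beta_reduce
          rw [if_pos rfl]
        · intro l' _ h
          beta_reduce
          rw [if_neg h]
          rfl
        · intro h
          exact absurd (Finset.mem_univ l) h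
    · refine ⟨fun _ => 0, fun l => IGen.zc_zero _, fun b => ?_⟩
      show u b = ∑ _l : Fin n, (0 : K)
      rw [Finset.sum_const_zero]
      by_contra h
      have h1 := (hu.1 b h).1 ⟨0, hj⟩
      have h2 := hu.2 b ⟨0, hj⟩
      have h3 : ∀ v ∈ Mo n 0, v = 0 := by
        intro v hv
        have h4 : ∑ a, v a = 0 := (Finset.mem_piAntidiag.1 hv).1
        funext a
        exact (Finset.sum_eq_zero_iff.1 h4) a (Finset.mem_univ a)
      have h5 : Mo n 0 = {0} := by
        ext v
        rw [Finset.mem_singleton]
        constructor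
        · exact h3 v
        · rintro rfl
          rw [← h3 _ h1]
          exact h1
      rw [h5, Finset.sum_singleton] at h2
      have h6 : Function.update b ⟨0, hj⟩ 0 = b := by
        rw [← h3 _ h1, Function.update_eq_self]
      rw [h6] at h2
      exact h h2
  -- the main case
  obtain ⟨W, hW⟩ : ∃ W : Fin n → ℕ, ∀ a, w a = W a :=
    ⟨fun a => (w a).toNat, fun a => by rw [Int.toNat_of_nonneg (hneg a)]⟩
  obtain ⟨π, hπ⟩ := V.exists_fib W (∑ a, W a) rfl
  have hw : ∀ a, w a = fib π a := fun a => by rw [hπ, hW]
  have hcard : j * r + j + 1 ≤ (univ : Finset (Fin (∑ a, W a))).card := by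
    rw [Finset.card_univ, Fintype.card_fin]
    have h1 : ∑ a, w a = ((∑ a, W a : ℕ) : ℤ) := by
      push_cast
      exact Finset.sum_congr rfl fun a _ => hW a
    rw [h1] at hsum
    exact_mod_cast hsum
  obtain ⟨U, hU1, hU2⟩ := hM K (Fin (∑ a, W a)) r j univ (pb r π u) hr
    (IGen.pb_zm r π w hw u hu) hcard
  have hF : ((∏ a, (fib π a).factorial : ℕ) : K) ≠ 0 := by
    rw [Nat.cast_ne_zero]
    exact Finset.prod_ne_zero_iff.2 fun a _ => Nat.factorial_ne_zero _
  refine ⟨fun l β => (((∏ a, (fib π a).factorial : ℕ) : K))⁻¹ *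
    ∑ y ∈ univ.filter (fun y => π y = l), IGen.kap π (U y) β, fun l => ?_, fun β => ?_⟩
  · refine IGen.zc_smul _ _ (IGen.zc_sum _ _ _ fun y hy => ?_)
    have hy' : π y = l := (Finset.mem_filter.1 hy).2
    rw [← hy']
    exact IGen.kap_zc r π y w hw (U y) (hU1 y (Finset.mem_univ y))
  · rw [← Finset.mul_sum]
    have h1 : ∑ l, ∑ y ∈ univ.filter (fun y => π y = l), IGen.kap π (U y) β =
        ∑ y, IGen.kap π (U y) β :=
      Finset.sum_fiberwise_of_maps_to (fun y _ => Finset.mem_univ (π y)) _
    have h2 : ∑ y, IGen.kap π (U y) β = IGen.kap π (pb r π u) β := by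
      unfold IGen.kap
      rw [Finset.sum_comm]
      refine Finset.sum_congr rfl fun b _ => ?_
      by_cases h : (fun i => tyv π (b i)) = β
      · simp only [if_pos h]
        exact (hU2 b).symm
      · simp only [if_neg h, Finset.sum_const_zero]
    rw [h1, h2, IGen.kap_pb r π u ?_ β, ← mul_assoc, inv_mul_cancel₀ hF, one_mul]
    intro β' hβ'
    refine ⟨(hu.1 β' hβ').1, fun a => ?_⟩
    have h3 := (hu.1 β' hβ').2 a
    rw [hw] at h3
    exact_mod_cast h3

end Pool.Agent.Work.MP_1233f5_ag.TL
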