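import Pool.Agent.Work.MP_1233f5_ag.TL.Stmts

/-! MP_1233f5_ag, block TL, item GenM (helper79): top cycles are generated, multilinear case. -/

set_option autoImplicit false

namespace Pool.Agent.Work.MP_1233f5_ag.TL

open Finset

namespace IGenM

variable {K : Type} [Field K] {α : Type} [Fintype α] [DecidableEq α]

/-- the functions `ZM` form a subspace -/
def ZS (K : Type) [Field K] {α : Type} [Fintype α] [DecidableEq α] (r j : ℕ) (P : Finset α) :
    Submodule K ((Fin j → Finset α) → K) where
  carrier := {u | ZM r j P u}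
  zero_mem' := ⟨fun _ hb => absurd rfl hb, fun _ _ => Finset.sum_eq_zero fun _ _ => rfl⟩
  add_mem' := by
    rintro u v ⟨hu1, hu2⟩ ⟨hv1, hv2⟩
    refine ⟨fun b hb => ?_, fun b s => ?_⟩
    · by_cases h : u b = 0
      · apply hv1
        intro h'
        apply hb
        change u b + v b = 0
        rw [h, h', add_zero]
      · exact hu1 b h
    · change ∑ w ∈ _, (u (Function.update b s w) + v (Function.update b s w)) = 0
      rw [Finset.sum_add_distrib, hu2, hv2, add_zero]
  smul_mem' := by
    rintro a u ⟨hu1, hu2⟩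
    refine ⟨fun b hb => ?_, fun b s => ?_⟩
    · apply hu1
      intro h
      apply hb
      change a * u b = 0
      rw [h, mul_zero]
    · change ∑ w ∈ _, a * u (Function.update b s w) = 0
      rw [← Finset.mul_sum, hu2, mul_zero]

theorem mem_ZS {r j : ℕ} {P : Finset α} {u : (Fin j → Finset α) → K} :
    u ∈ ZS K r j P ↔ ZM r j P u := Iff.rfl

/-- insertion of a set in the slot `l` -/
def ins {j : ℕ} (l : Fin (j + 1)) (e : Finset α) (z : (Fin j → Finset α) → K)
    (b : Fin (j + 1) → Finset α) : K := if b l = e then z (l.removeNth b) else 0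

/-- difference of two insertions -/
def dif {j : ℕ} (l : Fin (j + 1)) (e1 e2 : Finset α) (z : (Fin j → Finset α) → K)
    (b : Fin (j + 1) → Finset α) : K := ins l e1 z b - ins l e2 z b

omit [Fintype α] in
theorem dif_sum {j : ℕ} (l : Fin (j + 1)) (e1 e2 : Finset α) (S : Finset α)
    (z : α → (Fin j → Finset α) → K) (y : (Fin j → Finset α) → K)
    (h : ∀ b, y b = ∑ i ∈ S, z i b) : dif l e1 e2 y = ∑ i ∈ S, dif l e1 e2 (z i) := by
  funext b
  rw [Finset.sum_apply]
  unfold dif ins
  rw [Finset.sum_sub_distrib]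
  congr 1
  · split_ifs
    · exact h _
    · exact Finset.sum_const_zero.symm
  · split_ifs
    · exact h _
    · exact Finset.sum_const_zero.symm

theorem ins_supp {j r : ℕ} (l : Fin (j + 1)) {e R Q : Finset α} (he : e.card = r) (heR : e ⊆ R)
    (heQ : Disjoint e Q) (hQR : Q ⊆ R) {z : (Fin j → Finset α) → K} (hz : ZM r j Q z)
    {b : Fin (j + 1) → Finset α} (hb : ins l e z b ≠ 0) :
    (∀ s, (b s).card = r ∧ b s ⊆ R) ∧ ∀ s s', s ≠ s' → Disjoint (b s) (b s') := by
  unfold ins at hb
  have hbl : b l = e := by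
    by_contra h
    rw [if_neg h] at hb
    exact hb rfl
  rw [if_pos hbl] at hb
  obtain ⟨h1, h2⟩ := hz.1 _ hb
  have h1' : ∀ s, (b (l.succAbove s)).card = r ∧ b (l.succAbove s) ⊆ Q := h1
  have h2' : ∀ s s', s ≠ s' → Disjoint (b (l.succAbove s)) (b (l.succAbove s')) := h2
  refine ⟨fun s => ?_, fun s s' hss => ?_⟩
  · rcases Fin.eq_self_or_eq_succAbove l s with rfl | ⟨i, rfl⟩
    · rw [hbl]
      exact ⟨he, heR⟩
    · exact ⟨(h1' i).1, (h1' i).2.trans hQR⟩
  · rcases Fin.eq_self_or_eq_succAbove l s with rfl | ⟨i, rfl⟩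
    · rcases Fin.eq_self_or_eq_succAbove s s' with rfl | ⟨i', rfl⟩
      · exact absurd rfl hss
      · rw [hbl]
        exact heQ.mono_right (h1' i').2
    · rcases Fin.eq_self_or_eq_succAbove l s' with rfl | ⟨i', rfl⟩
      · rw [hbl]
        exact (heQ.mono_right (h1' i).2).symm
      · exact h2' i i' fun h => hss (by rw [h])

theorem dif_mem {j r : ℕ} (l : Fin (j + 1)) {e1 e2 R Q : Finset α} (h1 : e1.card = r)
    (h1R : e1 ⊆ R) (h1Q : Disjoint e1 Q) (h2 : e2.card = r) (h2R : e2 ⊆ R) (h2Q : Disjoint e2 Q)
    (hQR : Q ⊆ R) {z : (Fin j → Finset α) → K} (hz : ZM r j Q z) :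
    ZM r (j + 1) R (dif l e1 e2 z) := by
  refine ⟨fun b hb => ?_, fun b s => ?_⟩
  · by_cases h : ins l e1 z b = 0
    · have h' : ins l e2 z b ≠ 0 := by
        intro h'
        apply hb
        unfold dif
        rw [h, h', sub_zero]
      exact ins_supp l h2 h2R h2Q hQR hz h'
    · exact ins_supp l h1 h1R h1Q hQR hz h
  · rcases Fin.eq_self_or_eq_succAbove l s with rfl | ⟨i, rfl⟩
    · have key : ∀ e : Finset α, e.card = r →
          ∑ v ∈ (univ : Finset α).powersetCard r, ins s e z (Function.update b s v) =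
            z (s.removeNth b) := by
        intro e he
        have h3 : ∀ v, ins s e z (Function.update b s v) = if v = e then z (s.removeNth b) else 0 := by
          intro v
          unfold ins
          rw [Function.update_self, Fin.removeNth_update]
        rw [Finset.sum_congr rfl fun v _ => h3 v, Finset.sum_ite_eq', if_pos]
        rw [Finset.mem_powersetCard]
        exact ⟨subset_univ _, he⟩
      unfold dif
      rw [Finset.sum_sub_distrib, key e1 h1, key e2 h2, sub_self]
    · have key : ∀ e : Finset α,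
          ∑ v ∈ (univ : Finset α).powersetCard r,
            ins l e z (Function.update b (l.succAbove i) v) = 0 := by
        intro e
        have h3 : ∀ v, ins l e z (Function.update b (l.succAbove i) v) =
            if b l = e then z (Function.update (l.removeNth b) i v) else 0 := by
          intro v
          unfold ins
          rw [Function.update_of_ne (Fin.succAbove_ne l i).symm, Fin.removeNth_update_succAbove]
        rw [Finset.sum_congr rfl fun v _ => h3 v]
        by_cases h : b l = e
        · simp only [if_pos h]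
          exact hz.2 _ _
        · simp only [if_neg h]
          exact Finset.sum_const_zero
      unfold dif
      rw [Finset.sum_sub_distrib, key e1, key e2, sub_self]

/-- membership in the span of the subspaces for the sets without one point -/
theorem mem_gen {r j : ℕ} {P : Finset α} {u : (Fin j → Finset α) → K}
    (h : u ∈ ⨆ y ∈ P, ZS K r j (P.erase y)) :
    ∃ U : α → ((Fin j → Finset α) → K), (∀ y ∈ P, ZM r j (P.erase y) (U y)) ∧
      ∀ b, u b = ∑ y ∈ P, U y b := by
  rw [Submodule.mem_iSup_finset_iff_exists_sum] at h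
  obtain ⟨μ, hμ⟩ := h
  refine ⟨fun y => (μ y : (Fin j → Finset α) → K), fun y _ => (μ y).2, fun b => ?_⟩
  rw [← hμ, Finset.sum_apply]

theorem gen_of {r j : ℕ} {P : Finset α} {y : α} (hy : y ∈ P) {u : (Fin j → Finset α) → K}
    (h : ZM r j (P.erase y) u) : u ∈ ⨆ y ∈ P, ZS K r j (P.erase y) :=
  Submodule.mem_iSup_of_mem y (Submodule.mem_iSup_of_mem hy h)

/-- the step of the induction -/
theorem step {r j : ℕ} (hr : 1 ≤ r)
    (ih : ∀ (P : Finset α) (u : (Fin j → Finset α) → K), ZM r j P u → j * r + j + 1 ≤ P.card →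
      u ∈ ⨆ y ∈ P, ZS K r j (P.erase y))
    (P : Finset α) (u : (Fin (j + 1) → Finset α) → K) (hu : ZM r (j + 1) P u)
    (hP : (j + 1) * r + (j + 1) + 1 ≤ P.card) : u ∈ ⨆ y ∈ P, ZS K r (j + 1) (P.erase y) := by
  have hP' : j * r + j + 2 + r ≤ P.card := by
    have : (j + 1) * r = j * r + r := by ring
    omega
  obtain ⟨x, hx⟩ : P.Nonempty := by
    rw [← Finset.card_pos]
    omega
  -- the sets `m`
  have hm : ∀ m ∈ (P.erase x).powersetCard (r - 1), x ∉ m ∧ m ⊆ P ∧ (insert x m).card = r ∧
      insert x m ⊆ P ∧ (P \ insert x m).card = P.card - r := by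
    intro m hm
    rw [Finset.mem_powersetCard] at hm
    have h1 : x ∉ m := fun h => absurd rfl (Finset.mem_erase.1 (hm.1 h)).1
    have h2 : m ⊆ P := hm.1.trans (Finset.erase_subset _ _)
    have h3 : insert x m ⊆ P := Finset.insert_subset hx h2
    have h4 : (insert x m).card = r := by
      rw [Finset.card_insert_of_notMem h1, hm.2]
      omega
    exact ⟨h1, h2, h4, h3, by rw [Finset.card_sdiff_of_subset h3, h4]⟩
  -- the slices
  have hsl : ∀ (l : Fin (j + 1)) (m : Finset α), m ∈ (P.erase x).powersetCard (r - 1) →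
      ∃ U : α → ((Fin j → Finset α) → K),
        (∀ y ∈ P \ insert x m, ZM r j ((P \ insert x m).erase y) (U y)) ∧
        ∀ b : Fin j → Finset α, u (l.insertNth (α := fun _ => Finset α) (insert x m) b) =
          ∑ y ∈ P \ insert x m, U y b := by
    intro l m hmm
    obtain ⟨h1, h2, h3, h4, h5⟩ := hm m hmm
    apply mem_gen
    apply ih
    · refine ⟨fun b hb => ?_, fun b s => ?_⟩
      · obtain ⟨k1, k2⟩ := hu.1 _ hb
        have k1' : ∀ s, (b s).card = r ∧ b s ⊆ P := by
          intro s
          have := k1 (l.succAbove s)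
          rwa [Fin.insertNth_apply_succAbove] at this
        have k2' : ∀ s s', s ≠ s' → Disjoint (b s) (b s') := by
          intro s s' hss
          have := k2 (l.succAbove s) (l.succAbove s')
            fun h => hss (Fin.succAbove_right_injective h)
          rwa [Fin.insertNth_apply_succAbove, Fin.insertNth_apply_succAbove] at this
        have k3 : ∀ s, Disjoint (b s) (insert x m) := by
          intro s
          have := k2 (l.succAbove s) l (Fin.succAbove_ne l s)
          rwa [Fin.insertNth_apply_succAbove, Fin.insertNth_apply_same] at this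
        exact ⟨fun s => ⟨(k1' s).1, Finset.subset_sdiff.2 ⟨(k1' s).2, k3 s⟩⟩, k2'⟩
      · have h6 := hu.2 (l.insertNth (α := fun _ => Finset α) (insert x m) b) (l.succAbove s)
        rw [← h6]
        refine Finset.sum_congr rfl fun v _ => ?_
        change u (l.insertNth (α := fun _ => Finset α) (insert x m) (Function.update b s v)) = _
        rw [Fin.insertNth_update]
    · rw [h5]
      omega
  choose! μ hμ using hsl
  -- the correction
  set T : Fin (j + 1) → Finset α → α → ((Fin (j + 1) → Finset α) → K) :=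
    fun l m y => dif l (insert y m) (insert x m) (μ l m y) with hT
  set v : (Fin (j + 1) → Finset α) → K :=
    ∑ l, ∑ m ∈ (P.erase x).powersetCard (r - 1), ∑ y ∈ P \ insert x m, T l m y with hv
  -- geometry of the sets
  have geo : ∀ m ∈ (P.erase x).powersetCard (r - 1), ∀ y ∈ P \ insert x m,
      (insert y m).card = r ∧ insert y m ⊆ P ∧ Disjoint (insert y m) ((P \ insert x m).erase y) ∧
      Disjoint (insert x m) ((P \ insert x m).erase y) ∧ (P \ insert x m).erase y ⊆ P := by
    intro m hmm y hy
    obtain ⟨h1, h2, h3, h4, h5⟩ := hm m hmm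
    rw [Finset.mem_sdiff, Finset.mem_insert] at hy
    have hym : y ∉ m := fun h => hy.2 (Or.inr h)
    have hsub : (P \ insert x m).erase y ⊆ P :=
      (Finset.erase_subset _ _).trans Finset.sdiff_subset
    have hd : Disjoint (insert x m) ((P \ insert x m).erase y) :=
      Finset.disjoint_sdiff.mono_right (Finset.erase_subset _ _)
    refine ⟨?_, Finset.insert_subset hy.1 h2, ?_, hd, hsub⟩
    · rw [Finset.card_insert_of_notMem hym, ← h3, Finset.card_insert_of_notMem h1]
    · rw [Finset.disjoint_insert_left]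
      exact ⟨Finset.notMem_erase _ _, hd.mono_left (Finset.subset_insert _ _)⟩
  -- the terms belong to the space of `P`
  have hTP : ∀ l, ∀ m ∈ (P.erase x).powersetCard (r - 1), ∀ y ∈ P \ insert x m,
      T l m y ∈ ZS K r (j + 1) P := by
    intro l m hmm y hy
    obtain ⟨-, -, h3, h4, -⟩ := hm m hmm
    obtain ⟨g1, g2, g3, g4, g5⟩ := geo m hmm y hy
    exact dif_mem l g1 g2 g3 h3 h4 g4 g5 ((hμ l m hmm).1 y hy)
  -- the terms are generated
  have hTG : ∀ l, ∀ m ∈ (P.erase x).powersetCard (r - 1), ∀ y ∈ P \ insert x m,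
      T l m y ∈ ⨆ y ∈ P, ZS K r (j + 1) (P.erase y) := by
    intro l m hmm y hy
    obtain ⟨-, -, h3, h4, h5⟩ := hm m hmm
    obtain ⟨g1, g2, g3, g4, g5⟩ := geo m hmm y hy
    obtain ⟨Z, hZ1, hZ2⟩ := mem_gen (ih _ _ ((hμ l m hmm).1 y hy) (by
      rw [Finset.card_erase_of_mem hy, h5]
      omega))
    have h6 : T l m y = ∑ y' ∈ (P \ insert x m).erase y,
        dif l (insert y m) (insert x m) (Z y') := dif_sum l _ _ _ Z _ hZ2
    rw [h6]
    refine Submodule.sum_mem _ fun y' hy' => ?_
    have hy'P : y' ∈ P := g5 hy'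
    have hn1 : y' ∉ insert y m := fun h => Finset.disjoint_left.1 g3 h hy'
    have hn2 : y' ∉ insert x m := fun h => Finset.disjoint_left.1 g4 h hy'
    refine gen_of hy'P (dif_mem (Q := ((P \ insert x m).erase y).erase y') l g1 ?_ ?_ h3 ?_ ?_ ?_
      (hZ1 y' hy'))
    · exact Finset.subset_erase.2 ⟨g2, hn1⟩
    · exact g3.mono_right (Finset.erase_subset _ _)
    · exact Finset.subset_erase.2 ⟨h4, hn2⟩
    · exact g4.mono_right (Finset.erase_subset _ _)
    · exact Finset.erase_subset_erase _ g5
  have hvP : v ∈ ZS K r (j + 1) P :=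
    Submodule.sum_mem _ fun l _ => Submodule.sum_mem _ fun m hmm =>
      Submodule.sum_mem _ fun y hy => hTP l m hmm y hy
  have hvG : v ∈ ⨆ y ∈ P, ZS K r (j + 1) (P.erase y) :=
    Submodule.sum_mem _ fun l _ => Submodule.sum_mem _ fun m hmm =>
      Submodule.sum_mem _ fun y hy => hTG l m hmm y hy
  have hwP : ZM r (j + 1) P (u + v) := Submodule.add_mem (ZS K r (j + 1) P) hu hvP
  -- the corrected function does not use `x`
  have hx0 : ∀ b l, (∀ s, (b s).card = r ∧ b s ⊆ P) → x ∈ b l → v b = -u b := by
    intro b l hb hxl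
    have hvb : v b = ∑ l', ∑ m ∈ (P.erase x).powersetCard (r - 1),
        ∑ y ∈ P \ insert x m, T l' m y b := by
      rw [hv]
      simp only [Finset.sum_apply]
    have hbl : (b l).erase x ∈ (P.erase x).powersetCard (r - 1) := by
      rw [Finset.mem_powersetCard, Finset.card_erase_of_mem hxl, (hb l).1]
      exact ⟨Finset.erase_subset_erase _ (hb l).2, rfl⟩
    rw [hvb, Finset.sum_eq_single l, Finset.sum_eq_single ((b l).erase x)]
    · have h1 : insert x ((b l).erase x) = b l := Finset.insert_erase hxl
      have h2 := (hμ l _ hbl).2 (l.removeNth b)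
      rw [h1, Fin.insertNth_self_removeNth] at h2
      rw [h2, ← Finset.sum_neg_distrib, h1]
      refine Finset.sum_congr rfl fun y hy => ?_
      have h3 : T l ((b l).erase x) y b = ins l (insert y ((b l).erase x)) (μ l _ y) b -
          ins l (insert x ((b l).erase x)) (μ l _ y) b := rfl
      have h4 : b l ≠ insert y ((b l).erase x) := by
        intro h
        have h5 : y ∈ b l := by
          rw [h]
          exact Finset.mem_insert_self _ _
        exact (Finset.mem_sdiff.1 hy).2 h5
      rw [h3, h1]
      unfold ins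
      rw [if_neg h4, if_pos rfl, zero_sub]
    · intro m hmm hne
      refine Finset.sum_eq_zero fun y hy => ?_
      obtain ⟨h1, -, -, -, -⟩ := hm m hmm
      have h4 : b l ≠ insert y m := by
        intro h
        rw [h, Finset.mem_insert] at hxl
        rcases hxl with h5 | h5
        · rw [← h5] at hy
          exact (Finset.mem_sdiff.1 hy).2 (Finset.mem_insert_self _ _)
        · exact h1 h5
      have h6 : b l ≠ insert x m := by
        intro h
        apply hne
        rw [h, Finset.erase_insert h1]
      change ins l (insert y m) (μ l m y) b - ins l (insert x m) (μ l m y) b = 0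
      unfold ins
      rw [if_neg h4, if_neg h6, sub_zero]
    · intro h
      exact absurd hbl h
    · intro l' _ hne
      refine Finset.sum_eq_zero fun m hmm => Finset.sum_eq_zero fun y hy => ?_
      obtain ⟨s, hs⟩ := Fin.exists_succAbove_eq (Ne.symm hne)
      have h7 : μ l' m y (l'.removeNth b) = 0 := by
        by_contra h
        have h8 := ((((hμ l' m hmm).1 y hy).1 _ h).1 s).2
        have h9 : x ∈ (l'.removeNth b) s := by
          change x ∈ b (l'.succAbove s)
          rw [hs]
          exact hxl
        have h10 := h8 h9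
        rw [Finset.mem_erase, Finset.mem_sdiff] at h10
        exact h10.2.2 (Finset.mem_insert_self _ _)
      change ins l' (insert y m) (μ l' m y) b - ins l' (insert x m) (μ l' m y) b = 0
      unfold ins
      rw [h7, ite_self, ite_self, sub_zero]
    · intro h
      exact absurd (Finset.mem_univ _) h
  have hw : ZM r (j + 1) (P.erase x) (u + v) := by
    refine ⟨fun b hb => ?_, hwP.2⟩
    obtain ⟨h1, h2⟩ := hwP.1 b hb
    refine ⟨fun s => ⟨(h1 s).1, Finset.subset_erase.2 ⟨(h1 s).2, fun hxs => ?_⟩⟩, h2⟩
    apply hb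
    change u b + v b = 0
    rw [hx0 b s h1 hxs, add_neg_cancel]
  have hfin : u = (u + v) - v := (add_sub_cancel_right u v).symm
  rw [hfin]
  exact Submodule.sub_mem _ (gen_of hx hw) hvG

theorem main (r : ℕ) (hr : 1 ≤ r) : ∀ (j : ℕ) (P : Finset α) (u : (Fin j → Finset α) → K),
    ZM r j P u → j * r + j + 1 ≤ P.card → u ∈ ⨆ y ∈ P, ZS K r j (P.erase y) := by
  intro j
  induction j with
  | zero =>
    intro P u _ hP
    obtain ⟨y, hy⟩ : P.Nonempty := by
      rw [← Finset.card_pos]
      omega
    exact gen_of hy ⟨fun _ _ => ⟨fun s => s.elim0, fun s => s.elim0⟩, fun _ s => s.elim0⟩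
  | succ j ih =>
    intro P u hu hP
    exact step hr ih P u hu hP

end IGenM

theorem pr_GenM : S_GenM := by
  intro K _ α _ _ r j P u hr hu hP
  exact IGenM.mem_gen (IGenM.main r hr j P u hu hP)

end Pool.Agent.Work.MP_1233f5_ag.TL
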