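import Pool.Agent.Work.MP_1233f5_ag.TL.Stmts

/-! MP_1233f5_ag, block TL, item GenP: iteration of S_Gen. -/

set_option autoImplicit false

namespace Pool.Agent.Work.MP_1233f5_ag.TL

open Finset
open Pool.Agent.Work.MP_1233f5_ag.V (Alt dd wdg Pred rCh rcyc rVan Mo vw vm fib)

namespace IGenP

variable {K : Type} [Field K] {n : ℕ}

theorem mem_Mo {d : ℕ} {v : Fin n → ℕ} : v ∈ Mo n d ↔ ∑ i, v i = d := by
  unfold Mo
  rw [Finset.mem_piAntidiag]
  constructor
  · intro h
    exact h.1
  · intro h
    exact ⟨h, fun i _ => mem_univ i⟩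

theorem ZC_sum {ι : Type} {r j : ℕ} {w : Fin n → ℤ} (s : Finset ι)
    (f : ι → (Fin j → (Fin n → ℕ)) → K) (h : ∀ x ∈ s, ZC r j w (f x)) :
    ZC r j w (fun b => ∑ x ∈ s, f x b) := by
  refine ⟨fun b hb => ?_, fun b t => ?_⟩
  · obtain ⟨x, hx, hxb⟩ := Finset.exists_ne_zero_of_sum_ne_zero hb
    exact (h x hx).1 b hxb
  · rw [Finset.sum_comm]
    exact Finset.sum_eq_zero fun x hx => (h x hx).2 b t

theorem ZC_zero {r j : ℕ} {w : Fin n → ℤ} : ZC (K := K) r j w (fun _ => 0) :=
  ⟨fun _ hb => absurd rfl hb, fun _ _ => Finset.sum_const_zero⟩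

theorem sw_sw (w : Fin n → ℤ) (v v' : Fin n → ℕ) : sw (sw w v) v' = sw w (v + v') := by
  funext a
  simp only [sw, Pi.add_apply]
  push_cast
  ring

theorem sum_sw (w : Fin n → ℤ) (v : Fin n → ℕ) (d : ℕ) (hv : v ∈ Mo n d) :
    ∑ a, sw w v a = ∑ a, w a - d := by
  rw [mem_Mo] at hv
  simp only [sw]
  rw [Finset.sum_sub_distrib, ← hv]
  push_cast
  rfl

theorem add_single {d : ℕ} {v : Fin n → ℕ} (hv : v ∈ Mo n d) (l : Fin n) :
    v + Pi.single l 1 ∈ Mo n (d + 1) := by
  rw [mem_Mo] at hv ⊢
  simp only [Pi.add_apply]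
  rw [Finset.sum_add_distrib, hv, Finset.sum_pi_single']
  simp

end IGenP

open IGenP in
theorem pr_GenP (h : S_Gen) : S_GenP := by
  intro K _ _ n r j w u hu hw
  have key : ∀ i, i ≤ r → ∃ U : (Fin n → ℕ) → ((Fin j → (Fin n → ℕ)) → K),
      (∀ v ∈ Mo n i, ZC r j (sw w v) (U v)) ∧ ∀ b, u b = ∑ v ∈ Mo n i, U v b := by
    intro i
    induction i with
    | zero =>
      intro _
      have h0 : Mo n 0 = {0} := by
        ext v
        rw [mem_Mo, Finset.mem_singleton, Finset.sum_eq_zero_iff]
        constructor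
        · intro hv
          funext a
          exact hv a (mem_univ a)
        · rintro rfl a _
          rfl
      refine ⟨fun _ => u, ?_, ?_⟩
      · intro v hv
        rw [h0, Finset.mem_singleton] at hv
        subst hv
        have : sw w (0 : Fin n → ℕ) = w := by
          funext a
          simp [sw]
        rw [this]
        exact hu
      · intro b
        rw [h0, Finset.sum_singleton]
    | succ i ih =>
      intro hi
      obtain ⟨U, hU, hUs⟩ := ih (by omega)
      have h1 : ∀ v ∈ Mo n i, ∃ V : Fin n → ((Fin j → (Fin n → ℕ)) → K),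
          (∀ l, ZC r j (sw (sw w v) (Pi.single l 1)) (V l)) ∧ ∀ b, U v b = ∑ l, V l b := by
        intro v hv
        refine h K n r j (sw w v) (U v) (hU v hv) ?_
        rw [sum_sw w v i hv]
        have h2 : ((i : ℤ)) + 1 ≤ r := by exact_mod_cast hi
        linarith
      choose! V hV hVs using h1
      refine ⟨fun v' b => ∑ v ∈ Mo n i, ∑ l, if v + Pi.single l 1 = v' then V v l b else 0,
        ?_, ?_⟩
      · intro v' hv'
        refine ZC_sum (Mo n i) (fun v b => ∑ l, if v + Pi.single l 1 = v' then V v l b else 0) ?_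
        intro v hv
        refine ZC_sum univ (fun l b => if v + Pi.single l 1 = v' then V v l b else 0) ?_
        intro l _
        by_cases hc : v + Pi.single l 1 = v'
        · simp only [hc, if_true]
          rw [← hc, ← sw_sw]
          exact hV v hv l
        · simp only [hc, if_false]
          exact ZC_zero
      · intro b
        rw [hUs b, Finset.sum_comm]
        refine Finset.sum_congr rfl fun v hv => ?_
        rw [hVs v hv b, Finset.sum_comm]
        refine Finset.sum_congr rfl fun l _ => ?_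
        rw [Finset.sum_ite_eq, if_pos (add_single hv l)]
  exact key r le_rfl

end Pool.Agent.Work.MP_1233f5_ag.TL
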