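import Pool.Agent.Work.MP_1233f5_ag.TL.Stmts

/-! Item GenU (block TL): top cycles are generated, alternating functions. -/

set_option autoImplicit false

namespace Pool.Agent.Work.MP_1233f5_ag.TL

open Finset
open Pool.Agent.Work.MP_1233f5_ag.V (Alt dd wdg Pred rCh rcyc rVan Mo vw vm fib)

namespace IGenU

variable {K : Type} [Field K]

theorem mem_Mo {n d : ℕ} {v : Fin n → ℕ} : v ∈ Mo n d ↔ ∑ i, v i = d := by
  unfold Mo
  rw [Finset.mem_piAntidiag]
  exact ⟨fun h => h.1, fun h => ⟨h, fun i _ => mem_univ i⟩⟩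

theorem mem_L1 {k n d : ℕ} {e : Lb k n} :
    e ∈ L1 k n d ↔ e.1.card + ∑ a, e.2 a = d ∧ e.1.card = 1 := by
  unfold L1
  rw [Finset.mem_filter, mem_La]

theorem mem_L1' {k n d : ℕ} (hd : 1 ≤ d) {e : Lb k n} :
    e ∈ L1 k n d ↔ e.1.card = 1 ∧ e.2 ∈ Mo n (d - 1) := by
  rw [mem_L1, mem_Mo]
  constructor
  · rintro ⟨h1, h2⟩
    exact ⟨h2, by omega⟩
  · rintro ⟨h1, h2⟩
    exact ⟨by omega, h1⟩

/-- sums over the labels with the letter `x` -/
theorem sumL1 {k n d : ℕ} (hd : 1 ≤ d) (x : Fin k) (g : (Fin n → ℕ) → K) :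
    ∑ e ∈ L1 k n d, (if e.1 = {x} then g e.2 else 0) = ∑ v ∈ Mo n (d - 1), g v := by
  rw [← Finset.sum_filter]
  refine Finset.sum_nbij' (fun e => e.2) (fun v => (({x} : Finset (Fin k)), v)) ?_ ?_ ?_ ?_ ?_
  · intro e he
    rw [Finset.mem_filter, mem_L1' hd] at he
    exact he.1.2
  · intro v hv
    rw [Finset.mem_filter, mem_L1' hd]
    exact ⟨⟨Finset.card_singleton x, hv⟩, rfl⟩
  · intro e he
    rw [Finset.mem_filter] at he
    exact Prod.ext he.2.symm rfl
  · intro v _
    rfl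
  · intro e _
    rfl

/-- the tuple with the letters `y s` -/
def emb {k n j : ℕ} (y : Fin j → Fin k) (b : Fin j → (Fin n → ℕ)) : Fin j → Lb k n :=
  fun s => (({y s} : Finset (Fin k)), b s)

/-- antisymmetrisation -/
noncomputable def asym {k n j : ℕ} (y : Fin j → Fin k) (U : (Fin j → (Fin n → ℕ)) → K)
    (t : Fin j → Lb k n) : K :=
  ∑ σ : Equiv.Perm (Fin j), ((Equiv.Perm.sign σ : ℤ) : K) *
    (if ∀ s, (t (σ s)).1 = {y s} then U (fun s => (t (σ s)).2) else 0)

theorem sgn_sq {j : ℕ} (σ : Equiv.Perm (Fin j)) :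
    ((Equiv.Perm.sign σ : ℤ) : K) * ((Equiv.Perm.sign σ : ℤ) : K) = 1 := by
  rcases Int.units_eq_one_or (Equiv.Perm.sign σ) with h | h <;> rw [h] <;> simp

theorem asym_alt {k n j : ℕ} (y : Fin j → Fin k) (U : (Fin j → (Fin n → ℕ)) → K) :
    Alt j (asym y U) := by
  intro τ t
  unfold asym
  rw [Finset.mul_sum]
  refine Fintype.sum_equiv (Equiv.mulLeft τ) _ _ fun σ => ?_
  have h1 : (Equiv.mulLeft τ) σ = τ * σ := rfl
  rw [h1]
  have h2 : ((Equiv.Perm.sign (τ * σ) : ℤ) : K) =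
      ((Equiv.Perm.sign τ : ℤ) : K) * ((Equiv.Perm.sign σ : ℤ) : K) := by
    rw [Equiv.Perm.sign_mul]
    push_cast
    rfl
  rw [h2, ← mul_assoc, ← mul_assoc, sgn_sq, one_mul]
  rfl

variable {k n d j : ℕ}

/-- enumeration of `Y` -/
structure En (Y : Finset (Fin k)) (y : Fin j → Fin k) : Prop where
  inj : Function.Injective y
  mem : ∀ s, y s ∈ Y
  sur : ∀ x ∈ Y, ∃ s, y s = x

theorem exists_En (Y : Finset (Fin k)) (h : Y.card = j) : ∃ y : Fin j → Fin k, En Y y := by
  refine ⟨fun s => ((Finset.equivFinOfCardEq h).symm s : Fin k), ?_, ?_, ?_⟩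
  · intro s s' hs
    exact (Finset.equivFinOfCardEq h).symm.injective (Subtype.ext hs)
  · intro s
    exact ((Finset.equivFinOfCardEq h).symm s).2
  · intro x hx
    exact ⟨(Finset.equivFinOfCardEq h) ⟨x, hx⟩, by simp⟩

theorem vZ_of_cond {Y : Finset (Fin k)} {y : Fin j → Fin k} (hy : En Y y) (hd : 1 ≤ d)
    (w : Fin n → ℤ) (t : Fin j → Lb k n) (σ : Equiv.Perm (Fin j))
    (h1 : ∀ s, (t (σ s)).1 = {y s}) (h2 : ∀ s, (t (σ s)).2 ∈ Mo n (d - 1))
    (h3 : ∀ a, ∑ s, ((t (σ s)).2 a : ℤ) ≤ w a) : vZ (L1 k n d) Y w ∅ j t := by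
  have h4 : ∀ i, (t i).1 = {y (σ.symm i)} := by
    intro i
    have := h1 (σ.symm i)
    rwa [Equiv.apply_symm_apply] at this
  refine ⟨?_, ?_, ?_, ?_⟩
  · intro i
    rw [mem_L1' hd, h4 i]
    refine ⟨⟨Finset.card_singleton _, ?_⟩, ?_⟩
    · have := h2 (σ.symm i)
      rwa [Equiv.apply_symm_apply] at this
    · rw [Finset.singleton_subset_iff]
      exact hy.mem _
  · intro i i' hii
    rw [h4 i, h4 i', Finset.disjoint_singleton]
    intro h
    exact hii (σ.symm.injective (hy.inj h))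
  · intro a ha
    exact absurd ha (Finset.notMem_empty a)
  · intro a _
    unfold rem
    have h5 := h3 a
    rw [Equiv.sum_comp σ (fun i => ((t i).2 a : ℤ))] at h5
    linarith

theorem asym_supp {Y : Finset (Fin k)} {y : Fin j → Fin k} (hy : En Y y) (hd : 1 ≤ d)
    (w : Fin n → ℤ) (U : (Fin j → (Fin n → ℕ)) → K) (hU : ZC (d - 1) j w U)
    (t : Fin j → Lb k n) (ht : asym y U t ≠ 0) : vZ (L1 k n d) Y w ∅ j t := by
  unfold asym at ht
  obtain ⟨σ, -, hσ⟩ := Finset.exists_ne_zero_of_sum_ne_zero ht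
  have h1 := right_ne_zero_of_mul hσ
  rw [ne_eq, ite_eq_right_iff, Classical.not_imp] at h1
  obtain ⟨h1, h2⟩ := h1
  obtain ⟨h3, h4⟩ := hU.1 _ h2
  exact vZ_of_cond hy hd w t σ h1 h3 h4

theorem cons_ne {j' : ℕ} (e e0 : Lb k n) (t : Fin j' → Lb k n) (σ : Equiv.Perm (Fin (j' + 1)))
    (s : Fin (j' + 1)) (hs : s ≠ σ.symm 0) :
    (Fin.cons e t : Fin (j' + 1) → Lb k n) (σ s) = (Fin.cons e0 t : Fin (j' + 1) → Lb k n) (σ s) := by
  have h1 : σ s ≠ 0 := by
    intro h
    apply hs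
    rw [← h, Equiv.symm_apply_apply]
  obtain ⟨i, hi⟩ := Fin.exists_succ_eq.2 h1
  rw [← hi, Fin.cons_succ, Fin.cons_succ]

theorem asym_cyc {j' : ℕ} {y : Fin (j' + 1) → Fin k} (hd : 1 ≤ d)
    (w : Fin n → ℤ) (U : (Fin (j' + 1) → (Fin n → ℕ)) → K) (hU : ZC (d - 1) (j' + 1) w U)
    (t : Fin j' → Lb k n) : dd (L1 k n d) (asym y U) t = 0 := by
  unfold dd asym
  rw [Finset.sum_comm]
  refine Finset.sum_eq_zero fun σ _ => ?_
  rw [← Finset.mul_sum]
  refine mul_eq_zero_of_right _ ?_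
  set s0 : Fin (j' + 1) := σ.symm 0 with hs0
  set e0 : Lb k n := (∅, 0) with he0
  have hσ0 : σ s0 = 0 := by rw [hs0, Equiv.apply_symm_apply]
  have h1 : ∀ e : Lb k n, (if ∀ s, ((Fin.cons e t : Fin (j' + 1) → Lb k n) (σ s)).1 = {y s} then
      U (fun s => ((Fin.cons e t : Fin (j' + 1) → Lb k n) (σ s)).2) else 0) =
      (if ∀ s, s ≠ s0 → ((Fin.cons e0 t : Fin (j' + 1) → Lb k n) (σ s)).1 = {y s} then
        (if e.1 = {y s0} then U (Function.update
          (fun s => ((Fin.cons e0 t : Fin (j' + 1) → Lb k n) (σ s)).2) s0 e.2) else 0) else 0) := by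
    intro e
    have h2 : (fun s => ((Fin.cons e t : Fin (j' + 1) → Lb k n) (σ s)).2) = Function.update
        (fun s => ((Fin.cons e0 t : Fin (j' + 1) → Lb k n) (σ s)).2) s0 e.2 := by
      funext s
      by_cases hs : s = s0
      · rw [hs, Function.update_self, hσ0, Fin.cons_zero]
      · rw [Function.update_of_ne hs, cons_ne e e0 t σ s hs]
    have h3 : (∀ s, ((Fin.cons e t : Fin (j' + 1) → Lb k n) (σ s)).1 = {y s}) ↔
        (∀ s, s ≠ s0 → ((Fin.cons e0 t : Fin (j' + 1) → Lb k n) (σ s)).1 = {y s}) ∧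
          e.1 = {y s0} := by
      constructor
      · intro h
        refine ⟨fun s hs => ?_, ?_⟩
        · rw [← cons_ne e e0 t σ s hs]
          exact h s
        · have := h s0
          rwa [hσ0, Fin.cons_zero] at this
      · rintro ⟨h, h'⟩ s
        by_cases hs : s = s0
        · rw [hs, hσ0, Fin.cons_zero]
          exact h'
        · rw [cons_ne e e0 t σ s hs]
          exact h s hs
    rw [h2]
    by_cases h4 : ∀ s, s ≠ s0 → ((Fin.cons e0 t : Fin (j' + 1) → Lb k n) (σ s)).1 = {y s}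
    · by_cases h5 : e.1 = {y s0}
      · rw [if_pos (h3.2 ⟨h4, h5⟩), if_pos h4, if_pos h5]
      · rw [if_neg (fun h => h5 (h3.1 h).2), if_pos h4, if_neg h5]
    · rw [if_neg (fun h => h4 (h3.1 h).1), if_neg h4]
  rw [Finset.sum_congr rfl fun e _ => h1 e]
  by_cases h4 : ∀ s, s ≠ s0 → ((Fin.cons e0 t : Fin (j' + 1) → Lb k n) (σ s)).1 = {y s}
  · rw [Finset.sum_congr rfl fun e _ => if_pos h4, sumL1 hd (y s0) (fun v => U (Function.update
      (fun s => ((Fin.cons e0 t : Fin (j' + 1) → Lb k n) (σ s)).2) s0 v))]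
    exact hU.2 _ s0
  · rw [Finset.sum_congr rfl fun e _ => if_neg h4, Finset.sum_const_zero]

theorem exists_perm {Y : Finset (Fin k)} {y : Fin j → Fin k} (hy : En Y y)
    (w : Fin n → ℤ) (t : Fin j → Lb k n) (ht : vZ (L1 k n d) Y w ∅ j t) :
    ∃ σ : Equiv.Perm (Fin j), (∀ s, (t (σ s)).1 = {y s}) ∧
      ∀ σ' : Equiv.Perm (Fin j), (∀ s, (t (σ' s)).1 = {y s}) → σ' = σ := by
  obtain ⟨h1, h2, -, -⟩ := ht
  have h3 : ∀ i, ∃ s, (t i).1 = {y s} := by
    intro i
    obtain ⟨h4, h5⟩ := h1 i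
    rw [mem_L1] at h4
    obtain ⟨x, hx⟩ := Finset.card_eq_one.1 h4.2
    have h6 : x ∈ Y := h5 (by rw [hx]; exact Finset.mem_singleton_self x)
    obtain ⟨s, hs⟩ := hy.sur x h6
    exact ⟨s, by rw [hx, hs]⟩
  choose τ hτ using h3
  have hτi : Function.Injective τ := by
    intro i i' h
    by_contra hii
    have h4 := h2 i i' hii
    rw [hτ i, hτ i', h, Finset.disjoint_singleton] at h4
    exact h4 rfl
  have hb : Function.Bijective τ := (Finite.injective_iff_bijective).1 hτi
  set ρ : Equiv.Perm (Fin j) := Equiv.ofBijective τ hb with hρ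
  refine ⟨ρ.symm, ?_, ?_⟩
  · intro s
    rw [hτ]
    have h4 : τ (ρ.symm s) = s := Equiv.apply_symm_apply ρ s
    rw [h4]
  · intro σ' hσ'
    ext s
    by_contra hne
    have h4 : σ' s ≠ ρ.symm s := fun h => hne (by rw [h])
    have h5 := h2 _ _ h4
    have h6 : (t (ρ.symm s)).1 = {y s} := by
      rw [hτ]
      have h4 : τ (ρ.symm s) = s := Equiv.apply_symm_apply ρ s
      rw [h4]
    rw [hσ' s, h6, Finset.disjoint_singleton] at h5
    exact h5 rfl

theorem asym_emb {Y : Finset (Fin k)} {y : Fin j → Fin k} (hy : En Y y)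
    (w : Fin n → ℤ) (c : (Fin j → Lb k n) → K) (hc : rCh (vZ (L1 k n d) Y w ∅) j c)
    (t : Fin j → Lb k n) : asym y (fun b => c (emb y b)) t = c t := by
  have h1 : ∀ σ : Equiv.Perm (Fin j), ((Equiv.Perm.sign σ : ℤ) : K) *
      (if ∀ s, (t (σ s)).1 = {y s} then c (emb y (fun s => (t (σ s)).2)) else 0) =
      if ∀ s, (t (σ s)).1 = {y s} then c t else 0 := by
    intro σ
    by_cases h : ∀ s, (t (σ s)).1 = {y s}
    · rw [if_pos h, if_pos h]
      have h2 : emb y (fun s => (t (σ s)).2) = t ∘ σ := by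
        funext s
        exact Prod.ext (h s).symm rfl
      rw [h2, hc.1 σ t, ← mul_assoc, sgn_sq, one_mul]
    · rw [if_neg h, if_neg h, mul_zero]
  unfold asym
  rw [Finset.sum_congr rfl fun σ _ => h1 σ]
  by_cases h0 : c t = 0
  · rw [h0]
    simp
  · obtain ⟨σ, hσ1, hσ2⟩ := exists_perm hy w t (hc.2 t h0)
    rw [Finset.sum_eq_single σ]
    · rw [if_pos hσ1]
    · intro σ' _ hne
      rw [if_neg fun h => hne (hσ2 σ' h)]
    · intro h
      exact absurd (mem_univ σ) h

theorem vZ_remove {j' : ℕ} {M : Finset (Lb k n)} {Y : Finset (Fin k)} {w : Fin n → ℤ}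
    (t : Fin (j' + 1) → Lb k n) (s : Fin (j' + 1)) (ht : vZ M Y w ∅ (j' + 1) t) :
    vZ M Y w ∅ j' (s.removeNth t) := by
  obtain ⟨h1, h2, -, h4⟩ := ht
  refine ⟨fun i => h1 _, fun i i' hii => h2 _ _ fun h => hii (Fin.succAbove_right_injective h),
    fun a ha => absurd ha (Finset.notMem_empty a), fun a ha => ?_⟩
  have h5 := h4 a ha
  unfold rem at h5 ⊢
  rw [Fin.sum_univ_succAbove _ s] at h5
  have h6 : ∑ i, ((s.removeNth t i).2 a : ℤ) = ∑ i, ((t (s.succAbove i)).2 a : ℤ) := rfl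
  rw [h6]
  have h7 : (0 : ℤ) ≤ ((t s).2 a : ℤ) := Int.natCast_nonneg _
  linarith

theorem ZC_of_cycle {Y : Finset (Fin k)} {y : Fin j → Fin k} (hy : En Y y) (hd : 1 ≤ d)
    (w : Fin n → ℤ) (c : (Fin j → Lb k n) → K) (hc : rCh (vZ (L1 k n d) Y w ∅) j c)
    (hcyc : rcyc (L1 k n d) (vZ (L1 k n d) Y w ∅) j c) :
    ZC (d - 1) j w (fun b => c (emb y b)) := by
  refine ⟨?_, ?_⟩
  · intro b hb
    obtain ⟨h1, -, -, h4⟩ := hc.2 _ hb
    refine ⟨fun s => ?_, fun a => ?_⟩
    · exact ((mem_L1' hd).1 (h1 s).1).2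
    · have h5 := h4 a (Finset.notMem_empty a)
      unfold rem at h5
      have h6 : ∑ i, (((emb y b) i).2 a : ℤ) = ∑ s, (b s a : ℤ) := rfl
      rw [h6] at h5
      linarith
  · intro b s
    cases j with
    | zero => exact s.elim0
    | succ j' =>
      set t' : Fin j' → Lb k n := s.removeNth (emb y b) with ht'
      have hrem : ∀ v, s.removeNth (emb y (Function.update b s v)) = t' := by
        intro v
        funext i
        rw [ht']
        change (({y (s.succAbove i)} : Finset (Fin k)), Function.update b s v (s.succAbove i)) =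
          (({y (s.succAbove i)} : Finset (Fin k)), b (s.succAbove i))
        rw [Function.update_of_ne (Fin.succAbove_ne s i)]
      by_cases hz : vZ (L1 k n d) Y w ∅ j' t'
      · have h0 : dd (L1 k n d) c t' = 0 := hcyc t' hz
        have h1 : ∀ e ∈ L1 k n d, c (Fin.cons e t') =
            if e.1 = {y s} then c (Fin.cons (({y s} : Finset (Fin k)), e.2) t') else 0 := by
          intro e he
          by_cases h : e.1 = {y s}
          · rw [if_pos h]
            have h2 : e = (({y s} : Finset (Fin k)), e.2) := Prod.ext h rfl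
            rw [← h2]
          · rw [if_neg h]
            by_contra hne
            obtain ⟨h2, h3, -, -⟩ := hc.2 _ hne
            obtain ⟨h4, h5⟩ := h2 0
            rw [Fin.cons_zero, mem_L1] at h4
            rw [Fin.cons_zero] at h5
            obtain ⟨x, hx⟩ := Finset.card_eq_one.1 h4.2
            have h6 : x ∈ Y := h5 (by rw [hx]; exact Finset.mem_singleton_self x)
            obtain ⟨s', hs'⟩ := hy.sur x h6
            have h7 : s' ≠ s := by
              intro h8
              apply h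
              rw [hx, ← hs', h8]
            obtain ⟨i, hi⟩ := Fin.exists_succAbove_eq h7
            have h8 := h3 0 i.succ (Fin.succ_ne_zero i).symm
            rw [Fin.cons_zero, Fin.cons_succ] at h8
            have h9 : (t' i).1 = {y s'} := by
              rw [ht', ← hi]
              rfl
            rw [h9, hx, hs', Finset.disjoint_singleton] at h8
            exact h8 rfl
        unfold dd at h0
        rw [Finset.sum_congr rfl h1, sumL1 hd (y s)
          (fun v => c (Fin.cons (({y s} : Finset (Fin k)), v) t'))] at h0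
        have h2 : ∀ v, c (Fin.cons (({y s} : Finset (Fin k)), v) t') =
            (-1) ^ (s : ℕ) * c (emb y (Function.update b s v)) := by
          intro v
          have h3 := Pool.Agent.Work.MP_1233f5_ag.V.Alt.cons_removeNth hc.1
            (emb y (Function.update b s v)) s
          rw [hrem v] at h3
          rw [← h3]
          have h4 : emb y (Function.update b s v) s = (({y s} : Finset (Fin k)), v) := by
            unfold emb
            rw [Function.update_self]
          rw [h4]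
        rw [Finset.sum_congr rfl fun v _ => h2 v, ← Finset.mul_sum] at h0
        rcases mul_eq_zero.1 h0 with h | h
        · exact absurd h (pow_ne_zero _ (neg_ne_zero.2 one_ne_zero))
        · exact h
      · refine Finset.sum_eq_zero fun v _ => ?_
        by_contra hne
        apply hz
        rw [← hrem v]
        exact vZ_remove _ s (hc.2 _ hne)

end IGenU

theorem pr_GenU (h1 : S_GenP) : S_GenU := by
  intro K _ _ k n d j Y w c hd hY hw hc hcyc
  obtain ⟨y, hy⟩ := IGenU.exists_En Y hY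
  have hz := IGenU.ZC_of_cycle hy hd w c hc hcyc
  obtain ⟨U, hU1, hU2⟩ := h1 K n (d - 1) j w _ hz (by
    have h2 : (((d - 1 : ℕ) : ℤ)) = (d : ℤ) - 1 := by
      rw [Nat.cast_sub hd]
      rfl
    rw [h2]
    linarith)
  refine ⟨fun v => IGenU.asym y (U v), fun v hv => ⟨⟨IGenU.asym_alt y (U v), fun t ht =>
    IGenU.asym_supp hy hd (sw w v) (U v) (hU1 v hv) t ht⟩, ?_⟩, ?_⟩
  · cases j with
    | zero => exact trivial
    | succ j' =>
      intro t _
      exact IGenU.asym_cyc hd (sw w v) (U v) (hU1 v hv) t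
  · intro t
    rw [← IGenU.asym_emb hy w c hc t]
    unfold IGenU.asym
    rw [Finset.sum_comm]
    refine Finset.sum_congr rfl fun σ _ => ?_
    rw [← Finset.mul_sum]
    congr 1
    by_cases h : ∀ s, (t (σ s)).1 = {y s}
    · rw [if_pos h, Finset.sum_congr rfl fun v _ => if_pos h]
      exact hU2 _
    · rw [if_neg h, Finset.sum_congr rfl fun v _ => if_neg h, Finset.sum_const_zero]

end Pool.Agent.Work.MP_1233f5_ag.TL
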