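import Pool.Agent.Work.MP_1233f5_ag.TL.Stmts

/-! MP_1233f5_ag, block TL, item Num: arithmetic. -/

set_option autoImplicit false

namespace Pool.Agent.Work.MP_1233f5_ag.TL

namespace INum

theorem self_le : ∀ i q : ℕ, 1 ≤ q → q + 1 ≤ i → i ≤ i.choose q
  | 0, _, _, h => by omega
  | i + 1, 0, h, _ => by omega
  | i + 1, q + 1, _, h => by
    rw [Nat.choose_succ_succ']
    rcases Nat.lt_or_ge (q + 1) i with h1 | h1
    · have h2 := self_le i (q + 1) (by omega) (by omega)
      have h3 : 0 < i.choose q := Nat.choose_pos (by omega)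
      omega
    · have h2 : i = q + 1 := by omega
      subst h2
      rw [Nat.choose_self, Nat.choose_succ_self_right]

theorem step (q M : ℕ) (hq : 1 ≤ q) (hM : q + 1 ≤ M) :
    ∀ s : ℕ, M.choose (q + 1) + s * M ≤ (M + s).choose (q + 1)
  | 0 => by simp
  | s + 1 => by
    have h1 := step q M hq hM s
    have h2 := self_le (M + s) q hq (by omega)
    rw [← Nat.add_assoc, Nat.choose_succ_succ', Nat.succ_mul]
    omega

end INum

theorem pr_Num : S_Num := by
  intro q b d k hq hd hk
  obtain ⟨q', rfl⟩ : ∃ q', q = q' + 1 := ⟨q - 1, by omega⟩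
  obtain ⟨e, rfl⟩ : ∃ e, d = q' + 1 + b + 1 + e := ⟨d - (q' + 1 + b + 1), by omega⟩
  simp only [Nat.add_sub_cancel] at hk
  have h1 : q' + 1 + b + 1 + e - b - 1 = q' + 1 + e := by omega
  have h2 : q' + 1 + b + 1 + e + (q' + 1) - 1 = (q' + 1 + e) + (q' + b + 1) := by omega
  rw [h1, h2]
  rcases Nat.eq_zero_or_pos q' with h0 | h0
  · subst h0
    simp only [Nat.zero_mul] at hk
    simp only [Nat.zero_add, Nat.choose_one_right]
    omega
  · have h3 := INum.step q' (q' + 1 + e) h0 (by omega) (q' + b + 1)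
    have h4 : q' * (q' + 1 + b + 1 + e) + b + 1 ≤ (q' + b + 1) * (q' + 1 + e) := by
      have : (q' + b + 1) * (q' + 1 + e) = q' * (q' + 1 + b + 1 + e) + b + 1 + (b + 1) * e := by
        ring
      rw [this]
      exact Nat.le_add_right _ _
    omega

end Pool.Agent.Work.MP_1233f5_ag.TL
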