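import Pool.Agent.Work.MP_1233f5_ag.TL.Stmts

/-! MP_1233f5_ag, block TL: item Pol, from letters to variables. -/

set_option autoImplicit false

namespace Pool.Agent.Work.MP_1233f5_ag.TL

open Finset
open Pool.Agent.Work.MP_1233f5_ag.V (Alt dd wdg Pred rCh rcyc rVan Mo vw vm fib)

namespace IPol

/-- a sum over a sigma type of the indicator of one index. -/
theorem sum_sig {n : ℕ} (w : Fin n → ℕ) (j : Fin n) :
    ∑ x : (Σ a : Fin n, Fin (w a)), (if x.1 = j then 1 else 0) = w j := by
  rw [Fintype.sum_sigma]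
  have h1 : ∀ a : Fin n, ∑ y : Fin (w a),
      (if (⟨a, y⟩ : (Σ a : Fin n, Fin (w a))).1 = j then 1 else 0) = if a = j then w a else 0 := by
    intro a
    by_cases h : a = j
    · simp [h]
    · simp [h]
  rw [Finset.sum_congr rfl (fun a _ => h1 a), Finset.sum_ite_eq' univ j, if_pos (mem_univ j)]

/-- the fibre sizes as sums. -/
theorem fib_eq {α : Type} [Fintype α] {n : ℕ} (π : α → Fin n) (j : Fin n) :
    fib π j = ∑ x : α, if π x = j then 1 else 0 := by
  show (univ.filter (fun x : α => π x = j)).card = _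
  rw [Finset.card_filter]

end IPol

open IPol in
theorem pr_Pol (h1 : S_PolA) (h2 : S_PolB) : S_Pol := by
  intro K _ _ n1 n2 d p k w hk hV
  have hcard : Fintype.card (Σ a : Fin n2, Fin (w (Fin.natAdd n1 a))) = k := by
    rw [Fintype.card_sigma, ← hk]
    exact Finset.sum_congr rfl (fun a _ => Fintype.card_fin _)
  let e : Fin k ≃ (Σ a : Fin n2, Fin (w (Fin.natAdd n1 a))) :=
    (Fintype.equivFinOfCardEq hcard).symm
  let π : ((Σ a : Fin n1, Fin (w (Fin.castAdd n2 a))) ⊕ Fin k) → Fin (n1 + n2) :=
    Sum.elim (fun x => Fin.castAdd n2 x.1) (fun y => Fin.natAdd n1 (e y).1)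
  let π' : ((Σ a : Fin n1, Fin (w (Fin.castAdd n2 a))) ⊕ Fin k) → Fin (n1 + k) :=
    Sum.elim (fun x => Fin.castAdd k x.1) (fun y => Fin.natAdd n1 y)
  let f : Fin (n1 + k) → Fin (n1 + n2) :=
    Fin.addCases (fun a => Fin.castAdd n2 a) (fun y => Fin.natAdd n1 (e y).1)
  have hne : ∀ (m1 m2 : ℕ) (a : Fin m1) (b : Fin m2), Fin.castAdd m2 a ≠ Fin.natAdd m1 b := by
    intro m1 m2 a b h
    have h' := congrArg Fin.val h
    simp only [Fin.val_castAdd, Fin.val_natAdd] at h'
    have := a.isLt
    omega
  have hf : ∀ a, π a = f (π' a) := by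
    rintro (x | y)
    · exact (Fin.addCases_left (motive := fun _ => Fin (n1 + n2))
        (left := fun a => Fin.castAdd n2 a) (right := fun y => Fin.natAdd n1 (e y).1) x.1).symm
    · exact (Fin.addCases_right (motive := fun _ => Fin (n1 + n2))
        (left := fun a => Fin.castAdd n2 a) (right := fun y => Fin.natAdd n1 (e y).1) y).symm
  have hπ : fib π = w := by
    funext j
    rw [fib_eq, Fintype.sum_sum_type]
    refine Fin.addCases (fun j => ?_) (fun j => ?_) j
    · have a1 : ∀ x : (Σ a : Fin n1, Fin (w (Fin.castAdd n2 a))),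
          (if π (Sum.inl x) = Fin.castAdd n2 j then 1 else 0) = if x.1 = j then 1 else 0 := by
        intro x
        have : (π (Sum.inl x) = Fin.castAdd n2 j) ↔ x.1 = j :=
          (Fin.castAdd_injective n1 n2).eq_iff
        simp only [this]
      have a2 : ∀ y : Fin k,
          (if π (Sum.inr y) = Fin.castAdd n2 j then 1 else 0) = 0 := by
        intro y
        exact if_neg (fun h => hne _ _ _ _ h.symm)
      rw [Finset.sum_congr rfl (fun x _ => a1 x), Finset.sum_congr rfl (fun y _ => a2 y),
        sum_sig (fun a => w (Fin.castAdd n2 a)) j, Finset.sum_const_zero, Nat.add_zero]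
    · have a1 : ∀ x : (Σ a : Fin n1, Fin (w (Fin.castAdd n2 a))),
          (if π (Sum.inl x) = Fin.natAdd n1 j then 1 else 0) = 0 := by
        intro x
        exact if_neg (fun h => hne _ _ _ _ h)
      have a2 : ∀ y : Fin k,
          (if π (Sum.inr y) = Fin.natAdd n1 j then 1 else 0) = if (e y).1 = j then 1 else 0 := by
        intro y
        have : (π (Sum.inr y) = Fin.natAdd n1 j) ↔ (e y).1 = j :=
          (Fin.natAdd_injective n2 n1).eq_iff
        simp only [this]
      rw [Finset.sum_congr rfl (fun x _ => a1 x), Finset.sum_congr rfl (fun y _ => a2 y),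
        Finset.sum_const_zero, Nat.zero_add,
        Equiv.sum_comp e (fun z => if z.1 = j then 1 else 0),
        sum_sig (fun a => w (Fin.natAdd n1 a)) j]
  have hπ' : fib π' = Fin.append (fun a => w (Fin.castAdd n2 a)) (fun _ : Fin k => 1) := by
    funext j
    rw [fib_eq, Fintype.sum_sum_type]
    refine Fin.addCases (fun j => ?_) (fun j => ?_) j
    · have a1 : ∀ x : (Σ a : Fin n1, Fin (w (Fin.castAdd n2 a))),
          (if π' (Sum.inl x) = Fin.castAdd k j then 1 else 0) = if x.1 = j then 1 else 0 := by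
        intro x
        have : (π' (Sum.inl x) = Fin.castAdd k j) ↔ x.1 = j :=
          (Fin.castAdd_injective n1 k).eq_iff
        simp only [this]
      have a2 : ∀ y : Fin k,
          (if π' (Sum.inr y) = Fin.castAdd k j then 1 else 0) = 0 := by
        intro y
        exact if_neg (fun h => hne _ _ _ _ h.symm)
      rw [Finset.sum_congr rfl (fun x _ => a1 x), Finset.sum_congr rfl (fun y _ => a2 y),
        sum_sig (fun a => w (Fin.castAdd n2 a)) j, Finset.sum_const_zero, Nat.add_zero,
        Fin.append_left]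
    · have a1 : ∀ x : (Σ a : Fin n1, Fin (w (Fin.castAdd n2 a))),
          (if π' (Sum.inl x) = Fin.natAdd n1 j then 1 else 0) = 0 := by
        intro x
        exact if_neg (fun h => hne _ _ _ _ h)
      have a2 : ∀ y : Fin k,
          (if π' (Sum.inr y) = Fin.natAdd n1 j then 1 else 0) = if y = j then 1 else 0 := by
        intro y
        have : (π' (Sum.inr y) = Fin.natAdd n1 j) ↔ y = j :=
          (Fin.natAdd_injective k n1).eq_iff
        simp only [this]
      rw [Finset.sum_congr rfl (fun x _ => a1 x), Finset.sum_congr rfl (fun y _ => a2 y),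
        Finset.sum_const_zero, Nat.zero_add, Fin.append_right]
      simp
  have hA := h1 K ((Σ a : Fin n1, Fin (w (Fin.castAdd n2 a))) ⊕ Fin k) (n1 + n2) (n1 + k) d p π π' f hf
  rw [hπ, hπ'] at hA
  exact hA (h2 K k n1 d p (fun a => w (Fin.castAdd n2 a)) hV)

end Pool.Agent.Work.MP_1233f5_ag.TL
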