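import Pool.Agent.Work.MP_1233f5_ag.TL.Stmts

set_option autoImplicit false

namespace Pool.Agent.Work.MP_1233f5_ag.TL

open Finset
open Pool.Agent.Work.MP_1233f5_ag.V

namespace IPolA

theorem invF_comp {K α : Type} {n n' p : ℕ} {π : α → Fin n} {π' : α → Fin n'} {f : Fin n' → Fin n}
    (hf : ∀ a, π a = f (π' a)) {C : (Fin p → Finset α) → K} (h : InvF π C) : InvF π' C := by
  intro σ hσ t
  refine h σ (fun a => ?_) t
  rw [hf, hf, hσ]

end IPolA

theorem pr_PolA : S_PolA := by
  intro K _ _ α _ _ n n' d p π π' f hf hvan c hc hcyc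
  have hPbD := h_PbD
  have hPbSurj := h_PbSurj
  have hLiftT := pr_LiftT
  have hTyW := pr_TyW
  classical
  obtain ⟨hC, hCinv⟩ := h_PbCh K α n d p π c hc
  have hCc : rcyc univ (vm d (univ : Finset α)) p (pb d π c) := by
    cases p with
    | zero => trivial
    | succ p =>
      intro t ht
      rw [hPbD K α n d p π c hc t ht, hcyc _ (hTyW α n d p π t ht), mul_zero]
  obtain ⟨g, hg, hdg⟩ := h_TransA K α n' d p π' hvan (pb d π c) hC hCc (IPolA.invF_comp hf hCinv)
  -- averaging
  let G := TransB_G π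
  let N : K := (Fintype.card G : K)
  have hN : N ≠ 0 := by
    simp only [N]
    exact Nat.cast_ne_zero.2 Fintype.card_ne_zero
  let g' : (Fin (p + 1) → Finset α) → K := fun t =>
    N⁻¹ * ∑ σ : G, g (fun i => (t i).map (σ : Equiv.Perm α).toEmbedding)
  have hg'ch : rCh (vm d (univ : Finset α)) (p + 1) g' := by
    constructor
    · apply Alt.smul
      apply Alt.sum
      intro σ _ τ t
      exact hg.1 τ (fun i => (t i).map (σ : Equiv.Perm α).toEmbedding)
    · intro t ht
      have h1 : (∑ σ : G, g (fun i => (t i).map (σ : Equiv.Perm α).toEmbedding)) ≠ 0 := by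
        intro h0
        apply ht
        simp only [g', h0, mul_zero]
      obtain ⟨σ, _, hσ⟩ := Finset.exists_ne_zero_of_sum_ne_zero h1
      exact TransB_vm d _ σ t (hg.2 _ hσ)
  have hg'inv : InvF π g' := by
    intro τ hτ t
    simp only [g']
    congr 1
    let τ' : G := ⟨τ, hτ⟩
    refine Fintype.sum_equiv (Equiv.mulRight τ') _ _ (fun σ => ?_)
    congr 1
    funext i
    rw [Finset.map_map]
    rfl
  have hdg' : ∀ t, vm d (univ : Finset α) p t → dd univ g' t = pb d π c t := by
    intro t ht
    have h1 : dd univ g' t = N⁻¹ * ∑ σ : G, dd univ g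
        (fun i => (t i).map (σ : Equiv.Perm α).toEmbedding) := by
      simp only [dd, g']
      rw [← Finset.mul_sum, Finset.sum_comm]
      congr 1
      refine Finset.sum_congr rfl (fun σ _ => ?_)
      refine Fintype.sum_equiv (Equiv.finsetCongr (σ : Equiv.Perm α)) _ _ (fun b => ?_)
      congr 1
      funext i
      refine Fin.cases ?_ (fun i => ?_) i
      · simp [Equiv.finsetCongr_apply]
      · simp
    rw [h1]
    have h2 : ∀ σ : G, dd univ g (fun i => (t i).map (σ : Equiv.Perm α).toEmbedding) =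
        pb d π c t := by
      intro σ
      rw [hdg _ (TransB_vm' d p σ t ht)]
      exact hCinv σ σ.2 t
    rw [Finset.sum_congr rfl (fun σ _ => h2 σ), Finset.sum_const, Finset.card_univ, nsmul_eq_mul,
      ← mul_assoc]
    have : N⁻¹ * (Fintype.card G : K) = 1 := inv_mul_cancel₀ hN
    rw [this, one_mul]
  obtain ⟨h, hh, hhe⟩ := hPbSurj K α n d (p + 1) π g' hg'ch hg'inv
  refine ⟨h, hh, fun s hs => ?_⟩
  obtain ⟨t, ht, hts⟩ := hLiftT α n d p π s hs
  have hst : (fun i => tyv π (t i)) = s := funext hts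
  have e1 := hPbD K α n d p π h hh t ht
  have e2 : dd univ (pb d π h) t = dd univ g' t := by
    have : (pb d π h) = g' := funext hhe
    rw [this]
  rw [e2, hdg' t ht, hst] at e1
  have e3 : pb d π c t = (mu (fib π) s : K) * c s := by
    unfold pb
    rw [if_pos ht, hst]
  rw [e3] at e1
  exact (mul_left_cancel₀ (Nat.cast_ne_zero.2 (TransB_mu (fib π) s)) e1).symm

end Pool.Agent.Work.MP_1233f5_ag.TL
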