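import Pool.Agent.Work.MP_1233f5_ag.TL.Stmts

set_option autoImplicit false

/-!
# MP_1233f5_ag, block TL, item PolB (helper18): relabelling
-/

namespace Pool.Agent.Work.MP_1233f5_ag.TL

open Finset
open Pool.Agent.Work.MP_1233f5_ag.V (Alt dd wdg Pred rCh rcyc rVan Mo vw)

namespace IPolB

/-- the label as a monomial -/
def ph {k n : ℕ} (e : Lb k n) : Fin (n + k) → ℕ := Fin.append e.2 (fun i => if i ∈ e.1 then 1 else 0)

/-- the monomial as a label -/
def ps {k n : ℕ} (m : Fin (n + k) → ℕ) : Lb k n :=
  (univ.filter (fun i : Fin k => m (Fin.natAdd n i) ≠ 0), fun a => m (Fin.castAdd k a))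

theorem ps_ph {k n : ℕ} (e : Lb k n) : ps (ph e) = e := by
  obtain ⟨S, v⟩ := e
  unfold ps ph
  refine Prod.ext ?_ ?_
  · ext i
    simp only [Finset.mem_filter, Finset.mem_univ, true_and, Fin.append_right]
    by_cases h : i ∈ S <;> simp [h]
  · funext a
    simp only [Fin.append_left]

theorem ph_inj {k n : ℕ} {e e' : Lb k n} (h : ph e = ph e') : e = e' := by
  rw [← ps_ph e, h, ps_ph]

theorem ph_ps {k n : ℕ} (m : Fin (n + k) → ℕ) (h : ∀ i : Fin k, m (Fin.natAdd n i) ≤ 1) :
    ph (ps m) = m := by
  unfold ph ps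
  funext x
  refine Fin.addCases (fun a => ?_) (fun i => ?_) x
  · rw [Fin.append_left]
  · rw [Fin.append_right]
    have h1 := h i
    simp only [Finset.mem_filter, Finset.mem_univ, true_and]
    split_ifs with h2
    · omega
    · push Not at h2
      omega

theorem sum_ph {k n : ℕ} (e : Lb k n) : ∑ x, ph e x = ∑ a, e.2 a + e.1.card := by
  unfold ph
  rw [Fin.sum_univ_add]
  simp only [Fin.append_left, Fin.append_right]
  rw [Finset.sum_ite_mem, Finset.univ_inter, Finset.sum_const, smul_eq_mul, mul_one]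

theorem ph_mem {k n d : ℕ} (e : Lb k n) : ph e ∈ Mo (n + k) d ↔ e ∈ La k n d := by
  rw [mem_La]
  unfold Mo
  rw [Finset.mem_piAntidiag]
  constructor
  · rintro ⟨h, -⟩
    rw [sum_ph] at h
    omega
  · intro h
    refine ⟨?_, fun i _ => mem_univ i⟩
    rw [sum_ph]
    omega

theorem le_one {k n p d : ℕ} {w : Fin n → ℕ} {s : Fin p → (Fin (n + k) → ℕ)}
    (h : vw d (Fin.append w (fun _ : Fin k => 1)) p s) (i : Fin p) (j : Fin k) :
    s i (Fin.natAdd n j) ≤ 1 := by
  have h1 := h.2 (Fin.natAdd n j)
  rw [Fin.append_right, Finset.sum_apply] at h1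
  exact (Finset.single_le_sum (f := fun i => s i (Fin.natAdd n j)) (fun i _ => Nat.zero_le _)
    (mem_univ i)).trans h1

theorem GG {k n p d : ℕ} (w : Fin n → ℕ) (t : Fin p → Lb k n) :
    vw d (Fin.append w (fun _ : Fin k => 1)) p (fun i => ph (t i)) ↔
      vZ (La k n d) univ (fun a => (w a : ℤ)) ∅ p t := by
  constructor
  · rintro ⟨h1, h2⟩
    refine ⟨fun i => ⟨(ph_mem _).1 (h1 i), Finset.subset_univ _⟩, fun i j hij => ?_, ?_, ?_⟩
    · rw [Finset.disjoint_left]
      intro y hi hj
      have h3 := h2 (Fin.natAdd n y)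
      rw [Fin.append_right, Finset.sum_apply] at h3
      have h4 : ∑ l ∈ ({i, j} : Finset (Fin p)), ph (t l) (Fin.natAdd n y) ≤
          ∑ l, ph (t l) (Fin.natAdd n y) :=
        Finset.sum_le_sum_of_subset_of_nonneg (Finset.subset_univ _) fun _ _ _ => Nat.zero_le _
      rw [Finset.sum_pair hij] at h4
      have h5 : ph (t i) (Fin.natAdd n y) = 1 := by
        unfold ph
        rw [Fin.append_right, if_pos hi]
      have h6 : ph (t j) (Fin.natAdd n y) = 1 := by
        unfold ph
        rw [Fin.append_right, if_pos hj]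
      have h7 : ∑ l, ph (t l) (Fin.natAdd n y) ≤ 1 := h3
      omega
    · intro a ha
      exact absurd ha (Finset.notMem_empty a)
    · intro a _
      have h3 := h2 (Fin.castAdd k a)
      rw [Fin.append_left, Finset.sum_apply] at h3
      have h4 : ∀ l, ph (t l) (Fin.castAdd k a) = (t l).2 a := fun l => by
        unfold ph
        rw [Fin.append_left]
      simp only [h4] at h3
      unfold rem
      have h5 : (∑ l, ((t l).2 a : ℤ)) ≤ w a := by exact_mod_cast h3
      linarith
  · rintro ⟨h1, h2, -, h3⟩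
    refine ⟨fun i => (ph_mem _).2 (h1 i).1, fun x => ?_⟩
    rw [Finset.sum_apply]
    refine Fin.addCases (fun a => ?_) (fun y => ?_) x
    · rw [Fin.append_left]
      have h4 : ∀ l, ph (t l) (Fin.castAdd k a) = (t l).2 a := fun l => by
        unfold ph
        rw [Fin.append_left]
      simp only [h4]
      have h5 := h3 a (Finset.notMem_empty a)
      unfold rem at h5
      have h6 : (∑ l, ((t l).2 a : ℤ)) ≤ w a := by linarith
      exact_mod_cast h6
    · rw [Fin.append_right]
      have h4 : ∀ l, ph (t l) (Fin.natAdd n y) = if y ∈ (t l).1 then 1 else 0 := fun l => by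
        unfold ph
        rw [Fin.append_right]
      simp only [h4]
      rw [Finset.sum_boole, Nat.cast_id, Finset.card_le_one]
      intro i hi j hj
      rw [Finset.mem_filter] at hi hj
      by_contra hij
      exact (Finset.disjoint_left.1 (h2 i j hij) hi.2) hj.2

/-- sums over the monomials of functions supported on the monomials of labels -/
theorem sum_Mo {K : Type} [Field K] {k n d : ℕ} (F : (Fin (n + k) → ℕ) → K)
    (hF : ∀ m ∈ Mo (n + k) d, (∀ e : Lb k n, ph e ≠ m) → F m = 0) :
    ∑ m ∈ Mo (n + k) d, F m = ∑ e ∈ La k n d, F (ph e) := by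
  symm
  refine Finset.sum_of_injOn ph (fun e _ e' _ h => ph_inj h)
    (fun e he => (ph_mem e).2 he) (fun m hm h => ?_) fun e _ => rfl
  refine hF m hm fun e he => h ⟨e, ?_, he⟩
  have h1 : ph e ∈ Mo (n + k) d := by
    rw [he]
    exact hm
  exact (ph_mem e).1 h1

theorem cons_ph {k n p : ℕ} (e : Lb k n) (t : Fin p → Lb k n) :
    (Fin.cons (ph e) (fun i => ph (t i)) : Fin (p + 1) → (Fin (n + k) → ℕ)) =
      fun i => ph ((Fin.cons e t : Fin (p + 1) → Lb k n) i) := by
  funext i
  refine Fin.cases ?_ (fun j => ?_) i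
  · simp only [Fin.cons_zero]
  · simp only [Fin.cons_succ]

end IPolB

open IPolB in
theorem pr_PolB : S_PolB := by
  intro K _ _ k n d p w hV c hc hcy
  have hG := fun (q : ℕ) (t : Fin q → Lb k n) => GG (d := d) w t
  set G' := vw (n := n + k) d (Fin.append w (fun _ : Fin k => 1)) with hG'
  set G := vZ (La k n d) univ (fun a => (w a : ℤ)) ∅ with hGdef
  -- chains on labels
  have hA : Alt p (fun t : Fin p → Lb k n => c (fun i => ph (t i))) := by
    intro σ t
    exact hc.1 σ (fun i => ph (t i))
  have hS : ∀ t : Fin p → Lb k n, c (fun i => ph (t i)) ≠ 0 → G p t := fun t ht =>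
    (hG p t).1 (hc.2 _ ht)
  have hdd : ∀ (q : ℕ) (f : (Fin (q + 1) → (Fin (n + k) → ℕ)) → K) (t : Fin q → Lb k n),
      (∀ s, f s ≠ 0 → G' (q + 1) s) →
      dd (Mo (n + k) d) f (fun i => ph (t i)) =
        dd (La k n d) (fun t' : Fin (q + 1) → Lb k n => f (fun i => ph (t' i))) t := by
    intro q f t hf
    unfold dd
    rw [sum_Mo (fun m => f (Fin.cons m (fun i => ph (t i))))]
    · refine Finset.sum_congr rfl fun e _ => ?_
      rw [cons_ph]
    · intro m _ hme
      by_contra h0
      have h1 := hf _ h0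
      refine hme (ps m) (ph_ps m fun j => ?_)
      have h2 := le_one h1 0 j
      simpa using h2
  have hcy' : rcyc (La k n d) G p (fun t : Fin p → Lb k n => c (fun i => ph (t i))) := by
    cases p with
    | zero => trivial
    | succ q =>
      intro t ht
      have h1 := hcy (fun i => ph (t i)) ((hG q t).2 ht)
      rw [hdd q c t hc.2] at h1
      exact h1
  obtain ⟨g, hg, hgc⟩ := hV (fun t : Fin p → Lb k n => c (fun i => ph (t i))) ⟨hA, hS⟩ hcy'
  classical
  refine ⟨fun s => if ∀ i, ph (ps (s i)) = s i then g (fun i => ps (s i)) else 0, ⟨?_, ?_⟩, ?_⟩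
  · intro σ s
    by_cases h : ∀ i, ph (ps (s i)) = s i
    · have h1 : ∀ i, ph (ps ((s ∘ σ) i)) = (s ∘ σ) i := fun i => h (σ i)
      simp only [if_pos h, if_pos h1]
      exact hg.1 σ (fun i => ps (s i))
    · have h1 : ¬ ∀ i, ph (ps ((s ∘ σ) i)) = (s ∘ σ) i := by
        intro h2
        refine h fun i => ?_
        have h3 := h2 (σ.symm i)
        simpa using h3
      simp only [if_neg h, if_neg h1, mul_zero]
  · intro s hs
    by_cases h : ∀ i, ph (ps (s i)) = s i
    · simp only [if_pos h] at hs
      have h1 := (hG (p + 1) _).2 (hg.2 _ hs)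
      have h2 : (fun i => ph (ps (s i))) = s := funext h
      rw [h2] at h1
      exact h1
    · simp only [if_neg h] at hs
      exact absurd rfl hs
  · intro s hs
    have h1 : ∀ i, ph (ps (s i)) = s i := fun i => ph_ps _ fun j => le_one hs i j
    have h2 : (fun i => ph (ps (s i))) = s := funext h1
    have h3 : G p (fun i => ps (s i)) := by
      refine (hG p _).1 ?_
      rw [h2]
      exact hs
    have h4 := hgc _ h3
    have h5 := hdd p (fun s => if ∀ i, ph (ps (s i)) = s i then g (fun i => ps (s i)) else 0)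
      (fun i => ps (s i)) ?_
    · simp only [h2] at h4 h5 ⊢
      rw [h5, ← h4]
      unfold dd
      refine Finset.sum_congr rfl fun e _ => ?_
      simp only [ps_ph, implies_true, if_true]
    · intro s' hs'
      by_cases h : ∀ i, ph (ps (s' i)) = s' i
      · simp only [if_pos h] at hs'
        have h6 := (hG (p + 1) _).2 (hg.2 _ hs')
        have h7 : (fun i => ph (ps (s' i))) = s' := funext h
        rw [h7] at h6
        exact h6
      · simp only [if_neg h] at hs'
        exact absurd rfl hs'

end Pool.Agent.Work.MP_1233f5_ag.TL
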