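import Pool.Agent.Work.MP_1233f5_ag.TL.Stmts

/-! MP_1233f5_ag, block TL, item ShI: the shift, iterated. -/

set_option autoImplicit false

namespace Pool.Agent.Work.MP_1233f5_ag.TL

open Finset
open Pool.Agent.Work.MP_1233f5_ag.V (Alt dd wdg Pred rCh rcyc rVan Mo vw)

namespace IShI

theorem step (h1 : S_Sh) (K : Type) [Field K] [CharZero K] (k n d : ℕ) (M : Finset (Lb k n))
    (Y : Finset (Fin k)) (w : Fin n → ℤ) (hM : ∀ i, xi k d i ∈ M) (m : ℕ) :
    ∀ (J : Finset (Fin n)) (q : ℕ) (c : (Fin q → Lb k n) → K), (univ \ J).card = m →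
      rCh (vZ M Y w J) q c → rcyc M (vZ M Y w J) q c → (∀ t, c t ≠ 0 → Tp Y t) →
      (∀ r, r = q + m → ∀ c' : (Fin r → Lb k n) → K, rCh (vZ M Y w univ) r c' →
        (∀ t, c' t ≠ 0 → Tp Y t) → Bdy M (vZ M Y w univ) r c') →
      Bdy M (vZ M Y w J) q c := by
  induction m with
  | zero =>
    intro J q c hJ h2 _ h4 h5
    have hJ' : J = univ := by
      rw [Finset.card_eq_zero, Finset.sdiff_eq_empty_iff_subset] at hJ
      exact Finset.univ_subset_iff.1 hJ
    subst hJ'
    exact h5 q rfl c h2 h4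
  | succ m ih =>
    intro J q c hJ h2 h3 h4 h5
    have hne : (univ \ J).Nonempty := by
      rw [← Finset.card_pos, hJ]
      omega
    obtain ⟨i, hi⟩ := hne
    have hiJ : i ∉ J := (Finset.mem_sdiff.1 hi).2
    obtain ⟨c', g1, g2, g3, g4⟩ := h1 K k n d q M Y w J i c hiJ (hM i) h2 h3
    apply g4
    apply ih (insert i J) (q + 1) c' _ g1 g2 (g3 h4)
    · intro r hr c'' e1 e2
      exact h5 r (by omega) c'' e1 e2
    · have e1 : univ \ insert i J = (univ \ J).erase i := by
        ext a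
        simp only [Finset.mem_sdiff, Finset.mem_univ, true_and, Finset.mem_insert,
          Finset.mem_erase, not_or]
      rw [e1, Finset.card_erase_of_mem hi, hJ]
      rfl

end IShI

open IShI in
/-- Item ShI. -/
theorem pr_ShI (h1 : S_Sh) : S_ShI := by
  intro K _ _ k n d p M Y w c hM h2 h3 h4 h5
  apply step h1 K k n d M Y w hM n ∅ p c (by simp) h2 h3 h4
  intro r hr c' e1 e2
  subst hr
  exact h5 c' e1 e2

end Pool.Agent.Work.MP_1233f5_ag.TL
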