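import Pool.Agent.Work.MP_1233f5_ag.TL.Stmts

/-! MP_1233f5_ag, block TL, item Small: few variables. -/

set_option autoImplicit false

namespace Pool.Agent.Work.MP_1233f5_ag.TL

open Finset
open Pool.Agent.Work.MP_1233f5_ag.V (Alt dd wdg Pred rCh rcyc rVan Mo vw vm fib vJ)

namespace ISmall

theorem empty {n d p T : ℕ} {w : Fin n → ℕ} (hw : ∑ a, w a = p * d + T)
    (hT : n * (d - 1) < T) (hd : 1 ≤ d) (t : Fin p → (Fin n → ℕ)) : ¬ vJ d w univ p t := by
  rintro ⟨h1, h2⟩
  have h3 : ∀ j ∈ (univ : Finset (Fin n)), w j ≤ (d - 1) + ∑ i, t i j := by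
    intro j hj
    have := (h2 j hj).2
    omega
  have h4 := Finset.sum_le_sum h3
  rw [Finset.sum_add_distrib, Finset.sum_const, Finset.card_univ, Fintype.card_fin,
    Finset.sum_comm] at h4
  have h5 : ∀ i ∈ (univ : Finset (Fin p)), ∑ j, t i j = d := fun i _ =>
    Pool.Agent.Work.MP_1233f5_ag.V.Bridge_mem.1 (h1.1 i)
  rw [Finset.sum_congr rfl h5, hw] at h4
  simp only [Finset.sum_const, Finset.card_univ, Fintype.card_fin, smul_eq_mul] at h4
  omega

end ISmall

theorem pr_Small : S_Small := by
  classical
  intro K _ _ n d p T w hd hw hT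
  have key : ∀ S : Finset (Fin n), rVan K (Mo n d) (vJ d w (univ \ S)) p := by
    intro S
    induction S using Finset.induction_on with
    | empty =>
      rw [Finset.sdiff_empty]
      intro c hc _
      refine ⟨fun _ => 0, ⟨fun σ t => by simp, fun t ht => absurd rfl ht⟩, fun t ht => ?_⟩
      exact absurd ht (ISmall.empty hw hT hd t)
    | insert a S ha ih =>
      refine Pool.Agent.Work.MP_1233f5_ag.V.pr_RS K n d p w _ a hd (by simp) ?_
      have h1 : insert a (univ \ insert a S) = univ \ S := by
        ext x
        simp only [Finset.mem_insert, Finset.mem_sdiff, Finset.mem_univ, true_and]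
        constructor
        · rintro (rfl | h)
          · exact ha
          · exact fun hx => h (Or.inr hx)
        · intro h
          by_cases hx : x = a
          · exact Or.inl hx
          · exact Or.inr (fun h' => h'.elim hx h)
      rw [h1]
      exact ih
  have h0 := key univ
  have h1 : vJ d w (univ \ (univ : Finset (Fin n))) = vw d w := by
    funext p t
    rw [Finset.sdiff_self]
    apply propext
    constructor
    · exact fun h => h.1
    · exact fun h => ⟨h, fun j hj => absurd hj (Finset.notMem_empty j)⟩
  rw [h1] at h0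
  exact h0

end Pool.Agent.Work.MP_1233f5_ag.TL
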