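import Pool.Agent.Work.MP_1233f5_ag.TL.Stmts
import Pool.Agent.Work.MP_1233f5_ag.V.I_Green

/-! MP_1233f5_ag, block TL, item StarC (helper79): the star lemma, contraction form. -/

set_option autoImplicit false

namespace Pool.Agent.Work.MP_1233f5_ag.TL

open Finset
open Pool.Agent.Work.MP_1233f5_ag.V (Alt dd wdg Pred rCh rcyc rVan Mo vw vm fib)

namespace IStarC

open Pool.Agent.Work.MP_1233f5_ag.V.Green (E E_inj E_add ext_self ext_update mem_Mo)
open Pool.Agent.Work.MP_1233f5_ag.V.Green renaming ext → gxt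

section basics

variable {K : Type} [Field K] {n : ℕ} {L : Type} [Fintype L] [DecidableEq L]

/-- the monomial with exponent `a` in the variables number `l` -/
noncomputable def mono (K : Type) [Field K] {n : ℕ} {L : Type} (l : L) (a : Fin n → ℕ) :
    MvPolynomial (L × Fin n) K :=
  ∏ i : Fin n, (MvPolynomial.X (l, i) : MvPolynomial (L × Fin n) K) ^ (a i)

theorem mono_eq (l : L) (a : Fin n → ℕ) :
    mono K l a = MvPolynomial.monomial (E (Pi.single l a : L → (Fin n → ℕ))) (1 : K) := by
  rw [MvPolynomial.monomial_eq, Finsupp.prod_fintype _ _ (fun i => pow_zero _), map_one, one_mul,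
    Fintype.prod_prod_type, Finset.prod_eq_single l]
  · refine Finset.prod_congr rfl fun i _ => ?_
    rw [V.Green.E_apply, Pi.single_eq_same]
  · intro l' _ hl
    refine Finset.prod_eq_one fun i _ => ?_
    rw [V.Green.E_apply, Pi.single_eq_of_ne hl, Pi.zero_apply, pow_zero]
  · intro h
    exact absurd (Finset.mem_univ _) h

theorem mono_mul (l : L) (a : Fin n → ℕ) (x : L → (Fin n → ℕ)) (z : K) :
    mono K l a * MvPolynomial.monomial (E x) z =
      MvPolynomial.monomial (E (Function.update x l (a + x l))) z := by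
  rw [mono_eq, MvPolynomial.monomial_mul, one_mul, E_add]
  refine congrArg (fun y => MvPolynomial.monomial (E y) z) ?_
  funext l'
  by_cases h : l' = l
  · subst h
    rw [Pi.add_apply, Pi.single_eq_same, Function.update_self]
  · rw [Pi.add_apply, Pi.single_eq_of_ne h, Function.update_of_ne h, zero_add]

end basics

section main

variable {K : Type} [Field K] {n d T' k j : ℕ} {w : Fin n → ℤ}
  {c : (Fin (j + 1) → (Fin n → ℕ)) → (Fin k → (Fin n → ℕ)) → K}
  {cs : Fin k → (Fin j → (Fin n → ℕ)) → (Fin k → (Fin n → ℕ)) → K}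
  {L : Type} [Fintype L] [DecidableEq L] (e : L ↪ Fin (j + 1)) (t0 : Fin (j + 1) → (Fin n → ℕ))

/-- exponent of the variables number `l` -/
def Ae (w : Fin n → ℤ) (m : Fin k → (Fin n → ℕ)) (y : Fin j → (Fin n → ℕ)) : Fin n → ℕ :=
  fun b => (w b + ∑ s, (m s b : ℤ) - ∑ i, (y i b : ℤ)).toNat

/-- exponent of the variables number `l` without the letter `s` -/
def Be (w : Fin n → ℤ) (s : Fin k) (m : Fin k → (Fin n → ℕ)) (y : Fin j → (Fin n → ℕ)) :
    Fin n → ℕ :=
  fun b => (w b + ∑ s' ∈ univ.erase s, (m s' b : ℤ) - ∑ i, (y i b : ℤ)).toNat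

theorem Be_update (s : Fin k) (m : Fin k → (Fin n → ℕ)) (y : Fin j → (Fin n → ℕ))
    (v : Fin n → ℕ) : Be w s (Function.update m s v) y = Be w s m y := by
  funext b
  unfold Be
  congr 3
  refine Finset.sum_congr rfl fun s' hs' => ?_
  rw [Function.update_of_ne (Finset.ne_of_mem_erase hs')]

theorem add_Be (s : Fin k) (m : Fin k → (Fin n → ℕ)) (y : Fin j → (Fin n → ℕ))
    (h : ∀ a, ∑ i, (y i a : ℤ) ≤ w a + ∑ s' ∈ univ.erase s, (m s' a : ℤ)) :
    m s + Be w s m y = Ae w m y := by
  funext b
  have h1 := h b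
  have h2 : ∑ s', (m s' b : ℤ) = (m s b : ℤ) + ∑ s' ∈ univ.erase s, (m s' b : ℤ) :=
    (Finset.add_sum_erase _ _ (Finset.mem_univ s)).symm
  change m s b + (w b + ∑ s' ∈ univ.erase s, (m s' b : ℤ) - ∑ i, (y i b : ℤ)).toNat =
    (w b + ∑ s', (m s' b : ℤ) - ∑ i, (y i b : ℤ)).toNat
  rw [h2]
  omega

omit [DecidableEq L] in
theorem ext_mem {x : L → (Fin n → ℕ)} (hx : ∀ l, x l ∈ Mo n d) (ht : ∀ i, t0 i ∈ Mo n d)
    (i : Fin (j + 1)) : gxt e t0 x i ∈ Mo n d := by
  by_cases h : ∃ l, e l = i
  · obtain ⟨l, rfl⟩ := h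
    rw [gxt, e.injective.extend_apply]
    exact hx l
  · rw [gxt, Function.extend_apply' _ _ _ h]
    exact ht i

omit [Fintype L] [DecidableEq L] in
theorem ext_apply (x : L → (Fin n → ℕ)) (l : L) : gxt e t0 x (e l) = x l :=
  e.injective.extend_apply _ _ _

theorem rem_update (x : L → (Fin n → ℕ)) (l : L) (v : Fin n → ℕ) :
    (e l).removeNth (gxt e t0 (Function.update x l v)) = (e l).removeNth (gxt e t0 x) := by
  rw [ext_update, Fin.removeNth_update]

/-- the generating polynomials -/
noncomputable def Wp (d : ℕ) (w : Fin n → ℤ)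
    (c : (Fin (j + 1) → (Fin n → ℕ)) → (Fin k → (Fin n → ℕ)) → K) (m : Fin k → (Fin n → ℕ))
    (a : Fin n → ℕ) : MvPolynomial (L × Fin n) K :=
  ∑ x ∈ Fintype.piFinset (fun _ : L => Mo n d),
    if ∀ b, w b + ∑ s, (m s b : ℤ) - ∑ i, (gxt e t0 x i b : ℤ) = (a b : ℤ) then
      MvPolynomial.monomial (E x) (c (gxt e t0 x) m) else 0

/-- the generating polynomials of the right side -/
noncomputable def Qp (d : ℕ) (w : Fin n → ℤ)
    (cs : Fin k → (Fin j → (Fin n → ℕ)) → (Fin k → (Fin n → ℕ)) → K) (l : L) (s : Fin k)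
    (m : Fin k → (Fin n → ℕ)) : MvPolynomial (L × Fin n) K :=
  ∑ x ∈ Fintype.piFinset (fun l' : L => if l' = l then ({0} : Finset (Fin n → ℕ)) else Mo n d),
    MvPolynomial.monomial (E (Function.update x l (Be w s m ((e l).removeNth (gxt e t0 x)))))
      ((-1) ^ (e l : ℕ) * cs s ((e l).removeNth (gxt e t0 x)) m)

theorem Qp_update (h4 : ∀ s t m v, cs s t (Function.update m s v) = cs s t m) (l : L)
    (s : Fin k) (m : Fin k → (Fin n → ℕ)) (v : Fin n → ℕ) :
    Qp e t0 d w cs l s (Function.update m s v) = Qp e t0 d w cs l s m := by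
  unfold Qp
  refine Finset.sum_congr rfl fun x _ => ?_
  rw [Be_update, h4]

theorem Wp_coeff (x0 : L → (Fin n → ℕ)) (h0 : ∀ l, x0 l ∈ Mo n d) (m : Fin k → (Fin n → ℕ))
    (a : Fin n → ℕ)
    (ha : ∀ b, w b + ∑ s, (m s b : ℤ) - ∑ i, (gxt e t0 x0 i b : ℤ) = (a b : ℤ)) :
    MvPolynomial.coeff (E x0) (Wp e t0 d w c m a) = c (gxt e t0 x0) m := by
  rw [Wp, MvPolynomial.coeff_sum, Finset.sum_eq_single x0]
  · rw [if_pos ha, MvPolynomial.coeff_monomial, if_pos rfl]
  · intro x _ hx
    split_ifs
    · rw [MvPolynomial.coeff_monomial, if_neg]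
      intro h; exact hx (E_inj h)
    · simp
  · intro h
    exact absurd (Fintype.mem_piFinset.mpr h0) h

theorem deg_mem (h6 : ∑ a, w a + (k : ℤ) * ((d - 1 : ℕ) : ℤ) = ((j : ℤ) + 1) * d + T')
    {t : Fin (j + 1) → (Fin n → ℕ)} {m : Fin k → (Fin n → ℕ)} (ht : ∀ i, t i ∈ Mo n d)
    (hm : ∀ s, m s ∈ Mo n (d - 1))
    (hle : ∀ a, ∑ i, (t i a : ℤ) ≤ w a + ∑ s, (m s a : ℤ)) :
    (fun b => (w b + ∑ s, (m s b : ℤ) - ∑ i, (t i b : ℤ)).toNat) ∈ Mo n T' := by
  rw [mem_Mo]
  have h1 : ((∑ b, (w b + ∑ s, (m s b : ℤ) - ∑ i, (t i b : ℤ)).toNat : ℕ) : ℤ) = T' := by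
    rw [Nat.cast_sum]
    have h2 : ∀ b ∈ (univ : Finset (Fin n)),
        (((w b + ∑ s, (m s b : ℤ) - ∑ i, (t i b : ℤ)).toNat : ℕ) : ℤ) =
          w b + ∑ s, (m s b : ℤ) - ∑ i, (t i b : ℤ) := fun b _ =>
      Int.toNat_of_nonneg (by linarith [hle b])
    have h3 : ∑ b : Fin n, ∑ s, (m s b : ℤ) = (k : ℤ) * ((d - 1 : ℕ) : ℤ) := by
      rw [Finset.sum_comm]
      have h5 : ∀ s ∈ (univ : Finset (Fin k)), ∑ b, (m s b : ℤ) = ((d - 1 : ℕ) : ℤ) := by
        intro s _
        rw [← mem_Mo.1 (hm s), Nat.cast_sum]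
      rw [Finset.sum_congr rfl h5, Finset.sum_const, Finset.card_univ, Fintype.card_fin,
        nsmul_eq_mul]
    have h4 : ∑ b : Fin n, ∑ i, (t i b : ℤ) = ((j : ℤ) + 1) * d := by
      rw [Finset.sum_comm]
      have h5 : ∀ i ∈ (univ : Finset (Fin (j + 1))), ∑ b, (t i b : ℤ) = (d : ℤ) := by
        intro i _
        rw [← mem_Mo.1 (ht i), Nat.cast_sum]
      rw [Finset.sum_congr rfl h5, Finset.sum_const, Finset.card_univ, Fintype.card_fin,
        nsmul_eq_mul]
      push_cast
      ring
    rw [Finset.sum_congr rfl h2, Finset.sum_sub_distrib, Finset.sum_add_distrib, h3, h4]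
    linarith
  exact_mod_cast h1

/-- the fundamental equation -/
theorem key (h1 : ∀ m, Alt (j + 1) (fun t => c t m))
    (h2 : ∀ t m, c t m ≠ 0 → (∀ i, t i ∈ Mo n d) ∧ (∀ s, m s ∈ Mo n (d - 1)) ∧
      ∀ a, ∑ i, (t i a : ℤ) ≤ w a + ∑ s, (m s a : ℤ))
    (h3 : ∀ s t m, cs s t m ≠ 0 → (∀ i, t i ∈ Mo n d) ∧ (∀ s', s' ≠ s → m s' ∈ Mo n (d - 1)) ∧
      ∀ a, ∑ i, (t i a : ℤ) ≤ w a + ∑ s' ∈ univ.erase s, (m s' a : ℤ))
    (h5 : ∀ (t : Fin j → (Fin n → ℕ)) (m : Fin k → (Fin n → ℕ)), (∀ i, t i ∈ Mo n d) →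
      (∀ s, m s ∈ Mo n (d - 1)) → ∑ v ∈ Mo n d, c (Fin.cons v t) m = ∑ s, cs s t m)
    (h6 : ∑ a, w a + (k : ℤ) * ((d - 1 : ℕ) : ℤ) = ((j : ℤ) + 1) * d + T')
    (ht0 : ∀ i, t0 i ∈ Mo n d) (l : L) (m : Fin k → (Fin n → ℕ))
    (hm : ∀ s, m s ∈ Mo n (d - 1)) :
    ∑ a ∈ Mo n T', mono K l a * Wp e t0 d w c m a = ∑ s, mono K l (m s) * Qp e t0 d w cs l s m := by
  -- expand
  have e1 : ∑ a ∈ Mo n T', mono K l a * Wp e t0 d w c m a =
      ∑ x ∈ Fintype.piFinset (fun _ : L => Mo n d),
        MvPolynomial.monomial (E (Function.update x l (Ae w m ((e l).removeNth (gxt e t0 x)))))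
          (c (gxt e t0 x) m) := by
    simp only [Wp, Finset.mul_sum]
    rw [Finset.sum_comm]
    refine Finset.sum_congr rfl fun x _ => ?_
    by_cases hx : c (gxt e t0 x) m = 0
    · rw [hx]
      simp
    · obtain ⟨k1, k2, k3⟩ := h2 _ _ hx
      rw [Finset.sum_eq_single
        (fun b => (w b + ∑ s, (m s b : ℤ) - ∑ i, (gxt e t0 x i b : ℤ)).toNat)]
      · have k4 : ∀ b, w b + ∑ s, (m s b : ℤ) - ∑ i, (gxt e t0 x i b : ℤ) =
            (((w b + ∑ s, (m s b : ℤ) - ∑ i, (gxt e t0 x i b : ℤ)).toNat : ℕ) : ℤ) := fun b =>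
          (Int.toNat_of_nonneg (by linarith [k3 b])).symm
        have k7 : (fun b => (w b + ∑ s, (m s b : ℤ) - ∑ i, (gxt e t0 x i b : ℤ)).toNat) + x l =
            Ae w m ((e l).removeNth (gxt e t0 x)) := by
          funext b
          have k5 := k3 b
          have k6 : ∑ i, (gxt e t0 x i b : ℤ) = (x l b : ℤ) +
              ∑ i, ((e l).removeNth (gxt e t0 x) i b : ℤ) := by
            rw [Fin.sum_univ_succAbove _ (e l), ext_apply]
            rfl
          change (w b + ∑ s, (m s b : ℤ) - ∑ i, (gxt e t0 x i b : ℤ)).toNat + x l b =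
            (w b + ∑ s, (m s b : ℤ) - ∑ i, ((e l).removeNth (gxt e t0 x) i b : ℤ)).toNat
          rw [k6] at k5 ⊢
          omega
        rw [if_pos k4, mono_mul, k7]
      · intro a _ ha
        rw [if_neg, mul_zero]
        intro hcon
        apply ha
        funext b
        rw [hcon b, Int.toNat_natCast]
      · intro h
        exact absurd (deg_mem h6 k1 k2 k3) h
  -- group by the entries different from `l`
  have e2 : ∑ x ∈ Fintype.piFinset (fun _ : L => Mo n d),
        MvPolynomial.monomial (E (Function.update x l (Ae w m ((e l).removeNth (gxt e t0 x)))))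
          (c (gxt e t0 x) m) =
      ∑ x ∈ Fintype.piFinset
        (fun l' : L => if l' = l then ({0} : Finset (Fin n → ℕ)) else Mo n d), ∑ v ∈ Mo n d,
        MvPolynomial.monomial (E (Function.update x l (Ae w m ((e l).removeNth (gxt e t0 x)))))
          (c (Function.update (gxt e t0 x) (e l) v) m) := by
    rw [← Finset.sum_product']
    refine Finset.sum_bij' (fun x _ => (Function.update x l 0, x l))
      (fun p _ => Function.update p.1 l p.2) ?_ ?_ ?_ ?_ ?_
    · intro x hx
      rw [Fintype.mem_piFinset] at hx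
      rw [Finset.mem_product, Fintype.mem_piFinset]
      refine ⟨fun l' => ?_, hx l⟩
      change Function.update x l 0 l' ∈ (if l' = l then ({0} : Finset (Fin n → ℕ)) else Mo n d)
      by_cases h : l' = l
      · subst h
        rw [if_pos rfl, Finset.mem_singleton, Function.update_self]
      · rw [if_neg h, Function.update_of_ne h]
        exact hx l'
    · rintro ⟨x, v⟩ hp
      rw [Finset.mem_product, Fintype.mem_piFinset] at hp
      rw [Fintype.mem_piFinset]
      intro l'
      by_cases h : l' = l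
      · subst h
        rw [Function.update_self]
        exact hp.2
      · rw [Function.update_of_ne h]
        have := hp.1 l'
        rwa [if_neg h] at this
    · intro x _
      change Function.update (Function.update x l 0) l (x l) = x
      rw [Function.update_idem, Function.update_eq_self]
    · rintro ⟨x, v⟩ hp
      rw [Finset.mem_product, Fintype.mem_piFinset] at hp
      have hx := hp.1 l
      rw [if_pos rfl, Finset.mem_singleton] at hx
      change (Function.update (Function.update x l v) l 0, Function.update x l v l) = (x, v)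
      rw [Function.update_idem, Function.update_self, ← hx, Function.update_eq_self]
    · intro x _
      change _ = MvPolynomial.monomial (E (Function.update (Function.update x l 0) l
        (Ae w m ((e l).removeNth (gxt e t0 (Function.update x l 0))))))
          (c (Function.update (gxt e t0 (Function.update x l 0)) (e l) (x l)) m)
      rw [rem_update, Function.update_idem, ← ext_update, Function.update_idem,
        Function.update_eq_self]
  -- the sum over the entry `l`
  have e3 : ∀ x ∈ Fintype.piFinset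
      (fun l' : L => if l' = l then ({0} : Finset (Fin n → ℕ)) else Mo n d),
      ∑ v ∈ Mo n d, c (Function.update (gxt e t0 x) (e l) v) m =
        ∑ s, (-1) ^ (e l : ℕ) * cs s ((e l).removeNth (gxt e t0 x)) m := by
    intro x hx
    rw [Fintype.mem_piFinset] at hx
    have k1 : ∀ i, gxt e t0 (Function.update x l (t0 (e l))) i ∈ Mo n d := by
      refine ext_mem e t0 (fun l' => ?_) ht0
      by_cases h : l' = l
      · subst h
        rw [Function.update_self]
        exact ht0 _
      · rw [Function.update_of_ne h]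
        have := hx l'
        rwa [if_neg h] at this
    have k2 : ∀ i, (e l).removeNth (gxt e t0 x) i ∈ Mo n d := by
      intro i
      rw [← rem_update e t0 x l (t0 (e l))]
      exact k1 _
    have k3 : ∀ v, c (Function.update (gxt e t0 x) (e l) v) m =
        (-1) ^ (e l : ℕ) * c (Fin.cons v ((e l).removeNth (gxt e t0 x))) m := by
      intro v
      have k4 := (h1 m).cons_removeNth (Function.update (gxt e t0 x) (e l) v) (e l)
      rw [Function.update_self, Fin.removeNth_update] at k4
      rw [k4, ← mul_assoc, ← pow_add, ← two_mul, pow_mul]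
      simp
    rw [Finset.sum_congr rfl fun v _ => k3 v, ← Finset.mul_sum, h5 _ _ k2 hm, Finset.mul_sum]
  rw [e1, e2]
  unfold Qp
  simp only [Finset.mul_sum]
  rw [Finset.sum_comm (s := univ)]
  refine Finset.sum_congr rfl fun x hx => ?_
  rw [← map_sum, e3 x hx, map_sum]
  refine Finset.sum_congr rfl fun s _ => ?_
  rw [mono_mul, Function.update_idem, Function.update_self]
  by_cases hc : cs s ((e l).removeNth (gxt e t0 x)) m = 0
  · rw [hc, mul_zero, map_zero, map_zero]
  · rw [add_Be s m _ (h3 _ _ _ hc).2.2]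

end main

end IStarC

open IStarC in
theorem pr_StarC (hD : S_Det) (hL : S_StarL) : S_StarC := by
  intro K _ _ n d T' k j w c cs _ h1 h2 h3 h4 h5 h6 h7 h8 t0 m0
  classical
  by_contra hne
  obtain ⟨ht0, hm0, hle0⟩ := h2 t0 m0 hne
  obtain ⟨e⟩ : Nonempty (Fin ((Mo n T').card + k) ↪ Fin (j + 1)) :=
    Function.Embedding.nonempty_of_card_le (by rw [Fintype.card_fin, Fintype.card_fin]; exact h7)
  obtain ⟨f⟩ : Nonempty (Fin ((Mo n T').card + k) ↪ ↥(Mo n (d - 1))) :=
    Function.Embedding.nonempty_of_card_le (by rw [Fintype.card_fin, Fintype.card_coe]; exact h8)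
  let L := Fin ((Mo n T').card + k)
  let R := MvPolynomial (L × Fin n) K
  let F := FractionRing R
  have inj : Function.Injective (algebraMap R F) := IsFractionRing.injective R F
  have hdet : ∀ (A : Type) [Fintype A] [DecidableEq A] (e' : A → L) (f' : A → (Fin n → ℕ)),
      Function.Injective e' → Function.Injective f' →
      (Matrix.of fun a a' : A => algebraMap R F (mono K (e' a) (f' a'))).det ≠ 0 := by
    intro A _ _ e' f' he' hf'
    have k1 := hD K n L A e' f' he' hf'
    have k2 : (Matrix.of fun a a' : A => algebraMap R F (mono K (e' a) (f' a'))) =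
        (algebraMap R F).mapMatrix (Matrix.of (fun a a' : A => ∏ i : Fin n,
          (MvPolynomial.X (e' a, i) : MvPolynomial (L × Fin n) K) ^ (f' a' i))) := rfl
    rw [k2, ← RingHom.map_det]
    intro h0
    exact k1 (inj (by rw [h0, map_zero]))
  have hW := hL F L (↥(Mo n T')) (↥(Mo n (d - 1))) k
    (fun l a => algebraMap R F (mono K l a.1)) (fun l v => algebraMap R F (mono K l v.1))
    (fun m a => algebraMap R F (Wp e t0 d w c (fun s => (m s).1) a.1))
    (fun l s m => algebraMap R F (Qp e t0 d w cs l s (fun s => (m s).1)))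
    (by rw [Fintype.card_coe, Fintype.card_fin])
    (by
      intro e' he' u hu
      apply Matrix.eq_zero_of_mulVec_eq_zero (hdet _ e' (fun a => a.1) he' Subtype.val_injective)
      funext a
      exact hu a)
    (by
      rw [Fintype.linearIndependent_iff]
      intro g hg l
      have k1 := hdet L id (fun l => (f l).1) Function.injective_id
        (Subtype.val_injective.comp f.injective)
      have k2 : g = 0 := by
        apply Matrix.eq_zero_of_vecMul_eq_zero k1
        funext l'
        have k3 := congrFun hg (f l')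
        rw [Finset.sum_apply] at k3
        exact k3
      rw [k2]
      rfl)
    (by
      intro l s m x
      have k1 : (fun s' => (Function.update m s x s').1) =
          Function.update (fun s' => (m s').1) s x.1 := by
        funext s'
        by_cases h : s' = s
        · subst h
          rw [Function.update_self, Function.update_self]
        · rw [Function.update_of_ne h, Function.update_of_ne h]
      change algebraMap R F (Qp e t0 d w cs l s (fun s' => (Function.update m s x s').1)) = _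
      rw [k1, Qp_update e t0 h4])
    (by
      intro l m
      have k1 := key e t0 h1 h2 h3 h5 h6 ht0 l (fun s => (m s).1) (fun s => (m s).2)
      have k2 := congrArg (algebraMap R F) k1
      rw [map_sum, map_sum, ← Finset.sum_coe_sort] at k2
      simp only [map_mul] at k2
      exact k2)
  have hd := deg_mem h6 ht0 hm0 hle0
  have k1 := congrFun (congrFun hW (fun s => ⟨m0 s, hm0 s⟩)) ⟨_, hd⟩
  have k2 : Wp (L := L) e t0 d w c m0
      (fun b => (w b + ∑ s, (m0 s b : ℤ) - ∑ i, (t0 i b : ℤ)).toNat) = 0 := by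
    apply inj
    rw [map_zero]
    exact k1
  have k3 := Wp_coeff (c := c) (w := w) (d := d) e t0 (fun l => t0 (e l)) (fun l => ht0 (e l)) m0
    (fun b => (w b + ∑ s, (m0 s b : ℤ) - ∑ i, (t0 i b : ℤ)).toNat) (by
      intro b
      rw [V.Green.ext_self]
      exact (Int.toNat_of_nonneg (by linarith [hle0 b])).symm)
  rw [k2, V.Green.ext_self, MvPolynomial.coeff_zero] at k3
  exact hne k3.symm

end Pool.Agent.Work.MP_1233f5_ag.TL
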