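import Pool.Agent.Work.MP_1233f5_ag.TL.Stmts

/-! MP_1233f5_ag, block TL, item StarL (helper72): linear algebra for the star lemma. -/

set_option autoImplicit false

namespace Pool.Agent.Work.MP_1233f5_ag.TL

open Finset

namespace IStarL

/-- a sum over functions vanishes if it does for the values at one place -/
theorem sum_zero {F : Type} [Field F] {X : Type} [Fintype X] [DecidableEq X] {k : ℕ} (s : Fin k)
    (ψ : X → F) (hψ : ∑ x, ψ x = 0) (g : (Fin k → X) → F)
    (hg : ∀ m x, g (Function.update m s x) = g m) : ∑ m : Fin k → X, ψ (m s) * g m = 0 := by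
  classical
  have h1 : ∑ m : Fin k → X, ψ (m s) * g m =
      ∑ p : X × ({j : Fin k // j ≠ s} → X), ψ p.1 * g ((Equiv.funSplitAt s X).symm p) := by
    refine Fintype.sum_equiv (Equiv.funSplitAt s X) _ _ (fun m => ?_)
    rw [Equiv.symm_apply_apply]
    rfl
  rw [h1, Fintype.sum_prod_type_right]
  apply Finset.sum_eq_zero
  intro r _
  rcases isEmpty_or_nonempty X with hX | ⟨⟨x₀⟩⟩
  · exact Finset.sum_eq_zero (fun x _ => (hX.false x).elim)
  · have h2 : ∀ x, g ((Equiv.funSplitAt s X).symm (x, r)) =
        g ((Equiv.funSplitAt s X).symm (x₀, r)) := by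
      intro x
      rw [← hg ((Equiv.funSplitAt s X).symm (x₀, r)) x]
      congr 1
      funext j
      by_cases hj : j = s
      · subst hj
        simp [Equiv.funSplitAt, Equiv.piSplitAt]
      · rw [Function.update_of_ne hj]
        simp [Equiv.funSplitAt, Equiv.piSplitAt, hj]
    have h3 : ∀ x, ψ x * g ((Equiv.funSplitAt s X).symm (x, r)) =
        ψ x * g ((Equiv.funSplitAt s X).symm (x₀, r)) := fun x => by rw [h2 x]
    rw [Finset.sum_congr rfl (fun x _ => h3 x), ← Finset.sum_mul, hψ, zero_mul]

/-- the multilinear map of a tensor -/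
noncomputable def WW {F : Type} [Field F] {A X : Type} [Fintype X] {k : ℕ}
    (W : (Fin k → X) → A → F) : MultilinearMap F (fun _ : Fin k => X → F) (A → F) := by
  classical
  exact ∑ m : Fin k → X, ((MultilinearMap.mkPiAlgebra F (Fin k) F).compLinearMap
    (fun s => (LinearMap.proj (m s) : (X → F) →ₗ[F] F))).smulRight (W m)

theorem WW_apply {F : Type} [Field F] {A X : Type} [Fintype X] [DecidableEq X] {k : ℕ}
    (W : (Fin k → X) → A → F) (l : Fin k → X → F) (a : A) :
    WW W l a = ∑ m : Fin k → X, (∏ s, l s (m s)) * W m a := by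
  classical
  have h : WW W l = ∑ m : Fin k → X, (∏ s, l s (m s)) • W m := by
    unfold WW
    rw [_root_.sum_apply]
    have : ∀ m : Fin k → X, (((MultilinearMap.mkPiAlgebra F (Fin k) F).compLinearMap
        (fun s => (LinearMap.proj (m s) : (X → F) →ₗ[F] F))).smulRight (W m)) l =
        (∏ s, l s (m s)) • W m := by
      intro m
      rw [MultilinearMap.smulRight_apply, MultilinearMap.compLinearMap_apply,
        MultilinearMap.mkPiAlgebra_apply]
      rfl
    simp_rw [this]
  rw [h, Finset.sum_apply]
  rfl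

theorem WW_single {F : Type} [Field F] {A X : Type} [Fintype X] [DecidableEq X] {k : ℕ}
    (W : (Fin k → X) → A → F) (m₀ : Fin k → X) (a : A) :
    WW W (fun s => Pi.single (m₀ s) 1) a = W m₀ a := by
  rw [WW_apply, Finset.sum_eq_single m₀]
  · have : ∀ s, (Pi.single (m₀ s) (1 : F) : X → F) (m₀ s) = 1 := fun s => Pi.single_eq_same _ _
    rw [Finset.prod_congr rfl (fun s _ => this s), Finset.prod_const_one, one_mul]
  · intro m _ hm
    obtain ⟨s, hs⟩ := Function.ne_iff.1 hm
    rw [Finset.prod_eq_zero (mem_univ s), zero_mul]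
    exact Pi.single_eq_of_ne hs 1
  · intro h
    exact absurd (mem_univ _) h

/-- the key vanishing -/
theorem key {F : Type} [Field F] {L A X : Type} [Fintype L] [DecidableEq L] [Fintype A]
    [DecidableEq A] [Fintype X] [DecidableEq X] {k : ℕ} {η : L → A → F} {ξ : L → X → F}
    {W : (Fin k → X) → A → F} {Q : L → Fin k → (Fin k → X) → F}
    (hη : ∀ e : A → L, Function.Injective e → ∀ u : A → F,
      (∀ a, ∑ a', η (e a) a' * u a' = 0) → u = 0)
    (hQ : ∀ l s m x, Q l s (Function.update m s x) = Q l s m)
    (hW : ∀ l m, ∑ a, η l a * W m a = ∑ s, ξ l (m s) * Q l s m)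
    (lam : Fin k → X → F) (S : Finset L) (hS : Fintype.card A ≤ S.card)
    (hl : ∀ l ∈ S, ∀ s, ∑ x, lam s x * ξ l x = 0) : WW W lam = 0 := by
  classical
  obtain ⟨e⟩ : Nonempty (A ↪ S) := by
    apply Function.Embedding.nonempty_of_card_le
    rw [Fintype.card_coe]
    exact hS
  apply hη (fun a => (e a : L)) (fun a b hab => e.injective (Subtype.ext hab))
  intro a
  have h1 : ∀ l ∈ S, ∑ a', η l a' * WW W lam a' = 0 := by
    intro l hlS
    have h2 : ∑ a', η l a' * WW W lam a' =
        ∑ m : Fin k → X, (∏ s, lam s (m s)) * ∑ a', η l a' * W m a' := by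
      simp_rw [WW_apply, Finset.mul_sum]
      rw [Finset.sum_comm]
      refine Finset.sum_congr rfl (fun m _ => Finset.sum_congr rfl (fun a' _ => ?_))
      ring
    rw [h2]
    simp_rw [hW, Finset.mul_sum]
    rw [Finset.sum_comm]
    apply Finset.sum_eq_zero
    intro s _
    have h3 := sum_zero s (fun x => lam s x * ξ l x) (hl l hlS s)
      (fun m => (∏ s' ∈ univ.erase s, lam s' (m s')) * Q l s m) (fun m x => by
        show (∏ s' ∈ univ.erase s, lam s' (Function.update m s x s')) *
          Q l s (Function.update m s x) = _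
        rw [hQ]
        congr 1
        refine Finset.prod_congr rfl (fun s' hs' => ?_)
        rw [Function.update_of_ne (Finset.ne_of_mem_erase hs')])
    rw [← h3]
    refine Finset.sum_congr rfl (fun m _ => ?_)
    rw [← Finset.mul_prod_erase univ (fun s' => lam s' (m s')) (mem_univ s)]
    ring
  exact h1 (e a) (e a).2

theorem dual_pair {F : Type} [Field F] {X : Type} [Fintype X] [DecidableEq X]
    (v w : X → F) : (Pi.basisFun F X).toDual v w = ∑ x, v x * w x := by
  have hw : w = ∑ x, w x • (Pi.basisFun F X) x := by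
    conv_lhs => rw [← (Pi.basisFun F X).sum_repr w]
    simp
  conv_lhs => rw [hw, map_sum]
  refine Finset.sum_congr rfl (fun x _ => ?_)
  rw [map_smul, Module.Basis.toDual_apply_left, Pi.basisFun_repr, smul_eq_mul, mul_comm]

end IStarL

theorem pr_StarL : S_StarL := by
  classical
  intro F _ L A X _ _ _ _ _ _ k η ξ W Q hcard hη hξ hQ hW
  have hs : LinearIndepOn F id (Set.range ξ) := hξ.linearIndepOn_id
  let J : Set (X → F) := hs.extend (Set.subset_univ _)
  let B' : Module.Basis J F (X → F) := Module.Basis.extend hs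
  have : Finite J := Module.Finite.finite_basis B'
  have hJ : ∀ l, ξ l ∈ J := fun l => hs.subset_extend _ (Set.mem_range_self l)
  have hB : ∀ l, B' ⟨ξ l, hJ l⟩ = ξ l := fun l => Module.Basis.extend_apply_self hs _
  let b : Module.Basis J F (X → F) := B'.dualBasis.map (Pi.basisFun F X).toDualEquiv.symm
  have hb : ∀ j l, ∑ x, b j x * ξ l x = if (⟨ξ l, hJ l⟩ : J) = j then 1 else 0 := by
    intro j l
    rw [← IStarL.dual_pair, ← Module.Basis.toDualEquiv_apply]
    have h1 : (Pi.basisFun F X).toDualEquiv (b j) = B'.dualBasis j := by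
      simp only [b, Module.Basis.map_apply, LinearEquiv.apply_symm_apply]
    rw [h1]
    conv_lhs => rw [← hB l]
    exact B'.dualBasis_apply_self j ⟨ξ l, hJ l⟩
  have hWW : IStarL.WW W = 0 := by
    apply Module.Basis.ext_multilinear (fun _ => b)
    intro v
    rw [_root_.zero_apply]
    refine IStarL.key hη hQ hW (fun s => b (v s))
      (univ.filter (fun l => ∀ s, (⟨ξ l, hJ l⟩ : J) ≠ v s)) ?_ ?_
    · have h2 : (univ.filter (fun l => ¬ ∀ s, (⟨ξ l, hJ l⟩ : J) ≠ v s)).card ≤ k := by
        have h3 : (univ.filter (fun l => ¬ ∀ s, (⟨ξ l, hJ l⟩ : J) ≠ v s)).card ≤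
            (univ.image v).card := by
          apply Finset.card_le_card_of_injOn (fun l => (⟨ξ l, hJ l⟩ : J))
          · intro l hl
            rw [Finset.mem_coe, Finset.mem_filter] at hl
            have h4 := hl.2
            push Not at h4
            obtain ⟨s, hs'⟩ := h4
            rw [Finset.mem_coe, Finset.mem_image]
            exact ⟨s, mem_univ _, hs'.symm⟩
          · intro l _ l' _ h
            exact hξ.injective (congrArg Subtype.val h)
        exact h3.trans (Finset.card_image_le.trans (by simp))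
      have h5 := Finset.card_filter_add_card_filter_not (s := (univ : Finset L))
        (fun l => ∀ s, (⟨ξ l, hJ l⟩ : J) ≠ v s)
      rw [Finset.card_univ] at h5
      omega
    · intro l hl s
      rw [Finset.mem_filter] at hl
      rw [hb, if_neg (hl.2 s)]
  funext m a
  rw [← IStarL.WW_single W m a, hWW]
  rfl

end Pool.Agent.Work.MP_1233f5_ag.TL
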