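import Pool.Agent.Work.MP_1233f5_ag.TL.Stmts

set_option autoImplicit false

/-! MP_1233f5_ag, block TL, item StarW: the star lemma, wedge form, by complementary tuples. -/

namespace Pool.Agent.Work.MP_1233f5_ag.TL

open Finset
open Pool.Agent.Work.MP_1233f5_ag.V (Alt dd wdg Pred rCh rcyc rVan Mo vw)

namespace IStarW

open Pool.Agent.Work.MP_1233f5_ag.V.Dual (eps eps_apply eps_ne eps_comp exists_perm shf elim_shf)

variable {K : Type} [Field K] {B : Type} [DecidableEq B]

/-- the complementary function -/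
noncomputable def cf (M : Finset B) {b j : ℕ} (em : Fin b ⊕ Fin (j + 1) → B)
    (ψ : (Fin b → B) → K) (t' : Fin (j + 1) → B) : K :=
  ∑ t ∈ Fintype.piFinset (fun _ : Fin b => M), eps K em (Sum.elim t t') * ψ t

/-- the sign of a longer tuple -/
noncomputable def e1 {b j : ℕ} (em : Fin b ⊕ Fin (j + 1) → B) (t' : Fin j → B)
    (T : Fin (b + 1) → B) : K := eps K em (Sum.elim T t' ∘ (shf b j).symm)

/-- the complementary function of the functions of longer tuples -/
noncomputable def cg (M : Finset B) {b j : ℕ} (em : Fin b ⊕ Fin (j + 1) → B)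
    (ψ : (Fin (b + 1) → B) → K) (t' : Fin j → B) : K :=
  ((b : K) + 1)⁻¹ * ∑ T ∈ Fintype.piFinset (fun _ : Fin (b + 1) => M), e1 em t' T * ψ T

theorem cf_alt (M : Finset B) {b j : ℕ} {em : Fin b ⊕ Fin (j + 1) → B}
    (hm : Function.Injective em) (ψ : (Fin b → B) → K) : Alt (j + 1) (cf M em ψ) := by
  intro σ t'
  simp only [cf]
  rw [Finset.mul_sum]
  refine Finset.sum_congr rfl fun t _ => ?_
  have h : Sum.elim t (t' ∘ σ) =
      Sum.elim t t' ∘ (Equiv.Perm.sumCongr (1 : Equiv.Perm (Fin b)) σ) := by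
    funext x
    rcases x with i | i <;> simp
  rw [h, eps_comp hm, Equiv.Perm.sign_sumCongr]
  simp [mul_assoc]

theorem e1_alt {b j : ℕ} {em : Fin b ⊕ Fin (j + 1) → B} (hm : Function.Injective em)
    (t' : Fin j → B) : Alt (b + 1) (e1 (K := K) em t') := by
  intro σ u
  have h : Sum.elim (u ∘ σ) t' ∘ (shf b j).symm =
      (Sum.elim u t' ∘ (shf b j).symm) ∘
        ((shf b j).permCongr (Equiv.Perm.sumCongr σ (1 : Equiv.Perm (Fin j)))) := by
    funext x
    simp only [Function.comp_apply, Equiv.permCongr_apply, Equiv.symm_apply_apply]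
    rcases (shf b j).symm x with i | i <;> simp
  simp only [e1]
  rw [h, eps_comp hm, Equiv.Perm.sign_permCongr, Equiv.Perm.sign_sumCongr]
  simp

/-- sum over tuples with a distinguished entry -/
theorem sum_insert (M : Finset B) {b : ℕ} (i : Fin (b + 1)) (f : (Fin (b + 1) → B) → K) :
    ∑ T ∈ Fintype.piFinset (fun _ : Fin (b + 1) => M), f T =
      ∑ v ∈ M, ∑ t ∈ Fintype.piFinset (fun _ : Fin b => M), f (i.insertNth v t) := by
  rw [← Finset.sum_product']
  refine Finset.sum_bij' (fun T _ => (T i, i.removeNth T)) (fun p _ => i.insertNth p.1 p.2)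
    ?_ ?_ ?_ ?_ ?_
  · intro T hT
    rw [Fintype.mem_piFinset] at hT
    rw [Finset.mem_product, Fintype.mem_piFinset]
    exact ⟨hT i, fun k => hT _⟩
  · intro p hp
    rw [Finset.mem_product, Fintype.mem_piFinset] at hp
    rw [Fintype.mem_piFinset]
    intro k
    refine Fin.succAboveCases i ?_ (fun k => ?_) k
    · rw [Fin.insertNth_apply_same]
      exact hp.1
    · rw [Fin.insertNth_apply_succAbove]
      exact hp.2 k
  · intro T _
    simp
  · intro p _
    simp
  · intro T _
    simp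

/-- the equation -/
theorem eqn [CharZero K] (M : Finset B) {b j : ℕ} {em : Fin b ⊕ Fin (j + 1) → B}
    (hm : Function.Injective em) (ψ : (Fin b → B) → K) (t' : Fin j → B) :
    ∑ v ∈ M, cf M em ψ (Fin.cons v t') =
      cg M em (fun T => ∑ i : Fin (b + 1), (-1 : K) ^ (i : ℕ) * ψ (i.removeNth T)) t' := by
  have h1 : ∀ i : Fin (b + 1), ∑ T ∈ Fintype.piFinset (fun _ : Fin (b + 1) => M),
      e1 em t' T * ((-1 : K) ^ (i : ℕ) * ψ (i.removeNth T)) =
      ∑ v ∈ M, cf M em ψ (Fin.cons v t') := by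
    intro i
    rw [sum_insert M i]
    refine Finset.sum_congr rfl fun v _ => ?_
    simp only [cf]
    refine Finset.sum_congr rfl fun t _ => ?_
    have h2 := (e1_alt (K := K) hm t').cons_removeNth (i.insertNth v t) i
    simp only [Fin.insertNth_apply_same, Fin.removeNth_insertNth] at h2
    have h3 : e1 (K := K) em t' (Fin.cons v t) = eps K em (Sum.elim t (Fin.cons v t')) := by
      simp only [e1]
      rw [elim_shf]
    rw [Fin.removeNth_insertNth, ← h3, h2]
    ring
  simp only [cg]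
  have h4 : ∑ T ∈ Fintype.piFinset (fun _ : Fin (b + 1) => M),
      e1 em t' T * ∑ i : Fin (b + 1), (-1 : K) ^ (i : ℕ) * ψ (i.removeNth T) =
      ∑ _i : Fin (b + 1), ∑ v ∈ M, cf M em ψ (Fin.cons v t') := by
    simp only [Finset.mul_sum]
    rw [Finset.sum_comm]
    exact Finset.sum_congr rfl fun i _ => h1 i
  rw [h4, Finset.sum_const, Finset.card_univ, Fintype.card_fin, nsmul_eq_mul]
  push_cast
  rw [← mul_assoc, inv_mul_cancel₀, one_mul]
  exact_mod_cast Nat.succ_ne_zero b

/-- the complementary function determines the function -/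
theorem fin_zero [CharZero K] (M : Finset B) {b j : ℕ} {em : Fin b ⊕ Fin (j + 1) → B}
    (hm : Function.Injective em) (hM : ∀ x, x ∈ M ↔ ∃ y, em y = x) (hcard : M.card = b + (j + 1))
    (ψ : (Fin b → B) → K) (ha : Alt b ψ) (hs : ∀ t, ψ t ≠ 0 → ∀ i, t i ∈ M)
    (h0 : ∀ t', cf M em ψ t' = 0) (t : Fin b → B) : ψ t = 0 := by
  classical
  by_contra hne
  have hinj0 : Function.Injective t := by
    intro x y hxy
    by_contra hxy'
    exact hne (ha.eq_zero hxy' hxy)
  have htM := hs t hne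
  have hcomp : (M \ univ.image t).card = j + 1 := by
    rw [Finset.card_sdiff_of_subset, Finset.card_image_of_injective _ hinj0, hcard]
    · simp
    · intro x hx
      obtain ⟨i, _, rfl⟩ := Finset.mem_image.1 hx
      exact htM i
  let es := (Finset.equivFinOfCardEq hcomp).symm
  let t' : Fin (j + 1) → B := fun i => (es i).1
  have hs0 : ∀ i, t' i ∈ M ∧ ∀ k, t k ≠ t' i := by
    intro i
    have := (es i).2
    rw [Finset.mem_sdiff] at this
    refine ⟨this.1, fun k hk => this.2 ?_⟩
    exact Finset.mem_image.2 ⟨k, Finset.mem_univ _, hk⟩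
  have hs0inj : Function.Injective t' := fun x y h => es.injective (Subtype.ext h)
  have hinj : Function.Injective (Sum.elim t t') := by
    rintro (x | x) (y | y) h
    · exact congrArg _ (hinj0 h)
    · exact absurd h ((hs0 y).2 x)
    · exact absurd h.symm ((hs0 x).2 y)
    · exact congrArg _ (hs0inj h)
  have hval : ∀ x, Sum.elim t t' x ∈ M := by
    rintro (x | x)
    · exact htM x
    · exact (hs0 x).1
  obtain ⟨σ0, hσ0⟩ := exists_perm hm (fun x hx => (hM x).1 hx) hinj hval
  have heps0 : eps K em (Sum.elim t t') ≠ 0 := by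
    rw [hσ0, eps_apply hm]
    rcases Int.units_eq_one_or (Equiv.Perm.sign σ0) with h | h <;> simp [h]
  -- the summands
  have key : ∀ t2 ∈ Fintype.piFinset (fun _ : Fin b => M),
      t2 ∉ univ.image (fun σ : Equiv.Perm (Fin b) => t ∘ σ) →
      eps K em (Sum.elim t2 t') * ψ t2 = 0 := by
    intro t2 _ ht2
    by_contra hc
    apply ht2
    obtain ⟨σ, hσ⟩ := eps_ne (left_ne_zero_of_mul hc)
    have hinjt : Function.Injective (Sum.elim t2 t') := by
      rw [hσ]
      exact hm.comp σ.injective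
    have hinj2 : Function.Injective t2 := fun x y h => Sum.inl_injective (hinjt h)
    have hk : ∀ i, t2 i ∈ univ.image t := by
      intro i
      have hti : t2 i ∈ M := by
        have := congrFun hσ (Sum.inl i)
        simp only [Sum.elim_inl] at this
        rw [this]
        exact (hM _).2 ⟨_, rfl⟩
      by_contra hni
      have h5 : t2 i ∈ M \ univ.image t := Finset.mem_sdiff.2 ⟨hti, hni⟩
      obtain ⟨k, hk⟩ := es.surjective ⟨t2 i, h5⟩
      have h6 : Sum.elim t2 t' (Sum.inr k) = Sum.elim t2 t' (Sum.inl i) := by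
        show (es k).1 = t2 i
        rw [hk]
      have := hinjt h6
      simp at this
    obtain ⟨τ, hτ⟩ := exists_perm (M' := univ.image t) hinj0
      (fun x hx => by
        obtain ⟨i, _, hi⟩ := Finset.mem_image.1 hx
        exact ⟨i, hi⟩) hinj2 hk
    exact Finset.mem_image.2 ⟨τ, Finset.mem_univ _, hτ.symm⟩
  have hsub : univ.image (fun σ : Equiv.Perm (Fin b) => t ∘ σ) ⊆
      Fintype.piFinset (fun _ : Fin b => M) := by
    intro t2 ht2
    obtain ⟨σ, _, rfl⟩ := Finset.mem_image.1 ht2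
    rw [Fintype.mem_piFinset]
    exact fun i => htM _
  have hinjσ : Function.Injective (fun σ : Equiv.Perm (Fin b) => t ∘ σ) := by
    intro σ τ h
    ext i
    have := congrFun h i
    exact congrArg Fin.val (hinj0 this)
  have h7 := h0 t'
  simp only [cf] at h7
  rw [← Finset.sum_subset hsub key, Finset.sum_image (fun _ _ _ _ h => hinjσ h)] at h7
  have h8 : ∀ σ : Equiv.Perm (Fin b), eps K em (Sum.elim (t ∘ σ) t') * ψ (t ∘ σ) =
      eps K em (Sum.elim t t') * ψ t := by
    intro σ
    have h : Sum.elim (t ∘ σ) t' =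
        Sum.elim t t' ∘ (Equiv.Perm.sumCongr σ (1 : Equiv.Perm (Fin (j + 1)))) := by
      funext x
      rcases x with i | i <;> simp
    rw [h, eps_comp hm, Equiv.Perm.sign_sumCongr, ha σ t]
    rcases Int.units_eq_one_or (Equiv.Perm.sign σ) with h | h <;> simp [h]
  rw [Finset.sum_congr rfl (fun σ _ => h8 σ), Finset.sum_const, nsmul_eq_mul] at h7
  have h9 : ((univ : Finset (Equiv.Perm (Fin b))).card : K) ≠ 0 := by
    rw [Nat.cast_ne_zero, Finset.card_univ]
    exact Fintype.card_ne_zero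
  exact (mul_ne_zero h9 (mul_ne_zero heps0 hne)) h7

theorem wsum (M : Finset B) {X : Type} [Fintype X] [DecidableEq X] {em : X → B}
    (hm : Function.Injective em) (hM : ∀ x, x ∈ M ↔ ∃ y, em y = x) {u : X → B}
    (hu : eps K em u ≠ 0) (f : B → ℤ) : ∑ x, f (u x) = ∑ v ∈ M, f v := by
  obtain ⟨σ, rfl⟩ := eps_ne hu
  have h1 : M = univ.image em := by
    ext x
    simp [hM]
  rw [h1, Finset.sum_image (fun _ _ _ _ h => hm h)]
  exact Equiv.sum_comp σ (fun x => f (em x))

theorem wmem (M : Finset B) {X : Type} [Fintype X] [DecidableEq X] {em : X → B}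
    (hM : ∀ x, x ∈ M ↔ ∃ y, em y = x) {u : X → B}
    (hu : eps K em u ≠ 0) (x : X) : u x ∈ M := by
  obtain ⟨σ, rfl⟩ := eps_ne hu
  exact (hM _).2 ⟨σ x, rfl⟩

end IStarW

open IStarW Pool.Agent.Work.MP_1233f5_ag.V.Dual in
theorem pr_StarW (h1 : S_StarC) : S_StarW := by
  classical
  intro K _ _ n d T' k b w ψ ψs hn hA hAs hψ hψs hupd heq hsum hcard1 hcard2
  have hpos : 0 < (Mo n T').card := by
    refine Finset.card_pos.2 ⟨Pi.single ⟨0, hn⟩ T', ?_⟩
    simp [Mo, Finset.mem_piAntidiag]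
  obtain ⟨j, hj⟩ : ∃ j, (Mo n d).card = b + (j + 1) := ⟨(Mo n d).card - b - 1, by omega⟩
  have hX : Fintype.card (Fin b ⊕ Fin (j + 1)) = Fintype.card (Mo n d) := by
    simp [hj]
  let eq := Fintype.equivOfCardEq hX
  let em : Fin b ⊕ Fin (j + 1) → (Fin n → ℕ) := fun x => (eq x).1
  have hm : Function.Injective em := fun x y h => eq.injective (Subtype.ext h)
  have hM : ∀ x, x ∈ Mo n d ↔ ∃ y, em y = x := by
    intro x
    constructor
    · intro hx
      exact ⟨eq.symm ⟨x, hx⟩, by simp [em]⟩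
    · rintro ⟨y, rfl⟩
      exact (eq y).2
  have hMd : ∀ v ∈ Mo n d, ∑ a, (v a : ℤ) = d := by
    intro v hv
    have : ∑ a, v a = d := by
      simpa [Mo, Finset.mem_piAntidiag] using hv
    exact_mod_cast this
  obtain ⟨w', hw'⟩ : ∃ w' : Fin n → ℤ, ∀ a, w' a = ∑ v ∈ Mo n d, (v a : ℤ) - 1 - w a :=
    ⟨_, fun a => rfl⟩
  have key := h1 K n d T' k j w' (fun t m => cf (Mo n d) em (fun u => ψ u m) t)
    (fun s t m => cg (Mo n d) em (fun T => ψs s T m) t) hn ?_ ?_ ?_ ?_ ?_ ?_ ?_ hcard2
  · intro t m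
    refine fin_zero (Mo n d) hm hM hj (fun u => ψ u m) (hA m) (fun t ht => (hψ t m ht).1) ?_ t
    exact fun t' => key t' m
  · exact fun m => cf_alt _ hm _
  · intro t' m hc
    obtain ⟨t, _, ht⟩ := Finset.exists_ne_zero_of_sum_ne_zero hc
    have h2 := left_ne_zero_of_mul ht
    have h3 := hψ t m (right_ne_zero_of_mul ht)
    refine ⟨fun i => wmem (Mo n d) hM h2 (Sum.inr i), h3.2.1, fun a => ?_⟩
    have h4 := wsum (Mo n d) hm hM h2 (fun v => (v a : ℤ))
    rw [Fintype.sum_sum_type] at h4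
    simp only [Sum.elim_inl, Sum.elim_inr] at h4
    have h5 := h3.2.2 a
    rw [hw' a]
    linarith
  · intro s t' m hc
    obtain ⟨t, _, ht⟩ := Finset.exists_ne_zero_of_sum_ne_zero (right_ne_zero_of_mul hc)
    have h2 : eps K em (Sum.elim t t' ∘ (shf b j).symm) ≠ 0 := left_ne_zero_of_mul ht
    have h3 := hψs s t m (right_ne_zero_of_mul ht)
    refine ⟨fun i => ?_, h3.2.1, fun a => ?_⟩
    · have h6 := wmem (Mo n d) hM h2 (shf b j (Sum.inr i))
      simpa using h6
    have h4 := wsum (Mo n d) hm hM h2 (fun v => (v a : ℤ))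
    have h7 : ∑ x, (fun v : Fin n → ℕ => (v a : ℤ)) ((Sum.elim t t' ∘ (shf b j).symm) x) =
        ∑ x, (fun v : Fin n → ℕ => (v a : ℤ)) (Sum.elim t t' x) :=
      Equiv.sum_comp (shf b j).symm (fun x => (fun v : Fin n → ℕ => (v a : ℤ)) (Sum.elim t t' x))
    rw [h7, Fintype.sum_sum_type] at h4
    simp only [Sum.elim_inl, Sum.elim_inr] at h4
    have h5 := h3.2.2 a
    rw [hw' a]
    linarith
  · intro s t m v
    simp only [cg, hupd]
  · intro t m ht hms
    show ∑ v ∈ Mo n d, cf (Mo n d) em (fun u => ψ u m) (Fin.cons v t) =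
      ∑ s, cg (Mo n d) em (fun T => ψs s T m) t
    rw [eqn (Mo n d) hm]
    simp only [cg]
    rw [← Finset.mul_sum, Finset.sum_comm]
    congr 1
    refine Finset.sum_congr rfl fun T hT => ?_
    rw [Fintype.mem_piFinset] at hT
    rw [heq T m hT hms, Finset.mul_sum]
  · have h2 : ∑ a, w' a = ((b : ℤ) + (j + 1)) * d - n - ∑ a, w a := by
      simp only [hw', Finset.sum_sub_distrib]
      rw [Finset.sum_comm, Finset.sum_congr rfl hMd, Finset.sum_const, hj]
      simp
    rw [h2]
    linarith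
  · omega

end Pool.Agent.Work.MP_1233f5_ag.TL
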