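import Pool.Agent.Work.MP_1233f5_ag.TL.Stmts

/-! Block TL, item TopF: the functionals vanish on the covered tuples. -/

set_option autoImplicit false

namespace Pool.Agent.Work.MP_1233f5_ag.TL

open Finset
open Pool.Agent.Work.MP_1233f5_ag.V (Alt dd wdg Pred rCh rcyc rVan Mo vw)

namespace ITopF

theorem mem_Mo {n d : ℕ} {v : Fin n → ℕ} : v ∈ Mo n d ↔ ∑ a, v a = d := by
  unfold Mo
  rw [Finset.mem_piAntidiag]
  simp

theorem alt_emb {K : Type} [Field K] {B B' : Type} {p P : ℕ} (ι : Fin p ↪ Fin P) (g : B' → B)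
    (F : (Fin p → B') → (Fin P → B)) (h1 : ∀ T i, F T (ι i) = g (T i))
    (h2 : ∀ T T' j, j ∉ Set.range ι → F T j = F T' j) {φ : (Fin P → B) → K} (hφ : Alt P φ) :
    Alt p (fun T => φ (F T)) := by
  intro σ T
  have h : F (T ∘ σ) = F T ∘ (σ.viaFintypeEmbedding ι) := by
    funext j
    by_cases hj : j ∈ Set.range ι
    · obtain ⟨i, rfl⟩ := hj
      rw [h1, Function.comp_apply, Function.comp_apply,
        Equiv.Perm.viaFintypeEmbedding_apply_image, h1]
    · rw [Function.comp_apply, Equiv.Perm.viaFintypeEmbedding_apply_notMem_range _ _ hj]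
      exact h2 _ _ j hj
  show φ (F (T ∘ σ)) = _ * φ (F T)
  rw [h, hφ, Equiv.Perm.viaFintypeEmbedding_sign]

variable {k n : ℕ}

/-- the tuple of a covered chain -/
def tup {b κ : ℕ} (y : Fin κ → Fin k) (t : Fin b → (Fin n → ℕ)) (m : Fin κ → (Fin n → ℕ)) :
    Fin (b + κ) → Lb k n :=
  Fin.append (fun i => ((∅ : Finset (Fin k)), t i)) (fun s => (({y s} : Finset (Fin k)), m s))

theorem tup_left {b κ : ℕ} (y : Fin κ → Fin k) (t : Fin b → (Fin n → ℕ))
    (m : Fin κ → (Fin n → ℕ)) (i : Fin b) :
    tup y t m (Fin.castAdd κ i) = (∅, t i) := by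
  unfold tup; rw [Fin.append_left]

theorem tup_right {b κ : ℕ} (y : Fin κ → Fin k) (t : Fin b → (Fin n → ℕ))
    (m : Fin κ → (Fin n → ℕ)) (s : Fin κ) :
    tup y t m (Fin.natAdd b s) = ({y s}, m s) := by
  unfold tup; rw [Fin.append_right]

/-- left index -/
def jl {b : ℕ} (κ : ℕ) (i : Fin (b + 1)) : Fin (b + κ + 1) := ⟨i, by omega⟩

/-- right index -/
def jr (b : ℕ) {κ : ℕ} (s : Fin κ) : Fin (b + κ + 1) := ⟨b + 1 + s, by omega⟩

theorem jcases {b κ : ℕ} {p : Fin (b + κ + 1) → Prop} (h1 : ∀ i : Fin (b + 1), p (jl κ i))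
    (h2 : ∀ s : Fin κ, p (jr b s)) : ∀ j, p j := by
  intro j
  by_cases h : (j : ℕ) < b + 1
  · exact h1 ⟨j, h⟩
  · have := h2 ⟨(j : ℕ) - (b + 1), by omega⟩
    have e : jr b (⟨(j : ℕ) - (b + 1), by omega⟩ : Fin κ) = j := by
      apply Fin.ext
      show b + 1 + ((j : ℕ) - (b + 1)) = j
      omega
    rwa [e] at this

theorem jsum {M : Type} [AddCommMonoid M] {b κ : ℕ} (f : Fin (b + κ + 1) → M) :
    ∑ j, f j = ∑ i : Fin (b + 1), f (jl κ i) + ∑ s : Fin κ, f (jr b s) := by
  have h : b + 1 + κ = b + κ + 1 := by omega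
  rw [← Equiv.sum_comp (finCongr h) f, Fin.sum_univ_add]
  rfl

/-- the large tuple -/
def big {b κ : ℕ} (y : Fin κ → Fin k) (T : Fin (b + 1) → (Fin n → ℕ))
    (m : Fin κ → (Fin n → ℕ)) : Fin (b + κ + 1) → Lb k n :=
  fun j => if h : (j : ℕ) < b + 1 then (∅, T ⟨j, h⟩) else
    ({y ⟨(j : ℕ) - (b + 1), by omega⟩}, m ⟨(j : ℕ) - (b + 1), by omega⟩)

theorem big_l {b κ : ℕ} (y : Fin κ → Fin k) (T : Fin (b + 1) → (Fin n → ℕ))
    (m : Fin κ → (Fin n → ℕ)) (i : Fin (b + 1)) : big y T m (jl κ i) = (∅, T i) := by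
  have h : ((jl κ i : Fin (b + κ + 1)) : ℕ) < b + 1 := i.2
  simp only [big, dif_pos h]
  rfl

theorem big_r {b κ : ℕ} (y : Fin κ → Fin k) (T : Fin (b + 1) → (Fin n → ℕ))
    (m : Fin κ → (Fin n → ℕ)) (s : Fin κ) : big y T m (jr b s) = ({y s}, m s) := by
  have h : ¬ ((jr b s : Fin (b + κ + 1)) : ℕ) < b + 1 := by
    show ¬ (b + 1 + (s : ℕ)) < b + 1
    omega
  have e : (⟨((jr b s : Fin (b + κ + 1)) : ℕ) - (b + 1), by
      have := (jr b s).2; omega⟩ : Fin κ) = s := by
    apply Fin.ext
    show b + 1 + (s : ℕ) - (b + 1) = s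
    omega
  simp only [big, dif_neg h]
  rw [e]

theorem rem_l {b κ : ℕ} (y : Fin κ → Fin k) (T : Fin (b + 1) → (Fin n → ℕ))
    (m : Fin κ → (Fin n → ℕ)) (i : Fin (b + 1)) :
    (jl κ i).removeNth (big y T m) = tup y (i.removeNth T) m := by
  funext j
  refine Fin.addCases (fun j' => ?_) (fun s => ?_) j
  · rw [tup_left]
    show big y T m ((jl κ i).succAbove (Fin.castAdd κ j')) = (∅, T (i.succAbove j'))
    have e : (jl κ i).succAbove (Fin.castAdd κ j') = jl κ (i.succAbove j') := by
      apply Fin.ext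
      by_cases h : (j' : ℕ) < (i : ℕ)
      · rw [Fin.succAbove_of_castSucc_lt _ _ (by
          show ((Fin.castAdd κ j').castSucc : ℕ) < (i : ℕ)
          simpa using h)]
        show _ = ((i.succAbove j' : Fin (b + 1)) : ℕ)
        rw [Fin.succAbove_of_castSucc_lt _ _ (by
          show ((j').castSucc : ℕ) < (i : ℕ)
          simpa using h)]
        simp
      · rw [Fin.succAbove_of_le_castSucc _ _ (by
          show (i : ℕ) ≤ ((Fin.castAdd κ j').castSucc : ℕ)
          simpa using h)]
        show _ = ((i.succAbove j' : Fin (b + 1)) : ℕ)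
        rw [Fin.succAbove_of_le_castSucc _ _ (by
          show (i : ℕ) ≤ ((j').castSucc : ℕ)
          simpa using h)]
        simp
    rw [e, big_l]
  · rw [tup_right]
    show big y T m ((jl κ i).succAbove (Fin.natAdd b s)) = _
    have e : (jl κ i).succAbove (Fin.natAdd b s) = jr b s := by
      apply Fin.ext
      have hi := i.2
      rw [Fin.succAbove_of_le_castSucc _ _ (by
        show (i : ℕ) ≤ ((Fin.natAdd b s).castSucc : ℕ)
        simp only [Fin.val_castSucc, Fin.val_natAdd]
        omega)]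
      show ((Fin.natAdd b s).succ : ℕ) = b + 1 + s
      simp only [Fin.val_succ, Fin.val_natAdd]
      omega
    rw [e, big_r]

/-- embedding of the left indices in the complement of a right index -/
def ie {b κ : ℕ} (s : Fin κ) : Fin (b + 1) ↪ Fin (b + κ) :=
  ⟨fun i => ⟨i, by have := s.2; have := i.2; omega⟩, fun i j h => by
    apply Fin.ext
    exact congrArg (fun x : Fin (b + κ) => (x : ℕ)) h⟩

theorem ie_sa {b κ : ℕ} (s : Fin κ) (i : Fin (b + 1)) :
    (jr b s).succAbove (ie s i) = jl κ i := by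
  apply Fin.ext
  have hi := i.2
  rw [Fin.succAbove_of_castSucc_lt _ _ (by
    show ((ie s i).castSucc : ℕ) < b + 1 + s
    show (i : ℕ) < b + 1 + s
    omega)]
  rfl

theorem not_range {b κ : ℕ} (s : Fin κ) (j : Fin (b + κ)) (hj : j ∉ Set.range (ie (b := b) s)) :
    ∃ s' : Fin κ, s' ≠ s ∧ (jr b s).succAbove j = jr b s' := by
  have h1 : ∀ x : Fin (b + κ + 1), x = (jr b s).succAbove j →
      (∃ i : Fin (b + 1), x = jl κ i) ∨ ∃ s' : Fin κ, x = jr b s' := by
    intro x _
    refine jcases (p := fun x => (∃ i : Fin (b + 1), x = jl κ i) ∨ ∃ s' : Fin κ, x = jr b s')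
      (fun i => Or.inl ⟨i, rfl⟩) (fun s' => Or.inr ⟨s', rfl⟩) x
  rcases h1 _ rfl with ⟨i, hi⟩ | ⟨s', hs'⟩
  · exfalso
    apply hj
    refine ⟨i, ?_⟩
    apply (jr b s).succAbove_right_injective
    rw [ie_sa, hi]
  · refine ⟨s', ?_, hs'⟩
    rintro rfl
    exact Fin.succAbove_ne _ _ hs'

end ITopF

open ITopF

theorem pr_TopF (h : S_StarW) : S_TopF := by
  intro K _ _ k n d T' P Y w φ hn hd hw hP1 hP2 hφ hcyc
  obtain ⟨hAlt, hsupp⟩ := hφ
  set κ := Y.card with hκ
  -- enumeration of the letters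
  obtain ⟨y, hyi, hyY, hyc⟩ : ∃ y : Fin κ → Fin k, Function.Injective y ∧ (∀ s, y s ∈ Y) ∧
      ∀ z ∈ Y, ∃ s, y s = z := by
    refine ⟨fun s => (Y.equivFin.symm s : Fin k), fun s s' hs => ?_, fun s => ?_, fun z hz => ?_⟩
    · exact Y.equivFin.symm.injective (Subtype.ext hs)
    · exact (Y.equivFin.symm s).2
    · exact ⟨Y.equivFin ⟨z, hz⟩, by simp⟩
  intro t htp
  by_contra hne
  obtain ⟨hlab, hdis, hneg, -⟩ := hsupp t hne
  have hcard : ∀ i, (t i).1.card ≤ 1 := fun i => (Finset.mem_filter.mp (hlab i).1).2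
  -- the position of the letters
  have hpos : ∀ s : Fin κ, ∃ i, (t i).1 = {y s} := by
    intro s
    obtain ⟨i, hi⟩ := htp (y s) (hyY s)
    refine ⟨i, ?_⟩
    have h1 : ({y s} : Finset (Fin k)) ⊆ (t i).1 := Finset.singleton_subset_iff.mpr hi
    exact (Finset.eq_of_subset_of_card_le h1 (by rw [Finset.card_singleton]; exact hcard i)).symm
  choose f hf using hpos
  have hfi : Function.Injective f := by
    intro s s' hs
    have h1 : ({y s} : Finset (Fin k)) = {y s'} := by rw [← hf s, ← hf s', hs]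
    exact hyi (Finset.singleton_injective h1)
  have hother : ∀ i, i ∉ Set.range f → (t i).1 = ∅ := by
    intro i hi
    by_contra hne2
    obtain ⟨z, hz⟩ := Finset.nonempty_iff_ne_empty.mpr hne2
    obtain ⟨s, rfl⟩ := hyc z ((hlab i).2 hz)
    have hif : i ≠ f s := fun e => hi ⟨s, e.symm⟩
    have h1 := hdis i (f s) hif
    rw [hf s] at h1
    exact (Finset.disjoint_left.mp h1 hz) (Finset.mem_singleton_self _)
  have hκP : κ ≤ P := by
    have := Fintype.card_le_of_injective f hfi
    simpa using this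
  obtain ⟨b, rfl⟩ : ∃ b, P = b + κ := ⟨P - κ, by omega⟩
  -- the equivalence
  have hcompl : Fintype.card {i : Fin (b + κ) // i ∉ Set.range f} = b := by
    have h1 : Fintype.card {i : Fin (b + κ) // i ∈ Set.range f} = κ := by
      have := Set.card_range_of_injective hfi
      rw [Fintype.card_fin] at this
      exact (Fintype.card_congr (Equiv.refl _)).trans this
    have h2 := Fintype.card_subtype_compl (fun i : Fin (b + κ) => i ∈ Set.range f)
    rw [h1, Fintype.card_fin] at h2
    omega
  let e1 : Fin b ≃ {i : Fin (b + κ) // i ∉ Set.range f} :=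
    (Fintype.equivFinOfCardEq hcompl).symm
  let e : Fin b ⊕ Fin κ → Fin (b + κ) := Sum.elim (fun i => (e1 i : Fin (b + κ))) f
  have hei : Function.Injective e := by
    rintro (i | s) (i' | s') he
    · have : e1 i = e1 i' := Subtype.ext he
      rw [e1.injective this]
    · exact absurd ⟨s', he.symm⟩ (e1 i).2
    · exact absurd ⟨s, he⟩ (e1 i').2
    · rw [hfi he]
  have heb : Function.Bijective e := by
    rw [Fintype.bijective_iff_injective_and_card]
    exact ⟨hei, by simp⟩
  let σ : Equiv.Perm (Fin (b + κ)) := finSumFinEquiv.symm.trans (Equiv.ofBijective e heb)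
  set t' : Fin b → (Fin n → ℕ) := fun i => (t (e1 i)).2 with ht'
  set m' : Fin κ → (Fin n → ℕ) := fun s => (t (f s)).2 with hm'
  have htσ : t ∘ σ = tup y t' m' := by
    funext j
    refine Fin.addCases (fun i => ?_) (fun s => ?_) j
    · rw [tup_left]
      have e2 : σ (Fin.castAdd κ i) = (e1 i : Fin (b + κ)) := by
        show e (finSumFinEquiv.symm (Fin.castAdd κ i)) = _
        rw [finSumFinEquiv_symm_apply_castAdd]
        rfl
      rw [Function.comp_apply, e2]
      exact Prod.ext (hother _ (e1 i).2) rfl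
    · rw [tup_right]
      have e2 : σ (Fin.natAdd b s) = f s := by
        show e (finSumFinEquiv.symm (Fin.natAdd b s)) = _
        rw [finSumFinEquiv_symm_apply_natAdd]
        rfl
      rw [Function.comp_apply, e2]
      exact Prod.ext (hf s) rfl
  -- the star lemma
  have hd1 : ((d - 1 : ℕ) : ℤ) = (d : ℤ) - 1 := by
    rw [Nat.cast_sub hd]; simp
  have hLL0 : ∀ v : Fin n → ℕ, ((∅ : Finset (Fin k)), v) ∈ LL k n d ↔ v ∈ Mo n d := by
    intro v
    rw [LL, Finset.mem_filter, mem_La, mem_Mo]
    simp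
  have hLL1 : ∀ (z : Fin k) (v : Fin n → ℕ), (({z} : Finset (Fin k)), v) ∈ LL k n d ↔
      v ∈ Mo n (d - 1) := by
    intro z v
    rw [LL, Finset.mem_filter, mem_La, mem_Mo]
    simp only [Finset.card_singleton]
    constructor
    · rintro ⟨h1, -⟩; omega
    · intro h1; exact ⟨by omega, le_refl _⟩
  have hzero := h K n d T' κ b w (fun t m => φ (tup y t m))
    (fun s T m => -((-1 : K) ^ (b + 1 + (s : ℕ)) * φ ((jr b s).removeNth (big y T m)))) hn
    ?_ ?_ ?_ ?_ ?_ ?_ ?_ ?_ ?_ t' m'
  · -- conclusion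
    have h2 : φ (tup y t' m') = 0 := hzero
    rw [← htσ, hAlt σ t] at h2
    rcases mul_eq_zero.mp h2 with h3 | h3
    · rcases Int.units_eq_one_or (Equiv.Perm.sign σ) with h4 | h4 <;> rw [h4] at h3 <;> simp at h3
    · exact hne h3
  · -- alternating
    intro m
    refine alt_emb (Fin.castAddEmb κ) (fun v : Fin n → ℕ => ((∅ : Finset (Fin k)), v))
      (fun T => tup y T m) (fun T i => tup_left y T m i) (fun T T' j hj => ?_) hAlt
    revert hj
    refine Fin.addCases (fun i hj => ?_) (fun s _ => ?_) j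
    · exact absurd ⟨i, rfl⟩ hj
    · rw [tup_right, tup_right]
  · -- alternating
    intro s m σ' T
    have h1 := alt_emb (ie (b := b) s) (fun v : Fin n → ℕ => ((∅ : Finset (Fin k)), v))
      (fun T => (jr b s).removeNth (big y T m)) (fun T i => by
        show big y T m ((jr b s).succAbove (ie s i)) = _
        rw [ie_sa, big_l]) (fun T T' j hj => by
        show big y T m ((jr b s).succAbove j) = big y T' m ((jr b s).succAbove j)
        obtain ⟨s', -, hs'⟩ := not_range s j hj
        rw [hs', big_r, big_r]) hAlt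
    have h2 := h1 σ' T
    show -((-1 : K) ^ (b + 1 + (s : ℕ)) * φ ((jr b s).removeNth (big y (T ∘ σ') m))) =
      _ * -((-1 : K) ^ (b + 1 + (s : ℕ)) * φ ((jr b s).removeNth (big y T m)))
    have h3 : φ ((jr b s).removeNth (big y (T ∘ σ') m)) = ((Equiv.Perm.sign σ' : ℤ) : K) *
      φ ((jr b s).removeNth (big y T m)) := h2
    rw [h3]
    ring
  · -- support
    intro t m hne2
    obtain ⟨a1, -, a3, -⟩ := hsupp _ hne2
    refine ⟨fun i => ?_, fun s => ?_, fun a => ?_⟩
    · have := (a1 (Fin.castAdd κ i)).1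
      rw [tup_left] at this
      exact (hLL0 _).mp this
    · have := (a1 (Fin.natAdd b s)).1
      rw [tup_right] at this
      exact (hLL1 _ _).mp this
    · have := a3 a (mem_univ a)
      unfold rem at this
      rw [Fin.sum_univ_add] at this
      simp only [tup_left, tup_right] at this
      linarith
  · -- support
    intro s T m hne2
    have hne3 : φ ((jr b s).removeNth (big y T m)) ≠ 0 := by
      intro h0
      apply hne2
      show -((-1 : K) ^ (b + 1 + (s : ℕ)) * φ ((jr b s).removeNth (big y T m))) = 0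
      rw [h0]; ring
    obtain ⟨a1, -, a3, -⟩ := hsupp _ hne3
    have a1' : ∀ j, j ≠ jr b s → big y T m j ∈ LL k n d := by
      intro j hj
      obtain ⟨z, rfl⟩ := Fin.exists_succAbove_eq hj
      exact (a1 z).1
    refine ⟨fun i => ?_, fun s' hs' => ?_, fun a => ?_⟩
    · have h1 : jl κ i ≠ jr b s := by
        intro h2
        have h3 := congrArg Fin.val h2
        have h4 : (i : ℕ) = b + 1 + s := h3
        have := i.2
        omega
      have := a1' _ h1
      rw [big_l] at this
      exact (hLL0 _).mp this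
    · have h1 : jr b s' ≠ jr b s := by
        intro h2
        have h3 := congrArg Fin.val h2
        have h4 : b + 1 + (s' : ℕ) = b + 1 + s := h3
        exact hs' (Fin.ext (by omega))
      have := a1' _ h1
      rw [big_r] at this
      exact (hLL1 _ _).mp this
    · have h1 := a3 a (mem_univ a)
      unfold rem at h1
      have h2 : ∑ j : Fin (b + κ + 1), ((big y T m j).2 a : ℤ) =
          ((big y T m (jr b s)).2 a : ℤ) +
          ∑ j : Fin (b + κ), (((jr b s).removeNth (big y T m) j).2 a : ℤ) :=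
        Fin.sum_univ_succAbove _ _
      rw [jsum] at h2
      simp only [big_l, big_r] at h2
      have h3 : ∑ s' ∈ univ.erase s, (m s' a : ℤ) = ∑ s', (m s' a : ℤ) - (m s a : ℤ) := by
        rw [← Finset.add_sum_erase _ _ (mem_univ s)]
        ring
      rw [h3]
      linarith
  · -- independence
    intro s T m v
    have h1 : (jr b s).removeNth (big y T (Function.update m s v)) =
        (jr b s).removeNth (big y T m) := by
      funext j
      show big y T (Function.update m s v) ((jr b s).succAbove j) =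
        big y T m ((jr b s).succAbove j)
      by_cases hj : j ∈ Set.range (ie (b := b) s)
      · obtain ⟨i, rfl⟩ := hj
        rw [ie_sa, big_l, big_l]
      · obtain ⟨s', hs', e2⟩ := not_range s j hj
        rw [e2, big_r, big_r, Function.update_of_ne hs']
    show -((-1 : K) ^ (b + 1 + (s : ℕ)) * φ ((jr b s).removeNth
      (big y T (Function.update m s v)))) = _
    rw [h1]
  · -- the equation
    intro T m hT hm
    show ∑ i : Fin (b + 1), (-1 : K) ^ (i : ℕ) * φ (tup y (i.removeNth T) m) =
      ∑ s : Fin κ, -((-1 : K) ^ (b + 1 + (s : ℕ)) * φ ((jr b s).removeNth (big y T m)))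
    by_cases hex : ∀ a : Fin n, rem w (big y T m) a < 0
    · have hG : vZ (LL k n d) Y w univ (b + κ + 1) (big y T m) := by
        refine ⟨?_, ?_, fun a _ => hex a, fun a ha => absurd (mem_univ a) ha⟩
        · refine jcases (fun i => ?_) (fun s => ?_)
          · rw [big_l]
            exact ⟨(hLL0 _).mpr (hT i), Finset.empty_subset _⟩
          · rw [big_r]
            exact ⟨(hLL1 _ _).mpr (hm s), Finset.singleton_subset_iff.mpr (hyY s)⟩
        · refine jcases (fun i => ?_) (fun s => ?_)
          · intro j _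
            rw [big_l]
            exact Finset.disjoint_empty_left _
          · refine jcases (fun i _ => ?_) (fun s' hss' => ?_)
            · rw [big_l]
              exact Finset.disjoint_empty_right _
            · rw [big_r, big_r]
              refine Finset.disjoint_singleton.mpr fun h1 => hss' ?_
              rw [hyi h1]
      have h1 := hcyc _ hG
      rw [jsum] at h1
      have h2 : ∀ i : Fin (b + 1), (-1 : K) ^ ((jl κ i : Fin (b + κ + 1)) : ℕ) *
          φ ((jl κ i).removeNth (big y T m)) = (-1 : K) ^ (i : ℕ) *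
          φ (tup y (i.removeNth T) m) := by
        intro i
        rw [rem_l]
        rfl
      rw [Finset.sum_congr rfl fun i _ => h2 i] at h1
      rw [Finset.sum_neg_distrib]
      exact eq_neg_of_add_eq_zero_left h1
    · push Not at hex
      obtain ⟨a, ha⟩ := hex
      have hz : ∀ j : Fin (b + κ + 1), φ (j.removeNth (big y T m)) = 0 := by
        intro j
        by_contra hne2
        obtain ⟨-, -, a3, -⟩ := hsupp _ hne2
        have h1 := a3 a (mem_univ a)
        unfold rem at h1 ha
        have h2 : ∑ j' : Fin (b + κ + 1), ((big y T m j').2 a : ℤ) =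
            ((big y T m j).2 a : ℤ) +
            ∑ j' : Fin (b + κ), ((j.removeNth (big y T m) j').2 a : ℤ) :=
          Fin.sum_univ_succAbove _ _
        have h3 : (0 : ℤ) ≤ ((big y T m j).2 a : ℤ) := Int.natCast_nonneg _
        linarith
      rw [Finset.sum_eq_zero fun i _ => by rw [← rem_l, hz, mul_zero],
        Finset.sum_eq_zero fun s _ => by rw [hz, mul_zero, neg_zero]]
  · -- weights
    rw [hd1]
    push_cast at hw
    linarith
  · omega
  · exact hP2

end Pool.Agent.Work.MP_1233f5_ag.TL
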