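import Pool.Agent.Work.MP_1233f5_ag.TL.Stmts

/-! MP_1233f5_ag, block TL, item TopR. -/

set_option autoImplicit false

namespace Pool.Agent.Work.MP_1233f5_ag.TL

open Finset
open Pool.Agent.Work.MP_1233f5_ag.V (Alt dd wdg Pred rCh rcyc rVan Mo vw)

namespace ITopR

variable {k n : ℕ}

/-- the letters of a tuple over `L1`: as many as its length -/
theorem card_letters {d p : ℕ} {Y : Finset (Fin k)} {w : Fin n → ℤ} {J : Finset (Fin n)}
    {t : Fin p → Lb k n} (h : vZ (L1 k n d) Y w J p t) :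
    (univ.biUnion (fun i => (t i).1)).card = p ∧ univ.biUnion (fun i => (t i).1) ⊆ Y := by
  obtain ⟨h1, h2, -, -⟩ := h
  constructor
  · rw [Finset.card_biUnion]
    · have h3 : ∀ i ∈ (univ : Finset (Fin p)), (t i).1.card = 1 := fun i _ =>
        (Finset.mem_filter.1 (h1 i).1).2
      rw [Finset.sum_congr rfl h3]
      simp
    · intro i _ j _ hij
      exact h2 i j hij
  · intro y hy
    rw [Finset.mem_biUnion] at hy
    obtain ⟨i, -, hi⟩ := hy
    exact (h1 i).2 hi

theorem covers {d p : ℕ} {Y : Finset (Fin k)} {w : Fin n → ℤ} {J : Finset (Fin n)}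
    {t : Fin p → Lb k n} (h : vZ (L1 k n d) Y w J p t) (hp : Y.card ≤ p) : Tp Y t := by
  obtain ⟨h1, h2⟩ := card_letters h
  have h3 : univ.biUnion (fun i => (t i).1) = Y :=
    Finset.eq_of_subset_of_card_le h2 (by rw [h1]; exact hp)
  intro y hy
  rw [← h3, Finset.mem_biUnion] at hy
  obtain ⟨i, -, hi⟩ := hy
  exact ⟨i, hi⟩

theorem not_covers {d p : ℕ} {Y : Finset (Fin k)} {w : Fin n → ℤ} {J : Finset (Fin n)}
    {t : Fin p → Lb k n} (h : vZ (L1 k n d) Y w J p t) (hp : p < Y.card) : ¬ Tp Y t := by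
  intro hT
  obtain ⟨h1, -⟩ := card_letters h
  have h3 : Y ⊆ univ.biUnion (fun i => (t i).1) := by
    intro y hy
    obtain ⟨i, hi⟩ := hT y hy
    exact Finset.mem_biUnion.2 ⟨i, mem_univ _, hi⟩
  have h4 := Finset.card_le_card h3
  rw [h1] at h4
  omega

theorem base (h1 : S_Ex) (K : Type) [Field K] [CharZero K] (k n d p : ℕ) (Y : Finset (Fin k))
    (w : Fin n → ℤ) (hd : 1 ≤ d) (hw : ((p : ℤ) + 1) * d ≤ ∑ a, w a + 1) :
    TR K (L1 k n d) Y w p := by
  intro c hc hcy
  rcases lt_or_ge p Y.card with hp | hp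
  · have hcyc : rcyc (L1 k n d) (vZ (L1 k n d) Y w ∅) p c := by
      cases p with
      | zero => exact trivial
      | succ p' =>
        intro t ht
        exact hcy t ht (not_covers ht (by omega))
    obtain ⟨g, hg1, hg2⟩ := h1 K k n d p Y w hd hp hw c hc hcyc
    exact ⟨g, hg1, fun t ht _ => hg2 t ht⟩
  · refine ⟨fun _ => 0, ⟨fun σ t => by simp, fun t ht => absurd rfl ht⟩, ?_⟩
    intro t ht hnt
    exact absurd (covers ht hp) hnt

theorem step (h1 : S_Ex) (h2 : S_AddT) (K : Type) [Field K] [CharZero K] (k n d : ℕ)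
    (hd : 1 ≤ d) (A : Finset (Lb k n)) :
    (∀ e ∈ A, e ∈ La k n d ∧ e.1 = ∅) → ∀ (p : ℕ) (Y : Finset (Fin k)) (w : Fin n → ℤ),
      ((p : ℤ) + 1) * d ≤ ∑ a, w a + 1 → TR K (L1 k n d ∪ A) Y w p := by
  classical
  induction A using Finset.induction_on with
  | empty =>
    intro _ p Y w hw
    rw [Finset.union_empty]
    exact base h1 K k n d p Y w hd hw
  | insert e A heA ih =>
    intro hA p Y w hw
    have ih' := ih (fun e' he' => hA e' (Finset.mem_insert_of_mem he'))
    obtain ⟨heL, he0⟩ := hA e (Finset.mem_insert_self _ _)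
    have hsum : ∑ a, e.2 a = d := by
      have := mem_La.1 heL
      rw [he0] at this
      simpa using this
    have heM : e ∉ L1 k n d ∪ A := by
      intro h
      rcases Finset.mem_union.1 h with h | h
      · have := (Finset.mem_filter.1 h).2
        rw [he0] at this
        simp at this
      · exact heA h
    rw [Finset.union_insert]
    refine h2 K k n p (L1 k n d ∪ A) e Y w heM he0 (ih' p Y w hw) ?_
    rintro p' rfl
    apply ih' p' Y (sw w e.2)
    have e1 : ∑ a, sw w e.2 a = ∑ a, w a - d := by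
      unfold sw
      rw [Finset.sum_sub_distrib]
      congr 1
      exact_mod_cast hsum
    rw [e1]
    push_cast at hw
    linarith

end ITopR

open ITopR in
theorem pr_TopR (h1 : S_Ex) (h2 : S_AddT) : S_TopR := by
  intro K _ _ k n d p Y w hd hw
  classical
  have h := step h1 h2 K k n d hd ((La k n d).filter (fun e => e.1 = ∅))
    (fun e he => Finset.mem_filter.1 he) p Y w hw
  have e1 : L1 k n d ∪ (La k n d).filter (fun e => e.1 = ∅) = LL k n d := by
    ext e
    unfold L1 LL
    rw [Finset.mem_union, Finset.mem_filter, Finset.mem_filter, Finset.mem_filter]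
    constructor
    · rintro (⟨a, b⟩ | ⟨a, b⟩)
      · exact ⟨a, b.le⟩
      · exact ⟨a, by rw [b]; simp⟩
    · rintro ⟨a, b⟩
      rcases Nat.lt_or_ge e.1.card 1 with h | h
      · exact Or.inr ⟨a, Finset.card_eq_zero.1 (by omega)⟩
      · exact Or.inl ⟨a, le_antisymm b h⟩
  rw [e1] at h
  exact h

end Pool.Agent.Work.MP_1233f5_ag.TL
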