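import Pool.Agent.Work.MP_1233f5_ag.TL.Stmts

/-! MP_1233f5_ag, block TL, item TopZ (helper35): every covered chain is a boundary. -/

set_option autoImplicit false

namespace Pool.Agent.Work.MP_1233f5_ag.TL

open Finset
open Pool.Agent.Work.MP_1233f5_ag.V (Alt dd wdg Pred rCh rcyc rVan Mo vw)

namespace ITopZ

theorem rem_perm {k n q : ℕ} (w : Fin n → ℤ) (σ : Equiv.Perm (Fin q)) (t : Fin q → Lb k n)
    (a : Fin n) : rem w (t ∘ σ) a = rem w t a := by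
  unfold rem
  rw [← Equiv.sum_comp σ (fun i => ((t i).2 a : ℤ))]
  rfl

theorem vZ_perm {k n : ℕ} (M : Finset (Lb k n)) (Y : Finset (Fin k)) (w : Fin n → ℤ)
    (J : Finset (Fin n)) (q : ℕ) (σ : Equiv.Perm (Fin q)) (t : Fin q → Lb k n)
    (h : vZ M Y w J q t) : vZ M Y w J q (t ∘ σ) := by
  obtain ⟨h1, h2, h3, h4⟩ := h
  refine ⟨fun i => h1 (σ i), fun i j hij => h2 (σ i) (σ j) (fun hc => hij (σ.injective hc)), ?_, ?_⟩
  · intro a ha
    rw [rem_perm]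
    exact h3 a ha
  · intro a ha
    rw [rem_perm]
    exact h4 a ha

end ITopZ

theorem pr_TopZ (h1 : S_Fun) (h2 : S_TopF) : S_TopZ := by
  intro K _ _ k n d T' P Y w c hn hd hsum hM1 hM2 hc hcov
  by_contra hB
  obtain ⟨φ, hφ1, hφ2, t, ht1, ht2⟩ := h1 K (Lb k n) (LL k n d) (vZ (LL k n d) Y w univ) P c
    (fun q t h i => (h.1 i).1) (fun q σ t h => ITopZ.vZ_perm _ _ _ _ _ _ _ h) hc hB
  exact ht1 (h2 K k n d T' P Y w φ hn hd hsum hM1 hM2 hφ1 hφ2 t (hcov t ht2))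

end Pool.Agent.Work.MP_1233f5_ag.TL
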