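import Pool.Agent.Work.MP_1233f5_ag.TL.Main
import Pool.Agent.Work.MP_1233f5_ag.TL.I_BrT
import Pool.Agent.Work.MP_1233f5_ag.TL.I_Num
import Pool.Agent.Work.MP_1233f5_ag.TL.I_Small

/-! MP_1233f5_ag, block TL (captain helper37): link to the statement of the hand-in. -/

set_option autoImplicit false
open scoped TensorProduct

namespace Pool.Agent.Work.MP_1233f5_ag.TL

open Finset
open Pool.Agent.Work.MP_1233f5_ag.V (Mo LS Sd toF mono bas DK)

/-- the linear combinations of the elements `m_1 ∧ ... ∧ m_p ⊗ m_0`, as in the hand-in. -/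
noncomputable def tail' (n d p T s k : ℕ) :
    Submodule ℂ (ExteriorAlgebra ℂ ↥(MvPolynomial.homogeneousSubmodule (Fin n) ℂ d) ⊗[ℂ]
      MvPolynomial (Fin n) ℂ) :=
  Submodule.span ℂ {z | ∃ (α : Fin p → (Fin n →₀ ℕ))
    (hα : ∀ i, (MvPolynomial.monomial (α i) (1 : ℂ)) ∈
      MvPolynomial.homogeneousSubmodule (Fin n) ℂ d) (β : Fin n →₀ ℕ),
    (MvPolynomial.monomial β (1 : ℂ)) ∈ MvPolynomial.homogeneousSubmodule (Fin n) ℂ T ∧
    (∑ j : Fin n, if s ≤ (j : ℕ) then β j + ∑ i, α i j else 0) ≤ k ∧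
    z = (ExteriorAlgebra.ιMulti ℂ p (fun i =>
      (⟨MvPolynomial.monomial (α i) (1 : ℂ), hα i⟩ :
        ↥(MvPolynomial.homogeneousSubmodule (Fin n) ℂ d)))) ⊗ₜ[ℂ]
      (MvPolynomial.monomial β (1 : ℂ))}

theorem mem_Mo_of {n d : ℕ} {α : Fin n →₀ ℕ}
    (h : (MvPolynomial.monomial α (1 : ℂ)) ∈ MvPolynomial.homogeneousSubmodule (Fin n) ℂ d) :
    (fun j => α j) ∈ Mo n d := by
  rw [Pool.Agent.Work.MP_1233f5_ag.V.Bridge_mem]
  have h1 := (MvPolynomial.mem_homogeneousSubmodule d _).1 h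
  have h2 := h1 (d := α) (by simp)
  rw [← h2]
  simp [Finsupp.weight_apply, Finsupp.sum_fintype]

theorem toF_coe {n : ℕ} (α : Fin n →₀ ℕ) : toF (fun j => α j) = α := by
  ext j
  simp [toF]

theorem tail_le (n d p T s k : ℕ) : tail' n d p T s k ≤ tailPiece n d p T s k := by
  refine Submodule.span_le.2 ?_
  rintro z ⟨α, hα, β, hβ, hk, rfl⟩
  refine Submodule.subset_span ⟨fun i j => α i j, fun j => β j, fun i => mem_Mo_of (hα i),
    mem_Mo_of hβ, ?_, ?_⟩
  · rw [Finset.sum_filter]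
    exact hk
  · unfold bas
    rw [toF_coe]
    congr 2
    funext i
    apply Subtype.ext
    have h1 : toF (fun j => α i j) = α i := toF_coe (α i)
    have h2 : (MvPolynomial.monomial (toF (fun j => α i j)) (1 : ℂ)) ∈
        MvPolynomial.homogeneousSubmodule (Fin n) ℂ d := by
      rw [h1]
      exact hα i
    unfold mono
    rw [dif_pos h2]
    simp only [h1]

/-- the tail theorem for the frozen complex. -/
theorem tail_van (hAll : S_All) (hPol : S_Pol) (q b d p n : ℕ) (hq : 1 ≤ q)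
    (hd : q + b + 1 ≤ d)
    (hp : (p : ℤ) < (Nat.choose (d + q) q : ℤ) - (Nat.choose (d - b - 1) q : ℤ) - (q : ℤ))
    (x : LS n d) (hx : x ∈ tail' n d p (q * d + b) (q + 1) ((q - 1) * d + b + 1))
    (hD : DK n d x = 0) : x ∈ LinearMap.range (DK n d) := by
  refine pr_BrT n d p (q * d + b) (q + 1) ((q - 1) * d + b + 1) ?_ x (tail_le _ _ _ _ _ _ hx) hD
  intro w hw hk
  exact main_van hAll hPol pr_Small pr_Num ℂ q b d p n hq hd (by omega) w hw hk

end Pool.Agent.Work.MP_1233f5_ag.TL
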