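import Pool.Agent.Work.MP_1233f5_ag.TL.I_AddL
import Pool.Agent.Work.MP_1233f5_ag.TL.I_Fil
import Pool.Agent.Work.MP_1233f5_ag.TL.I_AddT
import Pool.Agent.Work.MP_1233f5_ag.TL.I_GenM
import Pool.Agent.Work.MP_1233f5_ag.TL.I_Gen
import Pool.Agent.Work.MP_1233f5_ag.TL.I_GenP
import Pool.Agent.Work.MP_1233f5_ag.TL.I_GenU
import Pool.Agent.Work.MP_1233f5_ag.TL.I_Ex
import Pool.Agent.Work.MP_1233f5_ag.TL.I_TopR
import Pool.Agent.Work.MP_1233f5_ag.TL.I_Sh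
import Pool.Agent.Work.MP_1233f5_ag.TL.I_ShI
import Pool.Agent.Work.MP_1233f5_ag.TL.I_Fun
import Pool.Agent.Work.MP_1233f5_ag.TL.I_Det
import Pool.Agent.Work.MP_1233f5_ag.TL.I_StarL
import Pool.Agent.Work.MP_1233f5_ag.TL.I_StarC
import Pool.Agent.Work.MP_1233f5_ag.TL.I_StarW
import Pool.Agent.Work.MP_1233f5_ag.TL.I_TopF
import Pool.Agent.Work.MP_1233f5_ag.TL.I_TopZ
import Pool.Agent.Work.MP_1233f5_ag.TL.I_G1
import Pool.Agent.Work.MP_1233f5_ag.TL.I_All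
import Pool.Agent.Work.MP_1233f5_ag.TL.I_PolA
import Pool.Agent.Work.MP_1233f5_ag.TL.I_PolB
import Pool.Agent.Work.MP_1233f5_ag.TL.I_Pol
import Pool.Agent.Work.MP_1233f5_ag.TL.I_Small
import Pool.Agent.Work.MP_1233f5_ag.TL.I_Num
import Pool.Agent.Work.MP_1233f5_ag.TL.I_BrT
import Pool.Agent.Work.MP_1233f5_ag.TL.Link

/-! MP_1233f5_ag, block TL (captain helper37): all items together. -/

set_option autoImplicit false

namespace Pool.Agent.Work.MP_1233f5_ag.TL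

theorem h_AddL : S_AddL := pr_AddL
theorem h_Fil : S_Fil := pr_Fil h_AddL
theorem h_AddT : S_AddT := pr_AddT
theorem h_GenM : S_GenM := pr_GenM
theorem h_Gen : S_Gen := pr_Gen h_GenM
theorem h_GenP : S_GenP := pr_GenP h_Gen
theorem h_GenU : S_GenU := pr_GenU h_GenP
theorem h_Ex : S_Ex := pr_Ex h_GenU
theorem h_TopR : S_TopR := pr_TopR h_Ex h_AddT
theorem h_Sh : S_Sh := pr_Sh
theorem h_ShI : S_ShI := pr_ShI h_Sh
theorem h_Fun : S_Fun := pr_Fun
theorem h_Det : S_Det := pr_Det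
theorem h_StarL : S_StarL := pr_StarL
theorem h_StarC : S_StarC := pr_StarC h_Det h_StarL
theorem h_StarW : S_StarW := pr_StarW h_StarC
theorem h_TopF : S_TopF := pr_TopF h_StarW
theorem h_TopZ : S_TopZ := pr_TopZ h_Fun h_TopF
theorem h_G1 : S_G1 := pr_G1 h_TopR h_ShI h_TopZ
theorem h_All : S_All := pr_All h_Fil h_G1
theorem h_PolA : S_PolA := pr_PolA
theorem h_PolB : S_PolB := pr_PolB
theorem h_Pol : S_Pol := pr_Pol h_PolA h_PolB
theorem h_Small : S_Small := pr_Small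
theorem h_Num : S_Num := pr_Num
theorem h_BrT : S_BrT := pr_BrT

end Pool.Agent.Work.MP_1233f5_ag.TL
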