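import Pool.Agent.Work.MP_1233f5_ag.TL.Stmts

/-! MP_1233f5_ag, block TL, item AddL: adding a label. -/

set_option autoImplicit false

namespace Pool.Agent.Work.MP_1233f5_ag.TL

open Finset
open Pool.Agent.Work.MP_1233f5_ag.V (Alt dd wdg Pred rCh rcyc rVan Mo vw)

namespace IAddL

variable {K : Type} [Field K] {k n : ℕ}

theorem rem_comp {p : ℕ} (w : Fin n → ℤ) (t : Fin p → Lb k n) (σ : Equiv.Perm (Fin p))
    (a : Fin n) : rem w (t ∘ σ) a = rem w t a := by
  unfold rem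
  congr 1
  exact Equiv.sum_comp σ (fun i => ((t i).2 a : ℤ))

theorem rem_cons {p : ℕ} (w : Fin n → ℤ) (e : Lb k n) (s : Fin p → Lb k n) (a : Fin n) :
    rem w (Fin.cons e s : Fin (p + 1) → Lb k n) a = rem (sw w e.2) s a := by
  unfold rem sw
  rw [Fin.sum_univ_succ]
  simp only [Fin.cons_zero, Fin.cons_succ]
  ring

theorem rem_sw_le {p : ℕ} (w : Fin n → ℤ) (v : Fin n → ℕ) (s : Fin p → Lb k n) (a : Fin n) :
    rem (sw w v) s a ≤ rem w s a := by
  unfold rem sw
  have : (0 : ℤ) ≤ (v a : ℤ) := Int.natCast_nonneg _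
  linarith

theorem vZ_iff {M : Finset (Lb k n)} {Y : Finset (Fin k)} {w : Fin n → ℤ} {p : ℕ}
    {t : Fin p → Lb k n} : vZ M Y w ∅ p t ↔ (∀ i, t i ∈ M ∧ (t i).1 ⊆ Y) ∧
      (∀ i j, i ≠ j → Disjoint (t i).1 (t j).1) ∧ ∀ a, 0 ≤ rem w t a := by
  constructor
  · rintro ⟨h1, h2, _, h4⟩
    exact ⟨h1, h2, fun a => h4 a (Finset.notMem_empty a)⟩
  · rintro ⟨h1, h2, h3⟩
    exact ⟨h1, h2, fun a ha => absurd ha (Finset.notMem_empty a), fun a _ => h3 a⟩

theorem vZ_comp {M : Finset (Lb k n)} {Y : Finset (Fin k)} {w : Fin n → ℤ} {p : ℕ}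
    {t : Fin p → Lb k n} (σ : Equiv.Perm (Fin p)) (h : vZ M Y w ∅ p t) :
    vZ M Y w ∅ p (t ∘ σ) := by
  rw [vZ_iff] at h ⊢
  obtain ⟨h1, h2, h3⟩ := h
  refine ⟨fun i => h1 (σ i), fun i j hij => h2 _ _ (fun h => hij (σ.injective h)), fun a => ?_⟩
  rw [rem_comp]
  exact h3 a

theorem vZ_tail {M : Finset (Lb k n)} {Y : Finset (Fin k)} {w : Fin n → ℤ} {p : ℕ} {b : Lb k n}
    {s : Fin p → Lb k n} (h : vZ M Y w ∅ (p + 1) (Fin.cons b s)) : vZ M Y w ∅ p s := by
  rw [vZ_iff] at h ⊢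
  obtain ⟨h1, h2, h3⟩ := h
  refine ⟨fun i => ?_, fun i j hij => ?_, fun a => ?_⟩
  · have := h1 i.succ
    rwa [Fin.cons_succ] at this
  · have := h2 i.succ j.succ (fun h => hij (Fin.succ_injective _ h))
    rwa [Fin.cons_succ, Fin.cons_succ] at this
  · have := h3 a
    rw [rem_cons] at this
    exact this.trans (rem_sw_le w b.2 s a)

/-- the tuples containing the new label once. -/
theorem vZ_cons_out {M : Finset (Lb k n)} {Y : Finset (Fin k)} {w : Fin n → ℤ} {p : ℕ}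
    {e : Lb k n} {s : Fin p → Lb k n} (h : vZ (insert e M) Y w ∅ (p + 1) (Fin.cons e s))
    (hs : ∀ i, s i ≠ e) : e.1 ⊆ Y ∧ vZ M (Y \ e.1) (sw w e.2) ∅ p s := by
  rw [vZ_iff] at h
  rw [vZ_iff]
  obtain ⟨h1, h2, h3⟩ := h
  have h0 := h1 0
  rw [Fin.cons_zero] at h0
  refine ⟨h0.2, fun i => ?_, fun i j hij => ?_, fun a => ?_⟩
  · have h4 := h1 i.succ
    rw [Fin.cons_succ] at h4
    have h5 := h2 0 i.succ (Fin.succ_ne_zero i).symm
    rw [Fin.cons_zero, Fin.cons_succ] at h5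
    refine ⟨?_, ?_⟩
    · rcases Finset.mem_insert.1 h4.1 with h6 | h6
      · exact absurd h6 (hs i)
      · exact h6
    · rw [Finset.subset_sdiff]
      exact ⟨h4.2, h5.symm⟩
  · have := h2 i.succ j.succ (fun h => hij (Fin.succ_injective _ h))
    rwa [Fin.cons_succ, Fin.cons_succ] at this
  · have := h3 a
    rwa [rem_cons] at this

theorem vZ_cons_in {M : Finset (Lb k n)} {Y : Finset (Fin k)} {w : Fin n → ℤ} {p : ℕ}
    {e : Lb k n} {s : Fin p → Lb k n} (he : e.1 ⊆ Y)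
    (h : vZ M (Y \ e.1) (sw w e.2) ∅ p s) : vZ (insert e M) Y w ∅ (p + 1) (Fin.cons e s) := by
  rw [vZ_iff] at h
  rw [vZ_iff]
  obtain ⟨h1, h2, h3⟩ := h
  refine ⟨fun i => ?_, fun i j hij => ?_, fun a => ?_⟩
  · refine Fin.cases ?_ (fun i => ?_) i
    · rw [Fin.cons_zero]
      exact ⟨Finset.mem_insert_self _ _, he⟩
    · rw [Fin.cons_succ]
      exact ⟨Finset.mem_insert_of_mem (h1 i).1, (h1 i).2.trans Finset.sdiff_subset⟩
  · have h5 : ∀ i, Disjoint e.1 (s i).1 := fun i => by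
      have := (h1 i).2
      rw [Finset.subset_sdiff] at this
      exact this.2.symm
    revert hij
    refine Fin.cases ?_ (fun i => ?_) i
    · refine Fin.cases (fun h => absurd rfl h) (fun j _ => ?_) j
      rw [Fin.cons_zero, Fin.cons_succ]
      exact h5 j
    · refine Fin.cases (fun _ => ?_) (fun j hij => ?_) j
      · rw [Fin.cons_zero, Fin.cons_succ]
        exact (h5 i).symm
      · rw [Fin.cons_succ, Fin.cons_succ]
        exact h2 i j (fun h => hij (by rw [h]))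
  · rw [rem_cons]
    exact h3 a

theorem vZ_mono {M : Finset (Lb k n)} {Y : Finset (Fin k)} {w : Fin n → ℤ} {p : ℕ}
    {e : Lb k n} {t : Fin p → Lb k n} (h : vZ M Y w ∅ p t) : vZ (insert e M) Y w ∅ p t := by
  rw [vZ_iff] at h ⊢
  exact ⟨fun i => ⟨Finset.mem_insert_of_mem (h.1 i).1, (h.1 i).2⟩, h.2⟩

theorem vZ_low {M : Finset (Lb k n)} {Y : Finset (Fin k)} {w : Fin n → ℤ} {p : ℕ}
    {e : Lb k n} {t : Fin p → Lb k n} (h : vZ M (Y \ e.1) (sw w e.2) ∅ p t) :
    vZ M Y w ∅ p t := by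
  rw [vZ_iff] at h ⊢
  exact ⟨fun i => ⟨(h.1 i).1, (h.1 i).2.trans Finset.sdiff_subset⟩, h.2.1,
    fun a => (h.2.2 a).trans (rem_sw_le w e.2 t a)⟩

theorem vZ_ne {M : Finset (Lb k n)} {Y : Finset (Fin k)} {w : Fin n → ℤ} {p : ℕ}
    {e : Lb k n} {t : Fin p → Lb k n} (he : e ∉ M) (h : vZ M Y w ∅ p t) (i : Fin p) :
    t i ≠ e := fun h1 => he (h1 ▸ ((vZ_iff.1 h).1 i).1)

theorem vZ_red {M : Finset (Lb k n)} {Y : Finset (Fin k)} {w : Fin n → ℤ} {p : ℕ}
    {e : Lb k n} {t : Fin p → Lb k n} (h : vZ (insert e M) Y w ∅ p t) (h1 : ∀ i, t i ≠ e) :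
    vZ M Y w ∅ p t := by
  rw [vZ_iff] at h ⊢
  refine ⟨fun i => ⟨?_, (h.1 i).2⟩, h.2⟩
  rcases Finset.mem_insert.1 (h.1 i).1 with h2 | h2
  · exact absurd h2 (h1 i)
  · exact h2

theorem dd_insert {M : Finset (Lb k n)} {e : Lb k n} (he : e ∉ M) {p : ℕ}
    (c : (Fin (p + 1) → Lb k n) → K) (s : Fin p → Lb k n) :
    dd (insert e M) c s = c (Fin.cons e s) + dd M c s := by
  unfold dd
  rw [Finset.sum_insert he]

theorem dd_supp {M M' : Finset (Lb k n)} {Y : Finset (Fin k)} {w : Fin n → ℤ} {p : ℕ}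
    {g : (Fin (p + 1) → Lb k n) → K} (hg : ∀ t, g t ≠ 0 → vZ M Y w ∅ (p + 1) t)
    {s : Fin p → Lb k n} (h : dd M' g s ≠ 0) : vZ M Y w ∅ p s := by
  obtain ⟨b, _, hb⟩ := Finset.exists_ne_zero_of_sum_ne_zero h
  exact vZ_tail (hg _ hb)

theorem cons_alt {p : ℕ} {c : (Fin (p + 1) → Lb k n) → K} (h : Alt (p + 1) c) (e : Lb k n) :
    Alt p (fun s => c (Fin.cons e s)) := by
  intro σ t
  have h1 := h (Equiv.Perm.decomposeFin.symm (0, σ)) (Fin.cons e t)
  have h2 : (Fin.cons e t : Fin (p + 1) → Lb k n) ∘ (Equiv.Perm.decomposeFin.symm (0, σ)) =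
      Fin.cons e (t ∘ σ) := by
    funext l
    refine Fin.cases ?_ (fun l => ?_) l
    · simp
    · simp
  rw [h2] at h1
  change c (Fin.cons e (t ∘ σ)) = _
  rw [h1]
  simp

theorem cons_swap {p : ℕ} {c : (Fin (p + 2) → Lb k n) → K} (h : Alt (p + 2) c) (b b' : Lb k n)
    (t : Fin p → Lb k n) : c (Fin.cons b' (Fin.cons b t)) = - c (Fin.cons b (Fin.cons b' t)) := by
  have h1 := h (Equiv.swap 0 1) (Fin.cons b (Fin.cons b' t) : Fin (p + 2) → Lb k n)
  have h2 : (Fin.cons b (Fin.cons b' t) : Fin (p + 2) → Lb k n) ∘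
      (Equiv.swap (0 : Fin (p + 2)) 1) = Fin.cons b' (Fin.cons b t) := by
    funext k
    refine Fin.cases ?_ (fun k => ?_) k
    · simp only [Function.comp_apply, Equiv.swap_apply_left, Fin.cons_zero]
      rfl
    · refine Fin.cases ?_ (fun k => ?_) k
      · simp only [Function.comp_apply, Fin.succ_zero_eq_one, Equiv.swap_apply_right,
          Fin.cons_zero]
        rfl
      · have e1 : (k.succ.succ : Fin (p + 2)) ≠ 0 := Fin.succ_ne_zero _
        have e2 : (k.succ.succ : Fin (p + 2)) ≠ 1 := by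
          rw [← Fin.succ_zero_eq_one]
          intro h
          exact Fin.succ_ne_zero k (Fin.succ_injective _ h)
        simp only [Function.comp_apply, Equiv.swap_apply_of_ne_of_ne e1 e2, Fin.cons_succ]
  rw [h2, Equiv.Perm.sign_swap (by simp)] at h1
  rw [h1]
  push_cast
  ring

theorem cons_cons_zero [CharZero K] {p : ℕ} {c : (Fin (p + 2) → Lb k n) → K}
    (h : Alt (p + 2) c) (b : Lb k n) (t : Fin p → Lb k n) :
    c (Fin.cons b (Fin.cons b t)) = 0 := by
  refine h.eq_zero (i := 0) (j := 1) (by simp) ?_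
  rw [Fin.cons_zero, ← Fin.succ_zero_eq_one, Fin.cons_succ, Fin.cons_zero]

/-- the part of an alternating function with the label `e`. -/
theorem wdg_part [CharZero K] {p : ℕ} {c : (Fin (p + 1) → Lb k n) → K} (h : Alt (p + 1) c)
    (e : Lb k n) (t : Fin (p + 1) → Lb k n) (i : Fin (p + 1)) (hi : t i = e) :
    wdg e (fun s => c (Fin.cons e s)) t = c t := by
  unfold wdg
  by_cases h1 : ∃ j, j ≠ i ∧ t j = e
  · obtain ⟨j, hj, hje⟩ := h1
    have h0 : c t = 0 := h.eq_zero hj (hje.trans hi.symm)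
    rw [h0]
    refine Finset.sum_eq_zero (fun l _ => ?_)
    split_ifs with hl
    · have h2 := h.cons_removeNth t l
      rw [hl, h0, mul_zero] at h2
      change _ * c (Fin.cons e (l.removeNth t)) = 0
      rw [h2, mul_zero]
    · rfl
  · rw [Finset.sum_eq_single i]
    · rw [if_pos hi]
      have h2 := h.cons_removeNth t i
      rw [hi] at h2
      change (-1) ^ (i : ℕ) * c (Fin.cons e (i.removeNth t)) = c t
      rw [h2, ← mul_assoc, ← pow_add, ← two_mul, pow_mul]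
      simp
    · intro l _ hl
      rw [if_neg (fun h3 => h1 ⟨l, hl, h3⟩)]
    · intro h3
      exact absurd (mem_univ i) h3

theorem wdg_none {p : ℕ} {c : (Fin p → Lb k n) → K} (e : Lb k n) (t : Fin (p + 1) → Lb k n)
    (h : ∀ i, t i ≠ e) : wdg e c t = 0 := by
  unfold wdg
  exact Finset.sum_eq_zero (fun i _ => if_neg (h i))

theorem main [CharZero K] {p : ℕ} {M : Finset (Lb k n)} {e : Lb k n} {Y : Finset (Fin k)}
    {w : Fin n → ℤ} (he : e ∉ M) (heY : e.1 ⊆ Y) (hV : rVan K M (vZ M Y w ∅) (p + 1))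
    (hV' : rVan K M (vZ M (Y \ e.1) (sw w e.2) ∅) p) :
    rVan K (insert e M) (vZ (insert e M) Y w ∅) (p + 1) := by
  intro c hc hcyc
  obtain ⟨hA, hS⟩ := hc
  set c1 : (Fin p → Lb k n) → K := fun s => c (Fin.cons e s) with hc1
  have hc1A : Alt p c1 := cons_alt hA e
  have hc1S : ∀ s, c1 s ≠ 0 → vZ M (Y \ e.1) (sw w e.2) ∅ p s := by
    intro s hs
    refine (vZ_cons_out (hS _ hs) (fun i hi => hs ?_)).2
    refine hA.eq_zero (i := 0) (j := i.succ) (Fin.succ_ne_zero i).symm ?_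
    rw [Fin.cons_zero, Fin.cons_succ, hi]
  have hc1C : rcyc M (vZ M (Y \ e.1) (sw w e.2) ∅) p c1 := by
    cases p with
    | zero => trivial
    | succ q =>
      intro s hs
      have h1 : dd M c1 s = - dd M c (Fin.cons e s) := by
        unfold dd
        rw [← Finset.sum_neg_distrib]
        refine Finset.sum_congr rfl (fun b _ => ?_)
        exact cons_swap hA b e s
      have h2 := hcyc (Fin.cons e s) (vZ_cons_in heY hs)
      rw [dd_insert he, cons_cons_zero hA, zero_add] at h2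
      rw [h1, h2, neg_zero]
  obtain ⟨g1, ⟨hg1A, hg1S⟩, hg1⟩ := hV' c1 ⟨hc1A, hc1S⟩ hc1C
  have hdd1 : dd M g1 = c1 := by
    funext s
    by_cases h : vZ M (Y \ e.1) (sw w e.2) ∅ p s
    · exact hg1 s h
    · have h2 : c1 s = 0 := by
        by_contra h3
        exact h (hc1S s h3)
      have h3 : dd M g1 s = 0 := by
        by_contra h4
        exact h (dd_supp hg1S h4)
      rw [h2, h3]
  have hg1e : ∀ t : Fin (p + 1) → Lb k n, (∃ i, t i = e) → g1 t = 0 := by
    rintro t ⟨i, hi⟩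
    by_contra h
    exact vZ_ne he (hg1S t h) i hi
  have hdd1' : dd (insert e M) g1 = c1 := by
    funext s
    rw [dd_insert he, hg1e _ ⟨0, Fin.cons_zero _ _⟩, zero_add, hdd1]
  have hmem : e ∈ insert e M := Finset.mem_insert_self _ _
  set W : (Fin (p + 2) → Lb k n) → K := wdg e g1 with hW
  have hWA : Alt (p + 2) W := hg1A.wdg e
  have hWd : ∀ t, dd (insert e M) W t = g1 t - wdg e c1 t := by
    intro t
    have h := V.dd_wdg (insert e M) hmem g1 t
    rw [hdd1'] at h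
    rw [← h]
    ring
  set c2 : (Fin (p + 1) → Lb k n) → K := fun t => c t + dd (insert e M) W t with hc2
  have hc2' : ∀ t, c2 t = c t + (g1 t - wdg e c1 t) := fun t => by rw [hc2]; simp only [hWd]
  have hc2A : Alt (p + 1) c2 := hA.add (hWA.dd _)
  have hc2e : ∀ t : Fin (p + 1) → Lb k n, (∃ i, t i = e) → c2 t = 0 := by
    rintro t ⟨i, hi⟩
    rw [hc2', hg1e t ⟨i, hi⟩, wdg_part hA e t i hi]
    ring
  have hc2S : ∀ t, c2 t ≠ 0 → vZ M Y w ∅ (p + 1) t := by
    intro t ht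
    have hne : ∀ i, t i ≠ e := fun i hi => ht (hc2e t ⟨i, hi⟩)
    rw [hc2', wdg_none e t hne, sub_zero] at ht
    by_cases h : c t = 0
    · rw [h, zero_add] at ht
      exact vZ_low (hg1S t ht)
    · exact vZ_red (hS t h) hne
  have hc2C : rcyc M (vZ M Y w ∅) (p + 1) c2 := by
    intro s hs
    have h1 : dd (insert e M) c2 s = dd M c2 s := by
      rw [dd_insert he, hc2e _ ⟨0, Fin.cons_zero _ _⟩, zero_add]
    have h2 : dd (insert e M) c2 s = dd (insert e M) c s + dd (insert e M) (dd (insert e M) W) s := by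
      simp only [hc2, dd]
      rw [← Finset.sum_add_distrib]
    rw [← h1, h2, hcyc s (vZ_mono hs), V.dd_dd _ hWA, add_zero]
  obtain ⟨g2, ⟨hg2A, hg2S⟩, hg2⟩ := hV c2 ⟨hc2A, hc2S⟩ hc2C
  have hdd2 : dd M g2 = c2 := by
    funext s
    by_cases h : vZ M Y w ∅ (p + 1) s
    · exact hg2 s h
    · have h2 : c2 s = 0 := by
        by_contra h3
        exact h (hc2S s h3)
      have h3 : dd M g2 s = 0 := by
        by_contra h4
        exact h (dd_supp hg2S h4)
      rw [h2, h3]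
  refine ⟨fun t => g2 t - W t, ⟨hg2A.sub hWA, fun t ht => ?_⟩, fun t _ => ?_⟩
  · by_cases h : g2 t = 0
    · have h1 : W t ≠ 0 := by
        intro h2
        apply ht
        change g2 t - W t = 0
        rw [h, h2, sub_zero]
      obtain ⟨i, _, hi⟩ := Finset.exists_ne_zero_of_sum_ne_zero h1
      have hie : t i = e := by
        by_contra h3
        rw [if_neg h3] at hi
        exact hi rfl
      rw [if_pos hie] at hi
      have h4 : g1 (i.removeNth t) ≠ 0 := right_ne_zero_of_mul hi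
      have h5 : vZ (insert e M) Y w ∅ (p + 2) (Fin.cons e (i.removeNth t)) :=
        vZ_cons_in heY (hg1S _ h4)
      have h6 : t ∘ (i.cycleRange.symm) = Fin.cons (t i) (i.removeNth t) := by
        funext l
        refine Fin.cases ?_ (fun l => ?_) l
        · simp [Fin.cycleRange_symm_zero]
        · simp [Fin.cycleRange_symm_succ, Fin.removeNth]
      rw [← hie, ← h6] at h5
      have h7 := vZ_comp i.cycleRange h5
      have h8 : (t ∘ (i.cycleRange.symm)) ∘ i.cycleRange = t := by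
        funext l
        simp
      rw [h8] at h7
      rwa [hie] at h7
    · exact vZ_mono (hg2S t h)
  · have h1 : dd (insert e M) (fun t => g2 t - W t) t = dd (insert e M) g2 t - dd (insert e M) W t := by
      simp only [dd]
      rw [← Finset.sum_sub_distrib]
    have h2 : g2 (Fin.cons e t) = 0 := by
      by_contra h3
      exact vZ_ne he (hg2S _ h3) 0 (Fin.cons_zero _ _)
    rw [h1, dd_insert he g2, h2, zero_add, hdd2]
    simp only [hc2]
    ring

end IAddL

open IAddL in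
/-- Item AddL. -/
theorem pr_AddL : S_AddL := by
  intro K _ _ k n p M e Y w he hV hV'
  cases p with
  | zero =>
    intro c hc _
    obtain ⟨g, ⟨hgA, hgS⟩, hg⟩ := hV c ⟨hc.1, fun t ht => vZ_red (hc.2 t ht) (fun i => i.elim0)⟩
      trivial
    refine ⟨g, ⟨hgA, fun t ht => vZ_mono (hgS t ht)⟩, fun t ht => ?_⟩
    have h2 : g (Fin.cons e t) = 0 := by
      by_contra h3
      exact vZ_ne he (hgS _ h3) 0 (Fin.cons_zero _ _)
    rw [dd_insert he g, h2, zero_add]
    exact hg t (vZ_red ht (fun i => i.elim0))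
  | succ p =>
    by_cases heY : e.1 ⊆ Y
    · exact main he heY hV (hV' heY p rfl)
    · have hne : ∀ (q : ℕ) (t : Fin q → Lb k n), vZ (insert e M) Y w ∅ q t → ∀ i, t i ≠ e :=
        fun q t ht i hi => heY (hi ▸ ((vZ_iff.1 ht).1 i).2)
      intro c hc hcyc
      have hC : rcyc M (vZ M Y w ∅) (p + 1) c := by
        intro s hs
        have h1 := hcyc s (vZ_mono hs)
        have h2 : c (Fin.cons e s) = 0 := by
          by_contra h3
          exact hne _ _ (hc.2 _ h3) 0 (Fin.cons_zero _ _)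
        rwa [dd_insert he, h2, zero_add] at h1
      obtain ⟨g, ⟨hgA, hgS⟩, hg⟩ := hV c ⟨hc.1, fun t ht => vZ_red (hc.2 t ht) (hne _ t (hc.2 t ht))⟩ hC
      refine ⟨g, ⟨hgA, fun t ht => vZ_mono (hgS t ht)⟩, fun t ht => ?_⟩
      have h2 : g (Fin.cons e t) = 0 := by
        by_contra h3
        exact vZ_ne he (hgS _ h3) 0 (Fin.cons_zero _ _)
      rw [dd_insert he g, h2, zero_add]
      exact hg t (vZ_red ht (hne _ t ht))

end Pool.Agent.Work.MP_1233f5_ag.TL
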