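import Pool.Agent.Work.MP_1233f5_ag.TL.Stmts

set_option autoImplicit false

/-! MP_1233f5_ag, block TL, item All: from the labels with at most one letter to all labels. -/

namespace Pool.Agent.Work.MP_1233f5_ag.TL

open Finset
open Pool.Agent.Work.MP_1233f5_ag.V (Alt dd wdg Pred rCh rcyc rVan Mo vw vm fib)

theorem pr_All (h1 : S_Fil) (h2 : S_G1) : S_All := by
  intro K _ _ k n d T T' p Y w hn hd hT hw hY hp hM
  refine h1 K k n d (fun p Y w => (∑ a, w a + (Y.card : ℤ) = (p : ℤ) * d + T) ∧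
    Y.card + d ≤ T + 1 ∧ p + n + (Mo n T').card ≤ (Mo n d).card ∧
    (Mo n T').card + Y.card ≤ (Mo n (d - 1)).card) ?_ ?_ p Y w ⟨hw, hY, hp, hM⟩
  · intro p Y w e he hP _ hsub
    obtain ⟨a1, a2, a3, a4⟩ := hP
    have hc := Finset.card_sdiff_add_card_eq_card hsub
    have he' := mem_La.1 he
    refine ⟨?_, by omega, by omega, by omega⟩
    have hs : ∑ a, sw w e.2 a = ∑ a, w a - ∑ a, (e.2 a : ℤ) := by
      unfold sw
      rw [Finset.sum_sub_distrib]
    have he2 : (e.1.card : ℤ) + ∑ a, (e.2 a : ℤ) = d := by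
      exact_mod_cast he'
    have hc2 : ((Y \ e.1).card : ℤ) + (e.1.card : ℤ) = (Y.card : ℤ) := by exact_mod_cast hc
    rw [hs]
    push_cast at a1
    linarith
  · intro p Y w hP
    obtain ⟨a1, a2, a3, a4⟩ := hP
    exact h2 K k n d T T' p Y w hn hd hT a1 a2 a3 a4

end Pool.Agent.Work.MP_1233f5_ag.TL
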