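import Pool.Agent.Work.MP_1233f5_ag.TL.Stmts

/-! MP_1233f5_ag, block TL, item Sh. -/

set_option autoImplicit false

namespace Pool.Agent.Work.MP_1233f5_ag.TL

open Finset
open Pool.Agent.Work.MP_1233f5_ag.V (Alt dd wdg Pred rCh rcyc rVan Mo vw vm fib)

namespace ISh

variable {K : Type} [Field K] {k n : ℕ}

theorem rem_cons {p : ℕ} (w : Fin n → ℤ) (b : Lb k n) (t : Fin p → Lb k n) (a : Fin n) :
    rem w (Fin.cons b t : Fin (p + 1) → Lb k n) a = rem w t a - b.2 a := by
  unfold rem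
  rw [Fin.sum_univ_succ]
  simp only [Fin.cons_zero, Fin.cons_succ]
  ring

theorem rem_removeNth {p : ℕ} (w : Fin n → ℤ) (t : Fin (p + 1) → Lb k n) (j : Fin (p + 1))
    (a : Fin n) : rem w (j.removeNth t) a = rem w t a + (t j).2 a := by
  unfold rem
  rw [Fin.sum_univ_succAbove _ j]
  simp only [Fin.removeNth]
  ring

theorem rem_perm {p : ℕ} (w : Fin n → ℤ) (t : Fin p → Lb k n) (σ : Equiv.Perm (Fin p))
    (a : Fin n) : rem w (t ∘ σ) a = rem w t a := by
  unfold rem
  congr 1
  exact Equiv.sum_comp σ (fun i => ((t i).2 a : ℤ))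

/-- all conditions except the one at `i` -/
def RR (M : Finset (Lb k n)) (Y : Finset (Fin k)) (w : Fin n → ℤ) (J : Finset (Fin n))
    (i : Fin n) : Pred (Lb k n) := fun _ t =>
  (∀ j, t j ∈ M ∧ (t j).1 ⊆ Y) ∧ (∀ j j', j ≠ j' → Disjoint (t j).1 (t j').1) ∧
    (∀ a ∈ J, rem w t a < 0) ∧ ∀ a, a ∉ J → a ≠ i → 0 ≤ rem w t a

variable {M : Finset (Lb k n)} {Y : Finset (Fin k)} {w : Fin n → ℤ} {J : Finset (Fin n)}
  {i : Fin n}

theorem GJ {p : ℕ} (hi : i ∉ J) (t : Fin p → Lb k n) :
    vZ M Y w J p t ↔ RR M Y w J i p t ∧ 0 ≤ rem w t i := by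
  constructor
  · rintro ⟨h1, h2, h3, h4⟩
    exact ⟨⟨h1, h2, h3, fun a ha _ => h4 a ha⟩, h4 i hi⟩
  · rintro ⟨⟨h1, h2, h3, h4⟩, h5⟩
    refine ⟨h1, h2, h3, fun a ha => ?_⟩
    by_cases hai : a = i
    · rw [hai]
      exact h5
    · exact h4 a ha hai

theorem GI {p : ℕ} (_hi : i ∉ J) (t : Fin p → Lb k n) :
    vZ M Y w (insert i J) p t ↔ RR M Y w J i p t ∧ rem w t i < 0 := by
  constructor
  · rintro ⟨h1, h2, h3, h4⟩
    refine ⟨⟨h1, h2, fun a ha => h3 a (mem_insert_of_mem ha), fun a ha hai => h4 a ?_⟩,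
      h3 i (mem_insert_self _ _)⟩
    rw [mem_insert]
    tauto
  · rintro ⟨⟨h1, h2, h3, h4⟩, h5⟩
    refine ⟨h1, h2, fun a ha => ?_, fun a ha => ?_⟩
    · rcases mem_insert.1 ha with h | h
      · rw [h]
        exact h5
      · exact h3 a h
    · rw [mem_insert, not_or] at ha
      exact h4 a ha.2 ha.1

/-- the tail of a tuple -/
theorem tail_cond {p : ℕ} {b : Lb k n} {t : Fin p → Lb k n}
    (h1 : ∀ j, (Fin.cons b t : Fin (p + 1) → Lb k n) j ∈ M ∧
      ((Fin.cons b t : Fin (p + 1) → Lb k n) j).1 ⊆ Y)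
    (h2 : ∀ j j', j ≠ j' → Disjoint ((Fin.cons b t : Fin (p + 1) → Lb k n) j).1
      ((Fin.cons b t : Fin (p + 1) → Lb k n) j').1) :
    (∀ j, t j ∈ M ∧ (t j).1 ⊆ Y) ∧ ∀ j j', j ≠ j' → Disjoint (t j).1 (t j').1 := by
  refine ⟨fun j => ?_, fun j j' hj => ?_⟩
  · have := h1 j.succ
    rwa [Fin.cons_succ] at this
  · have := h2 j.succ j'.succ (fun h => hj (Fin.succ_injective _ h))
    rwa [Fin.cons_succ, Fin.cons_succ] at this

theorem xi1 (d : ℕ) (i : Fin n) : (xi k d i).1 = ∅ := rfl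

theorem xi2 (d : ℕ) (i a : Fin n) (h : a ≠ i) : (xi k d i).2 a = 0 := by
  show (Pi.single i d : Fin n → ℕ) a = 0
  simp [h]

/-- removing a label `ξ` -/
theorem RR_removeNth {p d : ℕ} (hi : i ∉ J) {t : Fin (p + 1) → Lb k n} (ht : RR M Y w J i (p + 1) t)
    {j : Fin (p + 1)} (hj : t j = xi k d i) : RR M Y w J i p (j.removeNth t) := by
  obtain ⟨h1, h2, h3, h4⟩ := ht
  refine ⟨fun l => h1 _, fun l l' hl => h2 _ _ fun h => hl (Fin.succAbove_right_injective h),
    fun a ha => ?_, fun a ha hai => ?_⟩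
  · rw [rem_removeNth, hj, xi2 d i a (fun h => hi (h ▸ ha)), Nat.cast_zero, add_zero]
    exact h3 a ha
  · rw [rem_removeNth, hj, xi2 d i a hai, Nat.cast_zero, add_zero]
    exact h4 a ha hai

/-- adding a label `ξ` -/
theorem RR_of_removeNth {p d : ℕ} (hi : i ∉ J) (hξ : xi k d i ∈ M) {t : Fin (p + 1) → Lb k n}
    {j : Fin (p + 1)} (hj : t j = xi k d i) (ht : RR M Y w J i p (j.removeNth t)) :
    RR M Y w J i (p + 1) t := by
  obtain ⟨h1, h2, h3, h4⟩ := ht
  have hE : (t j).1 = ∅ := by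
    rw [hj]
    rfl
  refine ⟨fun l => ?_, fun l l' hl => ?_, fun a ha => ?_, fun a ha hai => ?_⟩
  · by_cases hlj : l = j
    · rw [hlj, hj]
      exact ⟨hξ, by rw [xi1]; exact empty_subset _⟩
    · obtain ⟨l', rfl⟩ := Fin.exists_succAbove_eq hlj
      exact h1 l'
  · by_cases hlj : l = j
    · rw [hlj, hE]
      exact disjoint_empty_left _
    · by_cases hlj' : l' = j
      · rw [hlj', hE]
        exact disjoint_empty_right _
      · obtain ⟨l1, rfl⟩ := Fin.exists_succAbove_eq hlj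
        obtain ⟨l2, rfl⟩ := Fin.exists_succAbove_eq hlj'
        exact h2 l1 l2 fun h => hl (by rw [h])
  · have h5 := h3 a ha
    rw [rem_removeNth, hj, xi2 d i a (fun h => hi (h ▸ ha)), Nat.cast_zero, add_zero] at h5
    exact h5
  · have h5 := h4 a ha hai
    rw [rem_removeNth, hj, xi2 d i a hai, Nat.cast_zero, add_zero] at h5
    exact h5

/-- `dd c` vanishes on `RR` -/
theorem factA {p : ℕ} (hi : i ∉ J) (c : (Fin (p + 1) → Lb k n) → K)
    (hc : rCh (vZ M Y w J) (p + 1) c) (hz : rcyc M (vZ M Y w J) (p + 1) c) (t : Fin p → Lb k n)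
    (ht : RR M Y w J i p t) : dd M c t = 0 := by
  by_cases h : 0 ≤ rem w t i
  · exact hz t ((GJ hi t).2 ⟨ht, h⟩)
  · unfold V.dd
    refine Finset.sum_eq_zero fun b _ => ?_
    by_contra hb
    have h1 := ((GJ hi _).1 (hc.2 _ hb)).2
    rw [rem_cons] at h1
    have h2 : (0 : ℤ) ≤ (b.2 i : ℤ) := Nat.cast_nonneg _
    omega

theorem factB [CharZero K] {p d : ℕ} (hi : i ∉ J) (hξ : xi k d i ∈ M) (c : (Fin p → Lb k n) → K)
    (hc : rCh (vZ M Y w J) p c) (hz : rcyc M (vZ M Y w J) p c) (t : Fin p → Lb k n)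
    (ht : RR M Y w J i p t) : dd M (wdg (xi k d i) c) t = c t := by
  cases p with
  | zero => exact V.dd_wdg_zero M hξ c t
  | succ p =>
    have h1 := V.dd_wdg M hξ c t
    have h2 : wdg (xi k d i) (dd M c) t = 0 := by
      unfold V.wdg
      refine Finset.sum_eq_zero fun j _ => ?_
      by_cases hj : t j = xi k d i
      · rw [if_pos hj, factA hi c hc hz _ (RR_removeNth hi ht hj), mul_zero]
      · rw [if_neg hj]
    rw [h2, add_zero] at h1
    exact h1

theorem wdg_ne {p d : ℕ} (c : (Fin p → Lb k n) → K) (t : Fin (p + 1) → Lb k n)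
    (h : wdg (xi k d i) c t ≠ 0) : ∃ j, t j = xi k d i ∧ c (j.removeNth t) ≠ 0 := by
  by_contra hcon
  push Not at hcon
  apply h
  unfold V.wdg
  refine Finset.sum_eq_zero fun j _ => ?_
  by_cases hj : t j = xi k d i
  · rw [if_pos hj, hcon j hj, mul_zero]
  · rw [if_neg hj]

end ISh

open ISh in
open Classical in
theorem pr_Sh : S_Sh := by
  intro K _ _ k n d p M Y w J i c hi hξ hc hz
  set g := wdg (xi k d i) c with hg
  have hgA : Alt (p + 1) g := V.Alt.wdg _ hc.1
  have hgR : ∀ t, g t ≠ 0 → RR M Y w J i (p + 1) t := by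
    intro t ht
    obtain ⟨j, hj, hcj⟩ := wdg_ne c t ht
    exact RR_of_removeNth hi hξ hj ((GJ hi _).1 (hc.2 _ hcj)).1
  set c' : (Fin (p + 1) → Lb k n) → K := fun t => if rem w t i < 0 then g t else 0 with hc'
  have hc'A : Alt (p + 1) c' := by
    intro σ t
    show (if rem w (t ∘ σ) i < 0 then g (t ∘ σ) else 0) =
      ((Equiv.Perm.sign σ : ℤ) : K) * (if rem w t i < 0 then g t else 0)
    rw [rem_perm]
    split_ifs
    · exact hgA σ t
    · rw [mul_zero]
  have hc'S : ∀ t, c' t ≠ 0 → vZ M Y w (insert i J) (p + 1) t := by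
    intro t ht
    have h1 : rem w t i < 0 := by
      by_contra h
      exact ht (if_neg h)
    have h2 : g t ≠ 0 := by
      intro h
      apply ht
      show (if rem w t i < 0 then g t else 0) = 0
      rw [if_pos h1, h]
    exact (GI hi t).2 ⟨hgR t h2, h1⟩
  refine ⟨c', ⟨hc'A, hc'S⟩, ?_, ?_, ?_⟩
  · intro t ht
    obtain ⟨htR, hti⟩ := (GI hi t).1 ht
    have h1 : dd M c' t = dd M g t := by
      unfold V.dd
      refine Finset.sum_congr rfl fun b _ => ?_
      refine if_pos ?_
      rw [rem_cons]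
      have h2 : (0 : ℤ) ≤ (b.2 i : ℤ) := Nat.cast_nonneg _
      omega
    rw [h1, hg, factB hi hξ c hc hz t htR]
    by_contra h
    have := ((GJ hi t).1 (hc.2 t h)).2
    omega
  · intro hT t ht y hy
    have h2 : g t ≠ 0 := by
      intro h
      apply ht
      show (if rem w t i < 0 then g t else 0) = 0
      rw [h, ite_self]
    obtain ⟨j, hj, hcj⟩ := wdg_ne c t h2
    obtain ⟨l, hl⟩ := hT _ hcj y hy
    exact ⟨_, hl⟩
  · rintro ⟨h, hh, hdh⟩
    set e : (Fin (p + 1) → Lb k n) → K :=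
      fun t => if vZ M Y w J (p + 1) t then dd M h t else 0 with he
    have hGp : ∀ (σ : Equiv.Perm (Fin (p + 1))) (t : Fin (p + 1) → Lb k n),
        vZ M Y w J (p + 1) t → vZ M Y w J (p + 1) (t ∘ σ) := by
      rintro σ t ⟨h1, h2, h3, h4⟩
      refine ⟨fun j => h1 _, fun j j' hj => h2 _ _ fun h => hj (σ.injective h), fun a ha => ?_,
        fun a ha => ?_⟩
      · rw [rem_perm]
        exact h3 a ha
      · rw [rem_perm]
        exact h4 a ha
    have hGp' : ∀ (σ : Equiv.Perm (Fin (p + 1))) (t : Fin (p + 1) → Lb k n),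
        vZ M Y w J (p + 1) (t ∘ σ) ↔ vZ M Y w J (p + 1) t := by
      intro σ t
      constructor
      · intro h
        have := hGp σ⁻¹ _ h
        have h2 : (t ∘ σ) ∘ (σ⁻¹ : Equiv.Perm (Fin (p + 1))) = t := by
          funext j
          simp
        rwa [h2] at this
      · exact hGp σ t
    have hdA : Alt (p + 1) (dd M h) := V.Alt.dd M hh.1
    have heA : Alt (p + 1) e := by
      intro σ t
      show (if vZ M Y w J (p + 1) (t ∘ σ) then dd M h (t ∘ σ) else 0) =
        ((Equiv.Perm.sign σ : ℤ) : K) * (if vZ M Y w J (p + 1) t then dd M h t else 0)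
      by_cases h1 : vZ M Y w J (p + 1) t
      · rw [if_pos ((hGp' σ t).2 h1), if_pos h1]
        exact hdA σ t
      · rw [if_neg (fun h2 => h1 ((hGp' σ t).1 h2)), if_neg h1, mul_zero]
    refine ⟨fun t => (g t - c' t) - e t, ⟨(hgA.sub hc'A).sub heA, fun t ht => ?_⟩, fun t ht => ?_⟩
    · by_contra hn
      apply ht
      have h1 : e t = 0 := if_neg hn
      show (g t - (if rem w t i < 0 then g t else 0)) - e t = 0
      rw [h1]
      by_cases h2 : rem w t i < 0
      · rw [if_pos h2, sub_self, sub_zero]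
      · rw [if_neg h2, sub_zero, sub_zero]
        by_contra h3
        exact hn ((GJ hi t).2 ⟨hgR t h3, by omega⟩)
    · obtain ⟨htR, hti⟩ := (GJ hi t).1 ht
      have h1 : dd M (fun t => (g t - c' t) - e t) t = dd M g t - (dd M c' t + dd M e t) := by
        unfold V.dd
        rw [← Finset.sum_add_distrib, ← Finset.sum_sub_distrib]
        exact Finset.sum_congr rfl fun b _ => by ring
      have h2 : dd M c' t + dd M e t = dd M (dd M h) t := by
        unfold V.dd
        rw [← Finset.sum_add_distrib]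
        refine Finset.sum_congr rfl fun b hb => ?_
        show c' (Fin.cons b t) + e (Fin.cons b t) = dd M h (Fin.cons b t)
        by_cases hJ : vZ M Y w J (p + 1) (Fin.cons b t)
        · have h3 : e (Fin.cons b t) = dd M h (Fin.cons b t) := if_pos hJ
          have h4 : c' (Fin.cons b t) = 0 := if_neg (by
            have := ((GJ hi _).1 hJ).2
            omega)
          rw [h3, h4, zero_add]
        · have h3 : e (Fin.cons b t) = 0 := if_neg hJ
          rw [h3, add_zero]
          by_cases hI : vZ M Y w (insert i J) (p + 1) (Fin.cons b t)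
          · exact (hdh _ hI).symm
          · have h4 : c' (Fin.cons b t) = 0 := by
              by_contra h5
              exact hI (hc'S _ h5)
            rw [h4]
            symm
            unfold V.dd
            refine Finset.sum_eq_zero fun b' _ => ?_
            by_contra h5
            obtain ⟨⟨g1, g2, g3, g4⟩, g5⟩ := (GI hi _).1 (hh.2 _ h5)
            obtain ⟨k1, k2⟩ := tail_cond g1 g2
            have hR : RR M Y w J i (p + 1) (Fin.cons b t) := by
              refine ⟨k1, k2, fun a ha => ?_, fun a ha hai => ?_⟩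
              · rw [rem_cons]
                have h6 := htR.2.2.1 a ha
                have h7 : (0 : ℤ) ≤ (b.2 a : ℤ) := Nat.cast_nonneg _
                omega
              · have h6 := g4 a ha hai
                rw [rem_cons] at h6
                have h7 : (0 : ℤ) ≤ (b'.2 a : ℤ) := Nat.cast_nonneg _
                omega
            by_cases h8 : rem w (Fin.cons b t : Fin (p + 1) → Lb k n) i < 0
            · exact hI ((GI hi _).2 ⟨hR, h8⟩)
            · exact hJ ((GJ hi _).2 ⟨hR, by omega⟩)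
      rw [h1, h2, V.dd_dd M hh.1 t, sub_zero, hg]
      exact factB hi hξ c hc hz t htR

end Pool.Agent.Work.MP_1233f5_ag.TL
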