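import Pool.Agent.Work.MP_1233f5_ag.TL.Stmts

/-! MP_1233f5_ag, block TL (captain helper37): the assembly. -/

set_option autoImplicit false

namespace Pool.Agent.Work.MP_1233f5_ag.TL

open Finset
open Pool.Agent.Work.MP_1233f5_ag.V (Alt dd wdg Pred rCh rcyc rVan Mo vw vm fib)

theorem card_Mo' (n d : ℕ) : (Mo (n + 1) d).card = (d + n).choose n := by
  have h := Pool.Agent.Work.MP_1233f5_ag.V.pr_CardMo (n + 1) d (by omega)
  simpa using h

/-- the multigraded vanishing. -/
theorem main_van (hAll : S_All) (hPol : S_Pol) (hSmall : S_Small) (hNum : S_Num)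
    (K : Type) [Field K] [CharZero K] (q b d p n : ℕ) (hq : 1 ≤ q) (hd : q + b + 1 ≤ d)
    (hp : p + q + (d - b - 1).choose q < (d + q).choose q) (w : Fin n → ℕ)
    (hw : ∑ a, w a = p * d + (q * d + b))
    (hk : ∑ j ∈ univ.filter (fun j : Fin n => q + 1 ≤ (j : ℕ)), w j ≤ (q - 1) * d + b + 1) :
    rVan K (Mo n d) (vw d w) p := by
  have hqd : q * d = (q - 1) * d + d := by
    obtain ⟨q', rfl⟩ : ∃ q', q = q' + 1 := ⟨q - 1, by omega⟩
    simp only [Nat.add_sub_cancel]
    ring
  rcases Nat.lt_or_ge n (q + 1) with hn | hn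
  · refine hSmall K n d p (q * d + b) w (by omega) hw ?_
    have h1 : n * (d - 1) ≤ q * (d - 1) := Nat.mul_le_mul_right _ (by omega)
    have h2 : q * (d - 1) < q * d := Nat.mul_lt_mul_of_pos_left (by omega) (by omega)
    omega
  · obtain ⟨n2, rfl⟩ : ∃ n2, n = (q + 1) + n2 := ⟨n - (q + 1), by omega⟩
    have htail : ∑ j ∈ univ.filter (fun j : Fin (q + 1 + n2) => q + 1 ≤ (j : ℕ)), w j =
        ∑ a : Fin n2, w (Fin.natAdd (q + 1) a) := by
      rw [Finset.sum_filter, Fin.sum_univ_add]
      have h1 : ∑ i : Fin (q + 1), (if q + 1 ≤ ((Fin.castAdd n2 i : Fin (q + 1 + n2)) : ℕ)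
          then w (Fin.castAdd n2 i) else 0) = 0 := by
        refine Finset.sum_eq_zero (fun i _ => ?_)
        rw [if_neg]
        simp only [Fin.val_castAdd]
        omega
      rw [h1, zero_add]
      refine Finset.sum_congr rfl (fun i _ => ?_)
      rw [if_pos]
      simp only [Fin.val_natAdd]
      omega
    rw [htail] at hk
    set k := ∑ a : Fin n2, w (Fin.natAdd (q + 1) a) with hkdef
    refine hPol K (q + 1) n2 d p k w hkdef.symm ?_
    have hsum : ∑ a : Fin (q + 1), w (Fin.castAdd n2 a) + k = p * d + (q * d + b) := by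
      rw [hkdef, ← Fin.sum_univ_add, hw]
    have hT' : (q * d + b) + (d - q - 1 - b) = (q + 1) * (d - 1) := by
      obtain ⟨e, rfl⟩ : ∃ e, d = q + b + 1 + e := ⟨d - (q + b + 1), by omega⟩
      have h1 : q + b + 1 + e - q - 1 - b = e := by omega
      have h2 : q + b + 1 + e - 1 = q + b + e := by omega
      rw [h1, h2]
      ring
    have hc1 : (Mo (q + 1) (d - q - 1 - b)).card = (d - b - 1).choose q := by
      rw [card_Mo']
      congr 1
      omega
    have hc2 : (Mo (q + 1) d).card = (d + q).choose q := card_Mo' q d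
    have hc3 : (Mo (q + 1) (d - 1)).card = (d + q - 1).choose q := by
      rw [card_Mo']
      congr 1
      omega
    refine hAll K k (q + 1) d (q * d + b) (d - q - 1 - b) p univ _ (by omega) (by omega) hT' ?_ ?_
      ?_ ?_
    · rw [Finset.card_univ, Fintype.card_fin]
      have := congrArg (fun x : ℕ => (x : ℤ)) hsum
      push_cast at this ⊢
      linarith
    · rw [Finset.card_univ, Fintype.card_fin]
      omega
    · rw [hc1, hc2]
      omega
    · rw [Finset.card_univ, Fintype.card_fin, hc1, hc3]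
      exact hNum q b d k hq hd hk

end Pool.Agent.Work.MP_1233f5_ag.TL
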