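import Pool.Agent.Work.MP_1233f5_ag.TL.Defs

/-! MP_1233f5_ag, block TL (captain helper37): the statements of the items, with their proofs in
the docstrings.  Every item is a file `TL/I_<name>.lean` importing this file with a theorem
`pr_<name> (h1 : S_..) ... : S_<name>`; any earlier statement may be used as a hypothesis.
Useful: `Bdx/B01.lean` (`V.Alt.*`, `V.dd_dd`, `V.dd_wdg`, `V.dd_wdg_zero`, `V.Alt.wdg`,
`V.Alt.cons_removeNth`), `X/Basic.lean` (`wdg_add`, `dd_sum`, ...).  Below `[e] c` means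
`wdg e c`, and `r = d - 1`. -/

set_option autoImplicit false
open scoped TensorProduct

namespace Pool.Agent.Work.MP_1233f5_ag.TL

open Finset
open Pool.Agent.Work.MP_1233f5_ag.V (Alt dd wdg Pred rCh rcyc rVan Mo vw vm fib)

/-! ### adding labels -/

/-- [AddL] adding a label `e`.  Let `G' = vZ M (Y \ e.1) (sw w e.2) ∅`, `G = vZ (insert e M) Y w ∅`.
If `e.1` is not in `Y` no tuple of `G` contains `e`.  Otherwise let `c` be a cycle, `p = p' + 1`
(for `p = 0` there is nothing new), `c1 t = c (cons e t)` (zero if `t` contains `e`, by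
`Alt.eq_zero`).  `c1` is a chain and a cycle for `G'` (`dd M c1 t = - dd (insert e M) c (cons e t)`),
so `c1 = dd M g1` on `G'`.  By `dd_wdg`, `c + dd ([e] g1) = (part of c without e) + g1` on `G`,
since `[e] (dd M g1) = [e] c1 = (part of c with e)`.  The right side is a chain for
`vZ M Y w ∅` and a cycle, so it is `dd M g2`, and `c = dd (g2 - [e] g1)`. -/
def S_AddL : Prop :=
  ∀ (K : Type) [Field K] [CharZero K] (k n p : ℕ) (M : Finset (Lb k n)) (e : Lb k n)
    (Y : Finset (Fin k)) (w : Fin n → ℤ), e ∉ M → rVan K M (vZ M Y w ∅) p →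
    (e.1 ⊆ Y → ∀ p', p = p' + 1 → rVan K M (vZ M (Y \ e.1) (sw w e.2) ∅) p') →
    rVan K (insert e M) (vZ (insert e M) Y w ∅) p

/-- [Fil] adding all labels with at least two letters.  `Finset` induction on a set `A` of labels
`e` of `La` with `2 ≤ e.1.card`: for `M = LL ∪ A`, all `p Y w` with `P p Y w`; the step is
`S_AddL`. -/
def S_Fil : Prop :=
  ∀ (K : Type) [Field K] [CharZero K] (k n d : ℕ)
    (P : ℕ → Finset (Fin k) → (Fin n → ℤ) → Prop),
    (∀ (p : ℕ) (Y : Finset (Fin k)) (w : Fin n → ℤ), ∀ e ∈ La k n d, P (p + 1) Y w →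
      2 ≤ e.1.card → e.1 ⊆ Y → P p (Y \ e.1) (sw w e.2)) →
    (∀ (p : ℕ) (Y : Finset (Fin k)) (w : Fin n → ℤ), P p Y w →
      rVan K (LL k n d) (vZ (LL k n d) Y w ∅) p) →
    ∀ (p : ℕ) (Y : Finset (Fin k)) (w : Fin n → ℤ), P p Y w →
      rVan K (La k n d) (vZ (La k n d) Y w ∅) p

/-- [AddT] adding a label `e` without letters, for `TR`.  As `S_AddL`; note
`Tp Y (cons e t) ↔ Tp Y t`.  `p = 0`: the same `g`.  `p = p' + 1`: `c1 t = c (cons e t)` satisfies
`cycT`, so `dd M g1 = c1` on the tuples not covering `Y`.  `c + dd ([e] g1) = c2 + z` with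
`c2 = (part of c without e) + g1` and `z = (part of c with e) - [e] (dd M g1)`; every tuple of the
support of `z` contains `e` and covers `Y`.  For `t` of length `p'` over `M` not covering `Y`:
`0 = dd (insert e M) c t = dd M c2 t + z (cons e t) = dd M c2 t`.  So `c2` satisfies `cycT` over
`M`: `g2`, and the result is `g2 - [e] g1`. -/
def S_AddT : Prop :=
  ∀ (K : Type) [Field K] [CharZero K] (k n p : ℕ) (M : Finset (Lb k n)) (e : Lb k n)
    (Y : Finset (Fin k)) (w : Fin n → ℤ), e ∉ M → e.1 = ∅ → TR K M Y w p →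
    (∀ p', p = p' + 1 → TR K M Y (sw w e.2) p') → TR K (insert e M) Y w p

/-! ### top cycles are generated -/

/-- [GenM] the multilinear case.  Induction on `j` (all `P`, `u`).  `f := P.card - j * r ≥ j + 1`.
`j = 0`: `P` is not empty, `u` is one scalar: take `U y = u` for one `y ∈ P` and `0` for the
others.  Step to `j + 1` (so `f ≥ j + 2`): fix `x ∈ P`.  For a slot `l : Fin (j + 1)` and an
`(r - 1)`-subset `m` of `P \ {x}` let `u_{l,m} b = u (l.insertNth (insert x m) b)`: it is in `ZM`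
for `j` and `P \ ({x} ∪ m)`, whose `f` is the same, `f ≥ j + 1`; by induction
`u_{l,m} = ∑_y u_{l,m,y}` with `u_{l,m,y}` in `ZM` for `P \ ({x} ∪ m ∪ {y})`.  Let
`v = ∑_{l,m,y} ([insert y m]_l - [insert x m]_l) u_{l,m,y}`, where
`([e]_l z) b = if b l = e then z (l.removeNth b) else 0`.  Each term is in `ZM` for `P`.
The value of `v` at a `b` with `x ∈ b l`, `b l = insert x m`, is `- u_{l,m}`; so `u + v` vanishes
at all `b` with `x` in some `b l`: it is in `ZM` for `P.erase x`.  And the term `(l,m,y)` of `v`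
is a sum of elements of `ZM` for `P.erase y'`, `y' ∉ {x, y} ∪ m`: by induction for `u_{l,m,y}`,
whose `f` is `f - 1 ≥ j + 1`. -/
def S_GenM : Prop :=
  ∀ (K : Type) [Field K] (α : Type) [Fintype α] [DecidableEq α] (r j : ℕ) (P : Finset α)
    (u : (Fin j → Finset α) → K), 1 ≤ r → ZM r j P u → j * r + j + 1 ≤ P.card →
    ∃ U : α → ((Fin j → Finset α) → K), (∀ y ∈ P, ZM r j (P.erase y) (U y)) ∧
      ∀ b, u b = ∑ y ∈ P, U y b

/-- [Gen] the multigraded case, from `S_GenM`.  If `w a < 0` for some `a` then `u = 0`.  If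
`r = 0`: for `j ≥ 1` the second condition of `ZC` gives `u = 0`, for `j = 0` take one `l` with
`w l ≥ 1`.  Let `w ≥ 0`, `α = Σ a, Fin (w a)` (or `Fin (∑ w)` with a map `π : α → Fin n` with
fibres of size `w a`).  For `b : Fin j → Finset α` with types `ty b s a = #{x ∈ b s | π x = a}` put
`u' b = (∏_a (w a - ∑_s ty b s a)! ∏_s (ty b s a)!) * u (ty b)` if the `b s` are disjoint
`r`-sets and `0` otherwise: it is in `ZM r j univ` (the number of `v` of type `τ` disjoint from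
the other sets is `∏_a C(w' a, τ a)`, `w' = w - ∑_{s' ≠ s}`, see `V.S_Cnt`).  `S_GenM`:
`u' = ∑_y U_y`.  For `z : (Fin j → Finset α) → K` let `κ z β = ∑_{b, ty b = β} z b` (sum over all
`b`): `κ u' = (∏_a (w a)!) u`, and `κ U_y` is in `ZC` for `sw w (Pi.single (π y) 1)`. -/
def S_Gen : Prop :=
  ∀ (K : Type) [Field K] [CharZero K] (n r j : ℕ) (w : Fin n → ℤ)
    (u : (Fin j → (Fin n → ℕ)) → K), ZC r j w u → (j : ℤ) * r + j + 1 ≤ ∑ a, w a →
    ∃ U : Fin n → ((Fin j → (Fin n → ℕ)) → K), (∀ l, ZC r j (sw w (Pi.single l 1)) (U l)) ∧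
      ∀ b, u b = ∑ l, U l b

/-- [GenP] `r` times `S_Gen`: by induction on `i ≤ r`, `u = ∑_{v ∈ Mo n i} U_v` with `U_v` in `ZC`
for `sw w v`. -/
def S_GenP : Prop :=
  ∀ (K : Type) [Field K] [CharZero K] (n r j : ℕ) (w : Fin n → ℤ)
    (u : (Fin j → (Fin n → ℕ)) → K), ZC r j w u → ((j : ℤ) + 1) * r + j ≤ ∑ a, w a →
    ∃ U : (Fin n → ℕ) → ((Fin j → (Fin n → ℕ)) → K), (∀ v ∈ Mo n r, ZC r j (sw w v) (U v)) ∧
      ∀ b, u b = ∑ v ∈ Mo n r, U v b

/-- [GenU] the same for alternating functions.  Let `y : Fin j ≃ Y`.  The tuples of length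
`j = Y.card` of `vZ (L1 k n d) Y w ∅` are the rearrangements of `fun s => ({y s}, b s)`;
`c ↦ (b ↦ c (fun s => ({y s}, b s)))` is a bijection from the chains which are cycles onto `ZC`
(inverse: antisymmetrization). -/
def S_GenU : Prop :=
  ∀ (K : Type) [Field K] [CharZero K] (k n d j : ℕ) (Y : Finset (Fin k)) (w : Fin n → ℤ)
    (c : (Fin j → Lb k n) → K), 1 ≤ d → Y.card = j → ((j : ℤ) + 1) * d ≤ ∑ a, w a + 1 →
    rCh (vZ (L1 k n d) Y w ∅) j c → rcyc (L1 k n d) (vZ (L1 k n d) Y w ∅) j c →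
    ∃ z : (Fin n → ℕ) → ((Fin j → Lb k n) → K),
      (∀ v ∈ Mo n (d - 1), rCh (vZ (L1 k n d) Y (sw w v) ∅) j (z v) ∧
        rcyc (L1 k n d) (vZ (L1 k n d) Y (sw w v) ∅) j (z v)) ∧
      ∀ t, c t = ∑ v ∈ Mo n (d - 1), z v t

/-- [Ex] exactness for the labels with one letter.  Induction on `Y.card`.  Choose `y ∈ Y`,
`Y' = Y.erase y`.  `m = 0`: if `w ≥ 0` there is `v ∈ Mo n (d - 1)`, `v ≤ w`; use the label
`({y}, v)`.  `m ≥ 1`: `c_v t = c (cons ({y}, v) t)` is a chain and a cycle over `Y'` of weight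
`sw w v`, so `c_v = dd g_v` by induction; `c' = c + dd (∑_v [({y}, v)] g_v)` (up to sign, as in
`S_AddL`) is a cycle without the letter `y`.  If `m < Y'.card` it is a boundary by induction, if
`m = Y'.card` use `S_GenU`: `c' = ∑_v z_v = dd (∑_v [({y}, v)] z_v)`. -/
def S_Ex : Prop :=
  ∀ (K : Type) [Field K] [CharZero K] (k n d m : ℕ) (Y : Finset (Fin k)) (w : Fin n → ℤ),
    1 ≤ d → m < Y.card → ((m : ℤ) + 1) * d ≤ ∑ a, w a + 1 →
    rVan K (L1 k n d) (vZ (L1 k n d) Y w ∅) m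

/-- [TopR] every cycle is covered modulo boundaries.  `Finset` induction on a set `A` of labels
`e ∈ La` with `e.1 = ∅`: `TR K (L1 ∪ A) Y w p` for all `p w` with the inequality.  `A = ∅`: a
tuple of length `p` of `vZ L1 Y w ∅` uses exactly `p` letters, so `p ≤ Y.card`; for `p = Y.card`
all tuples cover `Y` (`g = 0`), for `p < Y.card` none of length `≤ p` does: `S_Ex`.  Step:
`S_AddT`, `∑ (sw w e.2) = ∑ w - d`. -/
def S_TopR : Prop :=
  ∀ (K : Type) [Field K] [CharZero K] (k n d p : ℕ) (Y : Finset (Fin k)) (w : Fin n → ℤ),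
    1 ≤ d → ((p : ℤ) + 1) * d ≤ ∑ a, w a + 1 → TR K (LL k n d) Y w p

/-! ### the shift -/

/-- [Sh] Let `ξ = xi k d i`, `g = [ξ] c` (length `p + 1`), `c' t = g t` if `rem w t i < 0` and `0`
otherwise.  Let `R` be the set of tuples satisfying all conditions of `vZ M Y w J` except the one
at `i`.  `dd c = 0` on `R`: where `rem w t i ≥ 0` by hypothesis, where it is negative all terms
vanish.  If `t ∈ R` contains `ξ`, `t` without `ξ` is in `R`; so `dd g = c` on `R` (`dd_wdg`).  For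
`t ∈ R` with `rem w t i < 0`: `dd c' t = dd g t = c t = 0`: `c'` is a cycle.  If `c' = dd h` on the
tuples with negative `rem` at `i`, let `e t = dd h t` for `t` in `vZ M Y w J` (length `p + 1`) and
`0` otherwise; `dd (dd h) = 0` gives `dd c' + dd e = 0` on `vZ M Y w J` (all `cons b t` with
`t ∈ vZ M Y w J` satisfy the conditions in `J`), so `c = dd g = dd (g - c') + dd c' =
dd (g - c' - e)` there. -/
def S_Sh : Prop :=
  ∀ (K : Type) [Field K] [CharZero K] (k n d p : ℕ) (M : Finset (Lb k n)) (Y : Finset (Fin k))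
    (w : Fin n → ℤ) (J : Finset (Fin n)) (i : Fin n) (c : (Fin p → Lb k n) → K), i ∉ J →
    xi k d i ∈ M → rCh (vZ M Y w J) p c → rcyc M (vZ M Y w J) p c →
    ∃ c' : (Fin (p + 1) → Lb k n) → K, rCh (vZ M Y w (insert i J)) (p + 1) c' ∧
      rcyc M (vZ M Y w (insert i J)) (p + 1) c' ∧
      ((∀ t, c t ≠ 0 → Tp Y t) → ∀ t, c' t ≠ 0 → Tp Y t) ∧
      (Bdy M (vZ M Y w (insert i J)) (p + 1) c' → Bdy M (vZ M Y w J) p c)

/-- [ShI] `n` times `S_Sh`. -/
def S_ShI : Prop :=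
  ∀ (K : Type) [Field K] [CharZero K] (k n d p : ℕ) (M : Finset (Lb k n)) (Y : Finset (Fin k))
    (w : Fin n → ℤ) (c : (Fin p → Lb k n) → K), (∀ i, xi k d i ∈ M) →
    rCh (vZ M Y w ∅) p c → rcyc M (vZ M Y w ∅) p c → (∀ t, c t ≠ 0 → Tp Y t) →
    (∀ c' : (Fin (p + n) → Lb k n) → K, rCh (vZ M Y w univ) (p + n) c' →
      (∀ t, c' t ≠ 0 → Tp Y t) → Bdy M (vZ M Y w univ) (p + n) c') →
    Bdy M (vZ M Y w ∅) p c

/-! ### the star argument -/

/-- [Fun] linear duality (model: `V.Dual.abstract` in `V/I_Dual.lean`).  The functions on the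
finite set of tuples in `M` supported on `G`, of the form `t ↦ dd M g t` (`t ∈ G`), form a
subspace not containing `c`; take a linear functional `∑ a(t) u(t)` vanishing on it and not at `c`,
`φ t = ∑_σ sign σ a (t ∘ σ)` for `t ∈ G` and `0` otherwise.  `∑ φ c = p! ∑ a c ≠ 0`.  For
`T ∈ G` of length `p + 1` apply it to `g s = ∑_σ sign σ [s = T ∘ σ]`. -/
def S_Fun : Prop :=
  ∀ (K : Type) [Field K] [CharZero K] (B : Type) [DecidableEq B] (M : Finset B) (G : Pred B)
    (p : ℕ) (c : (Fin p → B) → K), (∀ (q : ℕ) (t : Fin q → B), G q t → ∀ i, t i ∈ M) →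
    (∀ (q : ℕ) (σ : Equiv.Perm (Fin q)) (t : Fin q → B), G q t → G q (t ∘ σ)) → rCh G p c →
    ¬ Bdy M G p c →
    ∃ φ : (Fin p → B) → K, rCh G p φ ∧
      (∀ T : Fin (p + 1) → B, G (p + 1) T →
        ∑ i : Fin (p + 1), (-1 : K) ^ (i : ℕ) * φ (i.removeNth T) = 0) ∧
      ∃ t, φ t ≠ 0 ∧ c t ≠ 0

/-- [Det] generic determinants (as `Green.det_ne` in `V/I_Green.lean`): the coefficient of
`∏_a X_(e a)^(f a)` is one. -/
def S_Det : Prop :=
  ∀ (K : Type) [Field K] (n : ℕ) (L A : Type) [Fintype L] [DecidableEq L] [Fintype A]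
    [DecidableEq A] (e : A → L) (f : A → (Fin n → ℕ)), Function.Injective e →
    Function.Injective f →
    (Matrix.of (fun a a' : A => ∏ i : Fin n,
      (MvPolynomial.X (e a, i) : MvPolynomial (L × Fin n) K) ^ (f a' i))).det ≠ 0

/-- [StarL] linear algebra.  For `λ : Fin k → X → F` let `W(λ) a = ∑_m ∏_s λ_s (m s) W m a`
(sum over `m : Fin k → X`).  If `∑_x λ_s x ξ l x = 0` for all `s` then `∑_a η l a W(λ) a = 0` (in
`∑_s ξ l (m s) Q l s m` the factor `Q l s m` does not depend on `m s`).  As the rows `ξ l` are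
independent, `X → F` is spanned by the common kernel of the `ξ l` and vectors `δ_l`, `l : L`, with
`∑_x δ_l x ξ l' x = [l = l']`.  If each `λ_s` is one of these vectors, the set `L'` of the `l` with
no `λ_s = δ_l` has at least `h` elements, so `W(λ) = 0` by the hypothesis on `η`.  By
multilinearity `W = 0`. -/
def S_StarL : Prop :=
  ∀ (F : Type) [Field F] (L A X : Type) [Fintype L] [DecidableEq L] [Fintype A] [DecidableEq A]
    [Fintype X] [DecidableEq X] (k : ℕ) (η : L → A → F) (ξ : L → X → F)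
    (W : (Fin k → X) → A → F) (Q : L → Fin k → (Fin k → X) → F),
    Fintype.card A + k ≤ Fintype.card L →
    (∀ e : A → L, Function.Injective e → ∀ u : A → F, (∀ a, ∑ a', η (e a) a' * u a' = 0) →
      u = 0) →
    LinearIndependent F ξ →
    (∀ l s m x, Q l s (Function.update m s x) = Q l s m) →
    (∀ l m, ∑ a, η l a * W m a = ∑ s, ξ l (m s) * Q l s m) → W = 0

/-- [StarC] the star lemma, contraction form (model: `V/I_Green.lean`).  `h = (Mo n T').card`,
`L = Fin (h + k)`, `e : L ↪ Fin (j + 1)`.  Suppose `c t0 m0 ≠ 0`.  For `x : L → Mo n d` let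
`ext x` be `t0` with the entries at `e l` replaced by `x l`, and for `m : Fin k → Mo n (d - 1)`,
`a ∈ Mo n T'` let `W m a = ∑_x c (ext x) m X^x`, over the `x` with
`w + ∑ m - ∑ ext x = a`, in `MvPolynomial (L × Fin n) K`, `X^x = ∏_l X_l^(x l)`.  As in
`Green.Wp_sum` (group by the entries different from `l`; `v` is the entry `l`):
`∑_a X_l^a W m a = ∑_(x without l) X_l^A ∏_(l' ≠ l) X_l'^(x l') ∑_v c (.. v ..) m`, with
`A = w + ∑ m - ∑ (others)`, and `∑_v c (.. v ..) m = ± ∑_s cs s (others) m`; if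
`cs s (others) m ≠ 0` then `m s ≤ A`, so this is `∑_s X_l^(m s) Q l s m` with `Q l s m` not
depending on `m s`.  In the fraction field `F`: `S_StarL` with `η l a = X_l^a`, `ξ l v = X_l^v`;
its hypotheses are `S_Det` (for `ξ` choose an injection of `L` in `Mo n (d - 1)`).  So `W = 0`
and the coefficient of `∏_l X_l^(t0 (e l))` in `W m0 (w + ∑ m0 - ∑ t0)` is `c t0 m0 = 0`. -/
def S_StarC : Prop :=
  ∀ (K : Type) [Field K] [CharZero K] (n d T' k j : ℕ) (w : Fin n → ℤ)
    (c : (Fin (j + 1) → (Fin n → ℕ)) → (Fin k → (Fin n → ℕ)) → K)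
    (cs : Fin k → (Fin j → (Fin n → ℕ)) → (Fin k → (Fin n → ℕ)) → K), 1 ≤ n →
    (∀ m, Alt (j + 1) (fun t => c t m)) →
    (∀ t m, c t m ≠ 0 → (∀ i, t i ∈ Mo n d) ∧ (∀ s, m s ∈ Mo n (d - 1)) ∧
      ∀ a, ∑ i, (t i a : ℤ) ≤ w a + ∑ s, (m s a : ℤ)) →
    (∀ s t m, cs s t m ≠ 0 → (∀ i, t i ∈ Mo n d) ∧ (∀ s', s' ≠ s → m s' ∈ Mo n (d - 1)) ∧
      ∀ a, ∑ i, (t i a : ℤ) ≤ w a + ∑ s' ∈ univ.erase s, (m s' a : ℤ)) →
    (∀ s t m v, cs s t (Function.update m s v) = cs s t m) →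
    (∀ (t : Fin j → (Fin n → ℕ)) (m : Fin k → (Fin n → ℕ)), (∀ i, t i ∈ Mo n d) →
      (∀ s, m s ∈ Mo n (d - 1)) → ∑ v ∈ Mo n d, c (Fin.cons v t) m = ∑ s, cs s t m) →
    (∑ a, w a + (k : ℤ) * ((d - 1 : ℕ) : ℤ) = ((j : ℤ) + 1) * d + T') →
    (Mo n T').card + k ≤ j + 1 → (Mo n T').card + k ≤ (Mo n (d - 1)).card →
    ∀ t m, c t m = 0

/-- [StarW] the star lemma, wedge form, from `S_StarC` by passing to complementary tuples (model:
`V.Dual.abstract`, `V.Dual.eps`).  `N = (Mo n d).card`, `N - b = j + 1`; enumerate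
`Mo n d = (m_0, ..., m_(N-1))`; `c t' m = ∑_t eps(t, t') ψ t m` (sum over `t : Fin b → Mo n d`,
`eps` = sign of `(t, t')` as a rearrangement of the enumeration, else `0`), which is `b!` times the
term of one enumeration `t` of the complement; `cs` in the same way from `ψs` (with the sign and
the factor making the equation true: if `t'` has length `j` and `T` enumerates its complement, then
`∑_v c (cons v t') m` is the sum over the entries `v = T i`, and `removeNth i T` enumerates the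
complement of `cons v t'`).  The weight of `c` is `w' a = ∑_(v ∈ Mo n d) v a - 1 - w a`. -/
def S_StarW : Prop :=
  ∀ (K : Type) [Field K] [CharZero K] (n d T' k b : ℕ) (w : Fin n → ℤ)
    (ψ : (Fin b → (Fin n → ℕ)) → (Fin k → (Fin n → ℕ)) → K)
    (ψs : Fin k → (Fin (b + 1) → (Fin n → ℕ)) → (Fin k → (Fin n → ℕ)) → K), 1 ≤ n →
    (∀ m, Alt b (fun t => ψ t m)) → (∀ s m, Alt (b + 1) (fun t => ψs s t m)) →
    (∀ t m, ψ t m ≠ 0 → (∀ i, t i ∈ Mo n d) ∧ (∀ s, m s ∈ Mo n (d - 1)) ∧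
      ∀ a, w a < ∑ i, (t i a : ℤ) + ∑ s, (m s a : ℤ)) →
    (∀ s t m, ψs s t m ≠ 0 → (∀ i, t i ∈ Mo n d) ∧ (∀ s', s' ≠ s → m s' ∈ Mo n (d - 1)) ∧
      ∀ a, w a < ∑ i, (t i a : ℤ) + ∑ s' ∈ univ.erase s, (m s' a : ℤ)) →
    (∀ s t m v, ψs s t (Function.update m s v) = ψs s t m) →
    (∀ (t : Fin (b + 1) → (Fin n → ℕ)) (m : Fin k → (Fin n → ℕ)), (∀ i, t i ∈ Mo n d) →
      (∀ s, m s ∈ Mo n (d - 1)) →
      ∑ i : Fin (b + 1), (-1 : K) ^ (i : ℕ) * ψ (i.removeNth t) m = ∑ s, ψs s t m) →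
    (∑ a, w a + n + T' = (b : ℤ) * d + (k : ℤ) * ((d - 1 : ℕ) : ℤ)) →
    b + k + (Mo n T').card ≤ (Mo n d).card → (Mo n T').card + k ≤ (Mo n (d - 1)).card →
    ∀ t m, ψ t m = 0

/-- [TopF] the functionals vanish on the covered tuples.  Let `Y.card = κ`, `y : Fin κ ≃ Y`; a
tuple of `vZ LL Y w univ` of length `P` covering `Y` is a rearrangement of
`append (fun i => (∅, t i)) (fun s => ({y s}, m s))` with `t : Fin b → _`, `P = b + κ` (if `P < κ`
there is none).  `ψ t m = φ` of this tuple (if `t`, `m` are monomials of degree `d`, `d - 1`),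
`ψs s T m = ± φ (append (∅, T) (m without s))`, `T : Fin (b + 1) → _`.  The equation is the
hypothesis for `append (∅, T) ({y}, m)`, of length `P + 1`, if this tuple is in `vZ LL Y w univ`;
otherwise some exponent of its coefficient is nonnegative and all terms vanish.  `S_StarW`. -/
def S_TopF : Prop :=
  ∀ (K : Type) [Field K] [CharZero K] (k n d T' P : ℕ) (Y : Finset (Fin k)) (w : Fin n → ℤ)
    (φ : (Fin P → Lb k n) → K), 1 ≤ n → 1 ≤ d →
    (∑ a, w a + Y.card + n + T' = (P : ℤ) * d) →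
    P + (Mo n T').card ≤ (Mo n d).card → (Mo n T').card + Y.card ≤ (Mo n (d - 1)).card →
    rCh (vZ (LL k n d) Y w univ) P φ →
    (∀ T : Fin (P + 1) → Lb k n, vZ (LL k n d) Y w univ (P + 1) T →
      ∑ i : Fin (P + 1), (-1 : K) ^ (i : ℕ) * φ (i.removeNth T) = 0) →
    ∀ t, Tp Y t → φ t = 0

/-- [TopZ] every covered chain is a boundary: `S_Fun` and `S_TopF`. -/
def S_TopZ : Prop :=
  ∀ (K : Type) [Field K] [CharZero K] (k n d T' P : ℕ) (Y : Finset (Fin k)) (w : Fin n → ℤ)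
    (c : (Fin P → Lb k n) → K), 1 ≤ n → 1 ≤ d →
    (∑ a, w a + Y.card + n + T' = (P : ℤ) * d) →
    P + (Mo n T').card ≤ (Mo n d).card → (Mo n T').card + Y.card ≤ (Mo n (d - 1)).card →
    rCh (vZ (LL k n d) Y w univ) P c → (∀ t, c t ≠ 0 → Tp Y t) →
    Bdy (LL k n d) (vZ (LL k n d) Y w univ) P c

/-- [G1] vanishing for the labels with at most one letter.  `c` a cycle; `S_TopR` (the inequality
is `Y.card + d ≤ T + 1`): `g` with `c = dd g` on the tuples not covering `Y`.  The restriction of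
`c - dd g` to `vZ LL Y w ∅` is a covered cycle, a boundary by `S_ShI` and `S_TopZ` with
`P = p + n`. -/
def S_G1 : Prop :=
  ∀ (K : Type) [Field K] [CharZero K] (k n d T T' p : ℕ) (Y : Finset (Fin k)) (w : Fin n → ℤ),
    1 ≤ n → 1 ≤ d → T + T' = n * (d - 1) → (∑ a, w a + Y.card = (p : ℤ) * d + T) →
    Y.card + d ≤ T + 1 → p + n + (Mo n T').card ≤ (Mo n d).card →
    (Mo n T').card + Y.card ≤ (Mo n (d - 1)).card →
    rVan K (LL k n d) (vZ (LL k n d) Y w ∅) p

/-- [All] the same for all labels: `S_Fil`. -/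
def S_All : Prop :=
  ∀ (K : Type) [Field K] [CharZero K] (k n d T T' p : ℕ) (Y : Finset (Fin k)) (w : Fin n → ℤ),
    1 ≤ n → 1 ≤ d → T + T' = n * (d - 1) → (∑ a, w a + Y.card = (p : ℤ) * d + T) →
    Y.card + d ≤ T + 1 → p + n + (Mo n T').card ≤ (Mo n d).card →
    (Mo n T').card + Y.card ≤ (Mo n (d - 1)).card →
    rVan K (La k n d) (vZ (La k n d) Y w ∅) p

/-! ### transfer -/

/-- [PolA] coarser colourings.  As `V.pr_TransB` (in `Bd/B02.lean`), with `V.S_TransA` for `π'`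
(`V.h_TransA`) in the place of the multilinear hypothesis: `C = pb d π c` is invariant for `π`,
hence for `π'`; `C = dd g`; average `g` over the permutations preserving `π`; `V.S_PbSurj`. -/
def S_PolA : Prop :=
  ∀ (K : Type) [Field K] [CharZero K] (α : Type) [Fintype α] [DecidableEq α] (n n' d p : ℕ)
    (π : α → Fin n) (π' : α → Fin n') (f : Fin n' → Fin n), (∀ a, π a = f (π' a)) →
    rVan K (Mo n' d) (vw d (fib π')) p → rVan K (Mo n d) (vw d (fib π)) p

/-- [PolB] relabelling `(S, v) ↦ append v (indicator of S)`. -/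
def S_PolB : Prop :=
  ∀ (K : Type) [Field K] [CharZero K] (k n d p : ℕ) (w : Fin n → ℕ),
    rVan K (La k n d) (vZ (La k n d) univ (fun a => (w a : ℤ)) ∅) p →
    rVan K (Mo (n + k) d) (vw d (Fin.append w (fun _ : Fin k => 1))) p

/-- [Pol] from letters to variables.  Take `α` with `π : α → Fin (n1 + n2)` with fibres `w`, and
`π' : α → Fin (n1 + k)` equal to `π` on the first `n1` colours and injective on the rest
(`k` points).  `S_PolA`, `S_PolB`. -/
def S_Pol : Prop :=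
  ∀ (K : Type) [Field K] [CharZero K] (n1 n2 d p k : ℕ) (w : Fin (n1 + n2) → ℕ),
    ∑ a : Fin n2, w (Fin.natAdd n1 a) = k →
    rVan K (La k n1 d) (vZ (La k n1 d) univ (fun a => (w (Fin.castAdd n2 a) : ℤ)) ∅) p →
    rVan K (Mo (n1 + n2) d) (vw d w) p

/-- [Small] few variables: with all powers removed (`V.pr_RS`, `V.vJ`) there are no tuples. -/
def S_Small : Prop :=
  ∀ (K : Type) [Field K] [CharZero K] (n d p T : ℕ) (w : Fin n → ℕ), 1 ≤ d →
    ∑ a, w a = p * d + T → n * (d - 1) < T → rVan K (Mo n d) (vw d w) p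

/-- [Num] `C(d+q-1, q) - C(d-b-1, q) = ∑_{i=d-b-1}^{d+q-2} C(i, q-1)`; for `q = 1` equality;
for `q ≥ 2` all `C(i, q-1) ≥ i`, the sum of the `i` is `(q+b)(2d+q-b-3)/2` and
`(q+b)(2d+q-b-3)/2 - (q-1)d - b - 1 ≥ (q+b)(q+b-1)/2 ≥ 0`. -/
def S_Num : Prop :=
  ∀ q b d k : ℕ, 1 ≤ q → q + b + 1 ≤ d → k ≤ (q - 1) * d + b + 1 →
    (d - b - 1).choose q + k ≤ (d + q - 1).choose q

/-- the span of the elements `x^(t 0) ∧ ... ∧ x^(t (p-1)) ⊗ x^a` of total degree at most `k` in the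
variables with index at least `s`. -/
noncomputable def tailPiece (n d p T s k : ℕ) :
    Submodule ℂ (Pool.Agent.Work.MP_1233f5_ag.V.LS n d) :=
  Submodule.span ℂ {z | ∃ (t : Fin p → (Fin n → ℕ)) (a : Fin n → ℕ), (∀ i, t i ∈ Mo n d) ∧
    a ∈ Mo n T ∧ ∑ j ∈ univ.filter (fun j : Fin n => s ≤ (j : ℕ)), (a j + ∑ i, t i j) ≤ k ∧
    z = Pool.Agent.Work.MP_1233f5_ag.V.bas n d p t a}

/-- [BrT] the bridge (adapt `V.pr_Bridge` in `Bd/B01.lean`): the coefficients of `x` of weight `w`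
vanish if `w` has degree larger than `k` in the variables with index at least `s`. -/
def S_BrT : Prop :=
  ∀ (n d p T s k : ℕ),
    (∀ w : Fin n → ℕ, ∑ a, w a = p * d + T →
      ∑ j ∈ univ.filter (fun j : Fin n => s ≤ (j : ℕ)), w j ≤ k →
      rVan ℂ (Mo n d) (vw d w) p) →
    ∀ x ∈ tailPiece n d p T s k, Pool.Agent.Work.MP_1233f5_ag.V.DK n d x = 0 →
      x ∈ LinearMap.range (Pool.Agent.Work.MP_1233f5_ag.V.DK n d)

end Pool.Agent.Work.MP_1233f5_ag.TL
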